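import Pool.Agent.Work.MP_0ba68b_gt.Apx.Eu
import Pool.Agent.Work.MP_0ba68b_gt.Basic
import Mathlib.Analysis.Normed.Affine.MazurUlam
import Mathlib.Analysis.InnerProductSpace.Adjoint

/-!
From groups of isometries to closed groups of pairs, and from `Good` to the distortion.

Plan for `exists_agrp`. For g : V ≃ᵢ V let A g = `g.toRealLinearIsometryEquiv` (Mazur-Ulam,
`IsometryEquiv.toRealLinearIsometryEquiv_apply`: A g v = g v - g 0), so g (o + v) = A g v + g o.
Let T = {(A g as a continuous linear map, g o - o) | g ∈ Γ} and car = closure T. Closure under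
products by continuity (`map_mem_closure₂`); iso is a closed condition; for inverses use the
continuous map (A, b) ↦ (A†, -A† b) (`ContinuousLinearMap.adjoint`), which maps T into T, and the
closed conditions A† * A = 1, A * A† = 1. For the distance: `le_odist`, `odist_le` from Basic and
continuity of g ↦ ‖y - act g z‖ on the closure (`orb Γ (o + y)`; note dist (g (o + z)) (o + y) =
‖y - act (pair of g) z‖). The Setup: tr, linU are closed conditions (finite dimensional subspaces
are closed) which hold on T by hA (A g u = (g (o + u) - o) - (g (o + 0) - o)); linW from linU for the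
inverse and `Submodule.orthogonal_orthogonal`; coc from hc.

Plan for `c2_eq_of_good`. The inequality ≤ is `iInf_le` (Eu k is a Hilbert space in Type). For ≥
fix H, f with distortion f ≠ ⊤, so lip f = a, lipInv f = b finite. If there are no two distinct
orbits, lip and lipInv of every map are ⨆ over an empty condition, so 0, and any map into Eu 0 has
distortion 0. In general dist (f p) (f q) ≤ a odist p q and odist p q ≤ b dist (f p) (f q) for all
p, q (ENNReal.div_le_iff_le_mul, treat odist = 0 and edist = 0 separately). If all odist vanish, use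
the constant map to Eu 0 (lip = 0, lipInv = 0). Otherwise a, b > 0 and a b ≥ 1. Put
F y = a⁻¹ • f (orb Γ (o + y)), α = (a b)⁻¹: Hyp S ⊤ α. For β < α, β > 0, γ > 1 get Φ from Good, which
is constant on orbits, define f' on orbits by a representative, distortion f' ≤ ofReal (γ / β)
(scale by β⁻¹ and use `distortion_le`). Let β → α, γ → 1 (`ENNReal.le_of_forall_pos_le_add` or
`le_of_forall_gt_imp_ge_of_dense`).
-/

namespace Pool.Agent.Work.MP_0ba68b_gt.Apx

variable {V : Type} [NormedAddCommGroup V] [InnerProductSpace ℝ V] [FiniteDimensional ℝ V]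

omit [FiniteDimensional ℝ V] in
/-- Every isometry is given by a pair. -/
theorem Bridge_pair (o : V) (g : V ≃ᵢ V) :
    ∃ p : (V →L[ℝ] V) × V, ∀ v, g (o + v) = o + act p v := by
  refine ⟨(g.toRealLinearIsometryEquiv.toContinuousLinearEquiv, g o - o), fun v => ?_⟩
  have h := g.toRealLinearIsometryEquiv.map_add o v
  simp only [IsometryEquiv.toRealLinearIsometryEquiv_apply] at h
  have h2 : g (o + v) = g o - g 0 + (g v - g 0) + g 0 := by rw [← h]; abel
  rw [h2]
  change _ = o + (g.toRealLinearIsometryEquiv v + (g o - o))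
  rw [IsometryEquiv.toRealLinearIsometryEquiv_apply]
  abel

/-- The pairs of the elements of a group. -/
def Bridge_T (Γ : Subgroup (V ≃ᵢ V)) (o : V) : Set ((V →L[ℝ] V) × V) :=
  {p | ∃ g ∈ Γ, ∀ v, g (o + v) = o + act p v}

omit [FiniteDimensional ℝ V] in
theorem Bridge_lin (p : (V →L[ℝ] V) × V) (v : V) : p.1 v = act p v - act p 0 := by
  rw [act_sub, sub_zero]

omit [FiniteDimensional ℝ V] in
theorem Bridge_iso {Γ : Subgroup (V ≃ᵢ V)} {o : V} {p : (V →L[ℝ] V) × V}
    (hp : p ∈ Bridge_T Γ o) (v : V) : ‖p.1 v‖ = ‖v‖ := by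
  obtain ⟨g, -, h⟩ := hp
  have := g.dist_eq (o + v) (o + 0)
  rwa [h, h, dist_add_left, dist_add_left, dist_eq_norm, dist_eq_norm, ← Bridge_lin,
    sub_zero] at this

/-- The closure of the set of pairs. -/
noncomputable def Bridge_S (Γ : Subgroup (V ≃ᵢ V)) (o : V) : AGrp V where
  car := closure (Bridge_T Γ o)
  one_mem := subset_closure ⟨1, Γ.one_mem, fun v => by rw [act_one]; rfl⟩
  mul_mem := fun p hp q hq => by
    refine map_mem_closure₂
      (f := fun p q : (V →L[ℝ] V) × V => (p.1 * q.1, p.1 q.2 + p.2)) ?_ hp hq ?_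
    · unfold Function.uncurry
      fun_prop
    · rintro p ⟨g, hg, e⟩ q ⟨h, hh, e'⟩
      exact ⟨g * h, Γ.mul_mem hg hh, fun v => by
        rw [IsometryEquiv.mul_apply, e', e, act_mul]⟩
  inv_mem := fun p hp => by
    have : CompleteSpace V := FiniteDimensional.complete ℝ V
    have hc : Continuous fun p : (V →L[ℝ] V) × V => ContinuousLinearMap.adjoint p.1 :=
      (ContinuousLinearMap.adjoint (𝕜 := ℝ) (E := V) (F := V)).continuous.comp continuous_fst
    have key : ∀ p ∈ Bridge_T Γ o,
        (ContinuousLinearMap.adjoint p.1, -ContinuousLinearMap.adjoint p.1 p.2) ∈ Bridge_T Γ o ∧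
        ContinuousLinearMap.adjoint p.1 * p.1 = 1 ∧ p.1 * ContinuousLinearMap.adjoint p.1 = 1 := by
      intro p hp
      have hi := Bridge_iso hp
      obtain ⟨g, hg, e⟩ := hp
      obtain ⟨q, e'⟩ := Bridge_pair o g⁻¹
      have a1 : ∀ v, act q (act p v) = v := fun v => by
        have := e' (act p v)
        rw [← e, IsometryEquiv.inv_apply_self] at this
        exact (add_left_cancel this).symm
      have a2 : ∀ v, act p (act q v) = v := fun v => by
        have := e (act q v)
        rw [← e', IsometryEquiv.apply_inv_self] at this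
        exact (add_left_cancel this).symm
      have b1 : ∀ v, q.1 (p.1 v) = v := fun v => by
        rw [Bridge_lin p, ← act_sub, a1, a1, sub_zero]
      have b2 : ∀ v, p.1 (q.1 v) = v := fun v => by
        rw [Bridge_lin q, ← act_sub, a2, a2, sub_zero]
      have c1 : q.1 = ContinuousLinearMap.adjoint p.1 := by
        rw [ContinuousLinearMap.eq_adjoint_iff]
        intro x y
        have := (⟨p.1.toLinearMap, hi⟩ : V →ₗᵢ[ℝ] V).inner_map_map (q.1 x) y
        rw [← this]
        change inner ℝ (p.1 (q.1 x)) (p.1 y) = _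
        rw [b2]
      have c2 : q.2 = -q.1 p.2 := by
        have := a1 0
        simp only [act, map_zero, zero_add] at this
        exact eq_neg_of_add_eq_zero_right this
      rw [← c1, ← c2]
      exact ⟨⟨g⁻¹, Γ.inv_mem hg, e'⟩, ContinuousLinearMap.ext b1, ContinuousLinearMap.ext b2⟩
    refine ⟨(ContinuousLinearMap.adjoint p.1, -ContinuousLinearMap.adjoint p.1 p.2),
      map_mem_closure (f := fun p : (V →L[ℝ] V) × V =>
        (ContinuousLinearMap.adjoint p.1, -ContinuousLinearMap.adjoint p.1 p.2))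
        (hc.prodMk (hc.clm_apply continuous_snd).neg) hp fun p hp => (key p hp).1, ?_, ?_,
      add_neg_cancel _⟩
    · exact closure_minimal (t := {p : (V →L[ℝ] V) × V | ContinuousLinearMap.adjoint p.1 * p.1 = 1})
        (fun p hp => (key p hp).2.1) (isClosed_eq (hc.mul continuous_fst) continuous_const) hp
    · exact closure_minimal (t := {p : (V →L[ℝ] V) × V | p.1 * ContinuousLinearMap.adjoint p.1 = 1})
        (fun p hp => (key p hp).2.2) (isClosed_eq (continuous_fst.mul hc) continuous_const) hp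
  iso := fun p hp v =>
    closure_minimal (t := {p : (V →L[ℝ] V) × V | ‖p.1 v‖ = ‖v‖}) (fun p hp => Bridge_iso hp v)
      (isClosed_eq (by fun_prop) continuous_const) hp
  closed := isClosed_closure

theorem exists_agrp (Γ : Subgroup (V ≃ᵢ V)) (o : V) (W : Submodule ℝ V) (R : ℝ)
    (hA : ∀ g ∈ Γ, ∀ u ∈ Wᗮ, g (o + u) - o ∈ Wᗮ)
    (hc : ∀ u ∈ Wᗮ, ∃ g ∈ Γ, (∀ w ∈ W, g (o + w) = g o + w) ∧ ‖g (o + u) - o‖ ≤ R) :
    ∃ S : AGrp V, Setup S Wᗮ W R ∧
      ∀ y z, S.d y z = odist (orb Γ (o + y)) (orb Γ (o + z)) := by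
  have hU : ∀ p ∈ (Bridge_S Γ o).car, ∀ u ∈ Wᗮ, act p u ∈ Wᗮ := fun p hp u hu =>
    closure_minimal (t := {p : (V →L[ℝ] V) × V | act p u ∈ Wᗮ})
      (by
        rintro p ⟨g, hg, e⟩
        have := hA g hg u hu
        rwa [e, add_sub_cancel_left] at this)
      (W.isClosed_orthogonal.preimage (by unfold act; fun_prop)) hp
  have hL : ∀ p ∈ (Bridge_S Γ o).car, ∀ u ∈ Wᗮ, p.1 u ∈ Wᗮ := fun p hp u hu => by
    rw [Bridge_lin]
    exact Wᗮ.sub_mem (hU p hp u hu) (hU p hp 0 Wᗮ.zero_mem)
  refine ⟨Bridge_S Γ o, ⟨fun u hu w hw => Submodule.inner_left_of_mem_orthogonal hw hu,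
    fun p hp => by simpa [act] using hU p hp 0 Wᗮ.zero_mem, hL, fun p hp w hw => ?_,
    fun u hu => ?_⟩, fun y z => ?_⟩
  · obtain ⟨q, hq, -, e, -⟩ := (Bridge_S Γ o).exists_inv hp
    rw [← W.orthogonal_orthogonal, Submodule.mem_orthogonal]
    intro u hu
    rw [← e u, (Bridge_S Γ o).inner_iso hp]
    exact Submodule.inner_left_of_mem_orthogonal hw (hL q hq u hu)
  · obtain ⟨g, hg, h1, h2⟩ := hc u hu
    obtain ⟨p, e⟩ := Bridge_pair o g
    refine ⟨p, subset_closure ⟨g, hg, e⟩, fun w hw => ?_, ?_⟩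
    · have k1 := h1 w hw
      have k2 := e 0
      rw [add_zero] at k2
      rw [e, k2, add_assoc, add_right_inj] at k1
      rw [Bridge_lin, k1, add_sub_cancel_left]
    · rwa [e, add_sub_cancel_left] at h2
  · rw [AGrp.d_comm]
    refine le_antisymm (le_odist fun g hg => ?_) ((Bridge_S Γ o).le_d fun p hp => ?_)
    · obtain ⟨p, e⟩ := Bridge_pair o g
      rw [e, dist_add_left, dist_comm, dist_eq_norm]
      exact (Bridge_S Γ o).d_le (subset_closure ⟨g, hg, e⟩) z y
    · refine closure_minimal (t := {p : (V →L[ℝ] V) × V |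
        odist (orb Γ (o + y)) (orb Γ (o + z)) ≤ ‖z - act p y‖}) ?_
        (isClosed_le continuous_const (by unfold act; fun_prop)) hp
      rintro p ⟨g, hg, e⟩
      have := odist_le hg (o + y) (o + z)
      rwa [e, dist_add_left, dist_comm, dist_eq_norm] at this

theorem c2_eq_of_good (Γ : Subgroup (V ≃ᵢ V)) (o : V) (S : AGrp V)
    (hd : ∀ y z, S.d y z = odist (orb Γ (o + y)) (orb Γ (o + z)))
    (h : ∀ α : ℝ, 0 < α → α ≤ 1 → Hyp S ⊤ α → Good S ⊤ α) :
    c2 Γ = ⨅ (k : ℕ) (f : Orbits Γ → EuclideanSpace ℝ (Fin k)), distortion f := by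
  refine le_antisymm (le_iInf fun k => le_iInf fun f => c2_le f) (le_c2 fun H _ _ _ f => ?_)
  by_cases hf : distortion f = ⊤
  · rw [hf]
    exact le_top
  obtain ⟨A, B, hA, hB, e, h1, h2⟩ := bounds_of_distortion hf
  by_cases h0 : ∀ a b : Orbits Γ, odist a b ≤ 0
  · refine iInf_le_of_le 0 (iInf_le_of_le (fun _ => 0) ((distortion_le (L := 0) le_rfl
      (fun a b => ?_) fun a b => ?_).trans (by simp)))
    · rw [dist_self]
      exact h0 a b
    · rw [dist_self, zero_mul]
  push Not at h0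
  obtain ⟨a, b, hab⟩ := h0
  have hAB : 1 ≤ A * B := by
    have k := (h1 a b).trans (mul_le_mul_of_nonneg_left (h2 a b) hB)
    rw [← mul_assoc, mul_comm B A] at k
    exact (le_mul_iff_one_le_left hab).1 k
  have hA' : 0 < A := hA.lt_of_ne fun k => by rw [← k, zero_mul] at hAB; linarith
  have hB' : 0 < B := hB.lt_of_ne fun k => by rw [← k, mul_zero] at hAB; linarith
  have hP : 0 < A * B := mul_pos hA' hB'
  have hn : ∀ u v : H, ‖A⁻¹ • u - A⁻¹ • v‖ = A⁻¹ * dist u v := fun u v => by
    rw [← smul_sub, norm_smul, Real.norm_eq_abs, abs_of_pos (inv_pos.2 hA'), dist_eq_norm]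
  have hG := h (A * B)⁻¹ (inv_pos.2 hP) (inv_le_one_of_one_le₀ hAB) fun ρ =>
    ⟨H, inferInstance, inferInstance, fun y => A⁻¹ • f (orb Γ (o + y)), fun y z => by
      rw [hn, hd, inv_mul_le_iff₀ hA']
      exact h2 _ _, fun y _ z _ _ _ => by
      rw [hn, hd, mul_inv, mul_assoc]
      refine mul_le_mul_of_nonneg_left ?_ (inv_pos.2 hA').le
      rw [inv_mul_le_iff₀ hB']
      exact h1 _ _⟩
  rw [e]
  refine ENNReal.le_of_forall_pos_le_add fun ε hε _ => ?_
  have hε' : (0 : ℝ) < ε := hε
  rw [← ENNReal.ofReal_coe_nnreal, ← ENNReal.ofReal_add hP.le hε'.le]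
  have hγ : 1 < 1 + ε / (2 * (A * B)) := lt_add_of_pos_right _ (by positivity)
  have hβ : 0 < (1 + ε / (2 * (A * B))) / (A * B + ε) := by positivity
  obtain ⟨k, Φ, hΦ⟩ := hG ((1 + ε / (2 * (A * B))) / (A * B + ε)) (by
    rw [div_lt_iff₀ (by positivity), lt_inv_mul_iff₀ hP]
    have : A * B * (1 + ε / (2 * (A * B))) = A * B + ε / 2 := by field_simp
    linarith) _ hγ
  generalize 1 + ε / (2 * (A * B)) = γ at hγ hβ hΦ
  choose r hr using fun a : Orbits Γ => orb_surj a
  have hr' : ∀ a b : Orbits Γ, odist a b = S.d (r a - o) (r b - o) := fun a b => by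
    rw [hd, add_sub_cancel, add_sub_cancel, ← hr, ← hr]
  have hm : ∀ u v : Eu k, dist ((γ / (A * B + ε))⁻¹ • u) ((γ / (A * B + ε))⁻¹ • v) =
      (γ / (A * B + ε))⁻¹ * ‖u - v‖ := fun u v => by
    rw [dist_eq_norm, ← smul_sub, norm_smul, Real.norm_eq_abs, abs_of_pos (inv_pos.2 hβ)]
  refine iInf_le_of_le k (iInf_le_of_le (fun a => (γ / (A * B + ε))⁻¹ • Φ (r a - o))
    (distortion_le (by positivity) (fun a b => ?_) fun a b => ?_))
  · rw [hm, hr', le_inv_mul_iff₀ hβ]
    exact (hΦ _ trivial _ trivial).1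
  · rw [hm, hr', inv_mul_le_iff₀ hβ, ← mul_assoc, div_mul_cancel₀ _ (by positivity)]
    exact (hΦ _ trivial _ trivial).2

end Pool.Agent.Work.MP_0ba68b_gt.Apx
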