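import Pool.Agent.Work.MP_0ba68b_gt.Apx.Fold

/-!
Patching local maps with a partition of unity. The dimension `k'` and the scale `T` depend only on
the radii, the local dimensions and the constants.

Plan. Choose c > 0 with c ≤ r j / 4 for all j, small κ, η > 0, Ψ j and δ j from `fold (k j)`, and
T > 0 with T ≤ c, γ T ≤ δ j. Let b j y = max 0 (r j / 2 - d y (x j)) (so |b j y - b j z| ≤ d y z),
m y = max c (√(∑ j, b j y ^ 2)), χ j y = b j y / m y. Then ∑ χ j y ^ 2 ≤ 1, with equality when some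
d y (x j) < r j / 4, and √(∑ (χ j y - χ j z)^2) ≤ (2 / c) √(card J) d y z (view b y as a vector of
EuclideanSpace ℝ J; the map v ↦ v / max c ‖v‖ is (2/c)-Lipschitz). N y = P (fun j => χ j y • Ψ j
(n j y)) with P from `exists_family`. For y, z in M with d y z ≤ T write N y - N z = A + E with
A = P (χ j y • (Ψ j (n j y) - Ψ j (n j z))), E = P ((χ j y - χ j z) • Ψ j (n j z)),
‖E‖ ≤ η (2/c) √(card J) d y z =: θ d y z. If χ j y ≠ 0 then both y, z are within r j of x j, so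
‖ΔL‖^2 + ‖A‖^2 ≤ (1 - ∑ χ^2) (γ d)^2 + ∑ χ^2 (γ d)^2 = (γ d)^2, and in the covered region
‖ΔL‖^2 + ‖A‖^2 ≥ (1 - κ)^2 (β d)^2 (as ‖Δ n j‖ ≤ γ d ≤ δ j). Combine L and N into one map C by
`exists_pair`; the triangle inequality gives ‖ΔC‖ ≤ (γ + θ) d and ≥ ((1 - κ) β - θ) d for d ≤ T.
The upper bound extends to all pairs of M by midpoints: induction on p for d y z ≤ 2^p T.
-/

namespace Pool.Agent.Work.MP_0ba68b_gt.Apx

lemma CStep_min {J : Type} [Fintype J] {f : J → ℝ} (hf : ∀ j, 0 < f j) :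
    ∃ c, 0 < c ∧ ∀ j, c ≤ f j := by
  cases isEmpty_or_nonempty J
  · exact ⟨1, one_pos, isEmptyElim⟩
  · obtain ⟨j, hj⟩ := Finite.exists_min f
    exact ⟨f j, hf j, hj⟩

lemma CStep_le {E : Type} [NormedAddCommGroup E] [NormedSpace ℝ E] {c : ℝ} (hc : 0 < c) (w : E) :
    ‖(max ‖w‖ c)⁻¹ • w‖ ≤ 1 := by
  have hb : 0 < max ‖w‖ c := lt_max_of_lt_right hc
  rw [norm_smul, norm_inv, Real.norm_of_nonneg hb.le, inv_mul_le_iff₀ hb, mul_one]
  exact le_max_left _ _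

lemma CStep_lip {E : Type} [NormedAddCommGroup E] [NormedSpace ℝ E] {c : ℝ} (hc : 0 < c)
    (v w : E) : ‖(max ‖v‖ c)⁻¹ • v - (max ‖w‖ c)⁻¹ • w‖ ≤ 2 * c⁻¹ * ‖v - w‖ := by
  have h1 := (abs_max_sub_max_le_abs ‖w‖ ‖v‖ c).trans (abs_norm_sub_norm_le w v)
  have h2 := CStep_le hc w
  have h3 : (max ‖v‖ c)⁻¹ ≤ c⁻¹ := inv_anti₀ hc (le_max_right _ _)
  have ha : 0 < max ‖v‖ c := lt_max_of_lt_right hc
  have hb : 0 < max ‖w‖ c := lt_max_of_lt_right hc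
  generalize max ‖v‖ c = a at *
  generalize max ‖w‖ c = b at *
  have e : a⁻¹ • v - b⁻¹ • w = a⁻¹ • (v - w + (b - a) • b⁻¹ • w) := by
    rw [sub_smul, smul_inv_smul₀ hb.ne', smul_add, smul_sub, smul_sub, inv_smul_smul₀ ha.ne']
    abel
  rw [e, norm_smul, Real.norm_of_nonneg (inv_pos.2 ha).le, mul_comm 2, mul_assoc]
  refine mul_le_mul h3 ((norm_add_le _ _).trans ?_) (norm_nonneg _) (inv_pos.2 hc).le
  rw [norm_smul, Real.norm_eq_abs, norm_sub_rev v w]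
  linarith [mul_le_of_le_one_right (abs_nonneg (b - a)) h2]

lemma CStep_pou {J : Type} [Fintype J] (r : J → ℝ) (hr : ∀ j, 0 < r j) :
    ∃ K : ℝ, 0 < K ∧ ∀ (X : Type) (d : X → X → ℝ) (x : J → X),
      (∀ y z, 0 ≤ d y z) → (∀ y z, d y z = d z y) → (∀ x y z, d x z ≤ d x y + d y z) →
      ∃ χ : X → J → ℝ, (∀ y, ∑ j, χ y j ^ 2 ≤ 1) ∧
        (∀ y, (∃ j, d y (x j) < r j / 4) → ∑ j, χ y j ^ 2 = 1) ∧
        (∀ y j, χ y j ≠ 0 → d y (x j) < r j / 2) ∧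
        ∀ y z, ∑ j, (χ y j - χ z j) ^ 2 ≤ (K * d y z) ^ 2 := by
  obtain ⟨c, hc, hcr⟩ := CStep_min (f := fun j => r j / 4) fun j => by linarith [hr j]
  refine ⟨2 * c⁻¹ * (Fintype.card J + 1), by positivity, fun X d x h0 h1 h2 => ?_⟩
  obtain ⟨b, hb⟩ : ∃ b : X → EuclideanSpace ℝ J, ∀ y j, b y j = max (r j / 2 - d y (x j)) 0 :=
    ⟨fun y => WithLp.toLp 2 fun j => max (r j / 2 - d y (x j)) 0, fun _ _ => rfl⟩
  refine ⟨fun y j => ((max ‖b y‖ c)⁻¹ • b y) j, fun y => ?_, fun y ⟨j, hj⟩ => ?_,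
    fun y j hj => ?_, fun y z => ?_⟩
  · rw [← EuclideanSpace.real_norm_sq_eq]
    exact pow_le_one₀ (norm_nonneg _) (CStep_le hc _)
  · have h3 : c ≤ ‖b y‖ := by
      refine le_trans ?_ ((le_abs_self _).trans (PiLp.norm_apply_le (b y) j))
      rw [hb]
      exact le_max_of_le_left (by linarith [hcr j])
    rw [← EuclideanSpace.real_norm_sq_eq, max_eq_left h3, norm_smul, norm_inv, norm_norm,
      inv_mul_cancel₀ (hc.trans_le h3).ne', one_pow]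
  · by_contra h3
    refine hj ?_
    beta_reduce
    rw [PiLp.smul_apply, hb, max_eq_right (b := 0) (by linarith), smul_zero]
  · have h3 : ‖b y - b z‖ ≤ (Fintype.card J + 1) * d y z := by
      refine le_of_pow_le_pow_left₀ two_ne_zero (mul_nonneg (by positivity) (h0 y z)) ?_
      rw [EuclideanSpace.real_norm_sq_eq]
      refine (Finset.sum_le_card_nsmul _ _ (d y z ^ 2) fun j _ => ?_).trans ?_
      · rw [PiLp.sub_apply, hb, hb]
        exact sq_le_sq.2 ((abs_max_sub_max_le_abs _ _ _).trans ((abs_le.2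
          ⟨by linarith [h2 y z (x j)], by linarith [h2 z y (x j), h1 y z]⟩ : _ ≤ d y z).trans
            (le_abs_self _)))
      · rw [nsmul_eq_mul, mul_pow, Finset.card_univ]
        exact mul_le_mul_of_nonneg_right (by nlinarith [Nat.cast_nonneg (α := ℝ) (Fintype.card J)])
          (sq_nonneg _)
    have h4 := (CStep_lip hc (b y) (b z)).trans (mul_le_mul_of_nonneg_left h3 (by positivity))
    rw [mul_assoc _ _ (d y z)]
    refine le_of_eq_of_le ?_ (pow_le_pow_left₀ (norm_nonneg _) h4 2)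
    rw [EuclideanSpace.real_norm_sq_eq]
    rfl

lemma CStep_mid {X E : Type} [NormedAddCommGroup E] {d : X → X → ℝ} {M : Set X} {C : X → E}
    {γ T : ℝ} (hγ : 0 ≤ γ) (hT : 0 < T)
    (hm : ∀ y ∈ M, ∀ z ∈ M, ∃ m ∈ M, d y m ≤ d y z / 2 ∧ d m z ≤ d y z / 2)
    (h : ∀ y ∈ M, ∀ z ∈ M, d y z ≤ T → ‖C y - C z‖ ≤ γ * d y z) :
    ∀ y ∈ M, ∀ z ∈ M, ‖C y - C z‖ ≤ γ * d y z := by
  have key : ∀ p : ℕ, ∀ y ∈ M, ∀ z ∈ M, d y z ≤ 2 ^ p * T → ‖C y - C z‖ ≤ γ * d y z := by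
    intro p
    induction p with
    | zero => simpa using h
    | succ p ih =>
      intro y hy z hz hd
      obtain ⟨m, hm, h1, h2⟩ := hm y hy z hz
      rw [pow_succ] at hd
      have h3 := ih y hy m hm (by linarith)
      have h4 := ih m hm z hz (by linarith)
      have h5 := norm_sub_le_norm_sub_add_norm_sub (C y) (C m) (C z)
      nlinarith
  intro y hy z hz
  obtain ⟨p, hp⟩ := pow_unbounded_of_one_lt (d y z / T) (one_lt_two (α := ℝ))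
  exact key p y hy z hz ((div_lt_iff₀ hT).1 hp).le

theorem cstep {J : Type} [Fintype J] (r : J → ℝ) (hr : ∀ j, 0 < r j) (k : J → ℕ)
    {β β' γ γ' : ℝ} (hβ' : 0 ≤ β') (hβ : β' < β) (hγ : 0 < γ) (hγ' : γ < γ') :
    ∃ (k' : ℕ) (T : ℝ), 0 < T ∧ ∀ (X : Type) (d : X → X → ℝ) (M : Set X) (x : J → X) (k₀ : ℕ)
      (L : X → Eu k₀) (n : ∀ j, X → Eu (k j)),
      (∀ y z, 0 ≤ d y z) → (∀ y z, d y z = d z y) → (∀ x y z, d x z ≤ d x y + d y z) →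
      (∀ y ∈ M, ∀ z ∈ M, ∃ m ∈ M, d y m ≤ d y z / 2 ∧ d m z ≤ d y z / 2) →
      (∀ y ∈ M, ∀ z ∈ M, ‖L y - L z‖ ≤ γ * d y z) →
      (∀ j, ∀ y ∈ M, ∀ z ∈ M, d y (x j) < r j → d z (x j) < r j →
        (β * d y z) ^ 2 ≤ ‖L y - L z‖ ^ 2 + ‖n j y - n j z‖ ^ 2 ∧
          ‖L y - L z‖ ^ 2 + ‖n j y - n j z‖ ^ 2 ≤ (γ * d y z) ^ 2) →
      ∃ C : X → Eu (k₀ + k'), (∀ y z, ‖L y - L z‖ ≤ ‖C y - C z‖) ∧
        (∀ y ∈ M, ∀ z ∈ M, ‖C y - C z‖ ≤ γ' * d y z) ∧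
        ∀ y ∈ M, ∀ z ∈ M, (∃ j, d y (x j) < r j / 4) → d y z ≤ T →
          β' * d y z ≤ ‖C y - C z‖ := by
  have hβ0 : 0 < β := hβ'.trans_lt hβ
  obtain ⟨K, hK, hχ⟩ := CStep_pou r hr
  obtain ⟨θ, hθ, hθ1, hθ2⟩ : ∃ θ : ℝ, 0 < θ ∧ γ + θ ≤ γ' ∧ θ ≤ (β - β') / 2 :=
    ⟨min (γ' - γ) ((β - β') / 2), lt_min (by linarith) (by linarith),
      by linarith [min_le_left (γ' - γ) ((β - β') / 2)], min_le_right _ _⟩
  obtain ⟨κ, hκ, hκ1, hκ2⟩ : ∃ κ : ℝ, 0 < κ ∧ κ ≤ 1 ∧ β' + θ ≤ (1 - κ) * β :=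
    ⟨θ / β, by positivity, (div_le_one hβ0).2 (by linarith), by
      rw [sub_mul, div_mul_cancel₀ _ hβ0.ne']
      linarith⟩
  choose Ψ δ hδ hΨ1 hΨ2 hΨ3 using fun j => fold (k j) (div_pos hθ hK) hκ
  obtain ⟨T, hT, hT'⟩ := CStep_min (f := fun j => min (r j / 4) (δ j / γ)) fun j =>
    lt_min (by linarith [hr j]) (div_pos (hδ j) hγ)
  obtain ⟨P, hP⟩ := exists_family fun j => k j + k j
  refine ⟨∑ j, (k j + k j), T, hT, fun X d M x k₀ L n h0 h1 h2 hm hL hn => ?_⟩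
  obtain ⟨χ, c1, c2, c3, c4⟩ := hχ X d x h0 h1 h2
  obtain ⟨Q, hQ, hQ'⟩ := exists_pair k₀ (∑ j, (k j + k j))
  have key : ∀ y z, ∃ a : ℝ, 0 ≤ a ∧
      a ^ 2 = ‖L y - L z‖ ^ 2 + ∑ j, χ y j ^ 2 * ‖Ψ j (n j y) - Ψ j (n j z)‖ ^ 2 ∧
      |‖Q (L y) (P fun j => χ y j • Ψ j (n j y)) - Q (L z) (P fun j => χ z j • Ψ j (n j z))‖ - a| ≤
        θ * d y z := by
    intro y z
    refine ⟨‖Q (L y - L z) (P fun j => χ y j • (Ψ j (n j y) - Ψ j (n j z)))‖, norm_nonneg _, ?_,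
      (abs_norm_sub_norm_le _ _).trans ?_⟩
    · simp only [hQ, hP, norm_smul, mul_pow, Real.norm_eq_abs, sq_abs]
    refine le_of_pow_le_pow_left₀ two_ne_zero (mul_nonneg hθ.le (h0 y z)) ?_
    rw [hQ', hQ', hQ, sub_self, norm_zero, ← map_sub, ← map_sub, hP]
    have h3 := mul_le_mul_of_nonneg_right (c4 y z) (sq_nonneg (θ / K))
    rw [← mul_pow, mul_right_comm, mul_div_cancel₀ _ hK.ne', Finset.sum_mul] at h3
    refine le_trans ?_ h3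
    rw [zero_pow two_ne_zero, zero_add]
    refine Finset.sum_le_sum fun j _ => ?_
    have e : χ y j • Ψ j (n j y) - χ z j • Ψ j (n j z) - χ y j • (Ψ j (n j y) - Ψ j (n j z)) =
        (χ y j - χ z j) • Ψ j (n j z) := by module
    simp only [Pi.sub_apply, e, norm_smul, mul_pow, Real.norm_eq_abs, sq_abs]
    exact mul_le_mul_of_nonneg_left (pow_le_pow_left₀ (norm_nonneg _) (hΨ1 j _) 2) (sq_nonneg _)
  have loc : ∀ y ∈ M, ∀ z ∈ M, d y z ≤ T → ∀ j, χ y j ≠ 0 →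
      (1 - κ) ^ 2 * ((β * d y z) ^ 2 - ‖L y - L z‖ ^ 2) ≤ ‖Ψ j (n j y) - Ψ j (n j z)‖ ^ 2 ∧
        ‖Ψ j (n j y) - Ψ j (n j z)‖ ^ 2 ≤ (γ * d y z) ^ 2 - ‖L y - L z‖ ^ 2 := by
    intro y hy z hz hd j hj
    have h3 := c3 y j hj
    have h4 := (hd.trans (hT' j)).trans (min_le_left _ _)
    have h5 := (le_div_iff₀' hγ).1 ((hd.trans (hT' j)).trans (min_le_right _ _))
    obtain ⟨h6, h7⟩ := hn j y hy z hz (by linarith [hr j])
      (by linarith [hr j, h2 z y (x j), h1 y z])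
    have h8 : ‖n j y - n j z‖ ≤ γ * d y z := le_of_pow_le_pow_left₀ two_ne_zero
      (mul_nonneg hγ.le (h0 y z)) (by linarith [sq_nonneg ‖L y - L z‖])
    have h9 := pow_le_pow_left₀ (mul_nonneg (sub_nonneg.2 hκ1) (norm_nonneg _))
      (hΨ3 j _ _ (h8.trans h5)) 2
    rw [mul_pow] at h9
    exact ⟨(mul_le_mul_of_nonneg_left (by linarith) (sq_nonneg _)).trans h9,
      (pow_le_pow_left₀ (norm_nonneg _) (hΨ2 j _ _) 2).trans (by linarith)⟩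
  refine ⟨fun y => Q (L y) (P fun j => χ y j • Ψ j (n j y)), fun y z => ?_,
    CStep_mid (hγ.trans hγ').le hT hm fun y hy z hz hd => ?_, fun y hy z hz hc hd => ?_⟩
  · refine le_of_pow_le_pow_left₀ two_ne_zero (norm_nonneg _) ?_
    rw [hQ', hQ]
    exact le_add_of_nonneg_right (sq_nonneg _)
  · obtain ⟨a, a0, a1, a2⟩ := key y z
    have h3 : ∑ j, χ y j ^ 2 * ‖Ψ j (n j y) - Ψ j (n j z)‖ ^ 2 ≤
        ∑ j, χ y j ^ 2 * ((γ * d y z) ^ 2 - ‖L y - L z‖ ^ 2) := Finset.sum_le_sum fun j _ => by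
      by_cases hj : χ y j = 0
      · simp [hj]
      · exact mul_le_mul_of_nonneg_left (loc y hy z hz hd j hj).2 (sq_nonneg _)
    have h4 := mul_le_of_le_one_left
      (sub_nonneg.2 (pow_le_pow_left₀ (norm_nonneg _) (hL y hy z hz) 2)) (c1 y)
    rw [← Finset.sum_mul] at h3
    have h5 : a ≤ γ * d y z :=
      le_of_pow_le_pow_left₀ two_ne_zero (mul_nonneg hγ.le (h0 y z)) (by linarith)
    linarith [(abs_le.1 a2).2, mul_le_mul_of_nonneg_right hθ1 (h0 y z)]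
  · obtain ⟨a, a0, a1, a2⟩ := key y z
    have h3 : ∑ j, χ y j ^ 2 * ((1 - κ) ^ 2 * ((β * d y z) ^ 2 - ‖L y - L z‖ ^ 2)) ≤
        ∑ j, χ y j ^ 2 * ‖Ψ j (n j y) - Ψ j (n j z)‖ ^ 2 := Finset.sum_le_sum fun j _ => by
      by_cases hj : χ y j = 0
      · simp [hj]
      · exact mul_le_mul_of_nonneg_left (loc y hy z hz hd j hj).1 (sq_nonneg _)
    have h4 := mul_le_of_le_one_left (sq_nonneg ‖L y - L z‖)
      (pow_le_one₀ (sub_nonneg.2 hκ1) (by linarith : 1 - κ ≤ 1) (n := 2))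
    rw [← Finset.sum_mul, c2 y hc, one_mul] at h3
    have h5 : (1 - κ) * (β * d y z) ≤ a :=
      le_of_pow_le_pow_left₀ two_ne_zero a0 (by rw [mul_pow]; linarith)
    linarith [(abs_le.1 a2).1, mul_le_mul_of_nonneg_right hκ2 (h0 y z)]

end Pool.Agent.Work.MP_0ba68b_gt.Apx
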