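import Pool.Agent.Work.MP_0ba68b_gt.Apx.Grp
import Mathlib.Analysis.InnerProductSpace.ProdL2

/-!
Bookkeeping for maps into Euclidean spaces.
-/

namespace Pool.Agent.Work.MP_0ba68b_gt.Apx

noncomputable section

/-- Every finite dimensional inner product space of dimension at most `k` embeds linearly and
isometrically into `Eu k`. -/
lemma exists_iso (E : Type) [NormedAddCommGroup E] [InnerProductSpace ℝ E]
    [FiniteDimensional ℝ E] {k : ℕ} (hk : Module.finrank ℝ E ≤ k) :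
    Nonempty (E →ₗᵢ[ℝ] Eu k) := by
  let b := stdOrthonormalBasis ℝ E
  let e : Fin (Module.finrank ℝ E) → Eu k := fun i =>
    EuclideanSpace.single (Fin.castLE hk i) (1 : ℝ)
  have he : Orthonormal ℝ e :=
    (EuclideanSpace.orthonormal_single (𝕜 := ℝ) (ι := Fin k)).comp _ (Fin.castLE_injective hk)
  refine ⟨(b.toBasis.constr ℝ e).isometryOfOrthonormal (v := b.toBasis) b.orthonormal ?_⟩
  convert he using 1
  funext i
  simp

lemma exists_castLE {k k' : ℕ} (h : k ≤ k') : Nonempty (Eu k →ₗᵢ[ℝ] Eu k') :=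
  exists_iso (Eu k) (by simpa using h)

/-- Two Euclidean spaces side by side. -/
lemma exists_pair (k₁ k₂ : ℕ) : ∃ P : Eu k₁ → Eu k₂ → Eu (k₁ + k₂),
    (∀ a b, ‖P a b‖ ^ 2 = ‖a‖ ^ 2 + ‖b‖ ^ 2) ∧
      ∀ a b a' b', P a b - P a' b' = P (a - a') (b - b') := by
  obtain ⟨e⟩ := exists_iso (WithLp 2 (Eu k₁ × Eu k₂)) (k := k₁ + k₂) (by
    rw [(WithLp.linearEquiv 2 ℝ (Eu k₁ × Eu k₂)).finrank_eq]
    simp)
  refine ⟨fun a b => e (WithLp.toLp 2 (a, b)), fun a b => ?_, fun a b a' b' => ?_⟩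
  · rw [e.norm_map, WithLp.prod_norm_sq_eq_of_L2]
    rfl
  · rw [← map_sub]
    rfl

/-- Finitely many Euclidean spaces side by side. -/
lemma exists_family {J : Type} [Fintype J] (k : J → ℕ) :
    ∃ P : (∀ j, Eu (k j)) →ₗ[ℝ] Eu (∑ j, k j), ∀ a, ‖P a‖ ^ 2 = ∑ j, ‖a j‖ ^ 2 := by
  obtain ⟨e⟩ := exists_iso (PiLp 2 fun j => Eu (k j)) (k := ∑ j, k j) (by
    rw [(WithLp.linearEquiv 2 ℝ (∀ j, Eu (k j))).finrank_eq, Module.finrank_pi_fintype]
    simp)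
  refine ⟨e.toLinearMap ∘ₗ (WithLp.linearEquiv 2 ℝ (∀ j, Eu (k j))).symm.toLinearMap,
    fun a => ?_⟩
  simp only [LinearMap.comp_apply, LinearIsometry.coe_toLinearMap, LinearIsometry.norm_map]
  rw [PiLp.norm_sq_eq_of_L2]
  rfl

/-- Two maps side by side. -/
lemma exists_pair_map {X : Type} {k₁ k₂ : ℕ} (A : X → Eu k₁) (B : X → Eu k₂) :
    ∃ C : X → Eu (k₁ + k₂), ∀ y z, ‖C y - C z‖ ^ 2 = ‖A y - A z‖ ^ 2 + ‖B y - B z‖ ^ 2 := by
  obtain ⟨P, h1, h2⟩ := exists_pair k₁ k₂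
  exact ⟨fun y => P (A y) (B y), fun y z => by rw [h2, h1]⟩

end

end Pool.Agent.Work.MP_0ba68b_gt.Apx
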