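import Pool.Agent.Work.MP_0ba68b_gt.Apx.Moll

/-!
The smooth part at infinity.

Plan. Let K = closedBall 0 Λ and k from `proj` with η/4. For n : ℕ choose (H n, F n) from `Hyp` with
ρ = (n+1) Λ, put f n v = (n+1)⁻¹ • F n ((n+1) • v) (short for the norm, `d_le_norm`), choose P n,
φ n v = P n (f n v) - P n (f n 0), so ‖φ n v‖ ≤ ‖v‖. To avoid choosing dependent types, first prove
∀ n, ∃ φ : V → Eu k, φ 0 = 0 ∧ (∀ y z, ‖φ y - φ z‖ ≤ S.d ((n+1) • y) ((n+1) • z) / (n+1)) ∧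
(∀ y z ∈ W ∩ K, α * S.d ((n+1) • y) ((n+1) • z) / (n+1) - η/4 ≤ ‖φ y - φ z‖), then `choose`.
Let 𝒰 = `hyperfilter ℕ` or `Ultrafilter.of atTop`, and φ v the limit along 𝒰
(`IsCompact.ultrafilter_le_nhds` in closedBall 0 ‖v‖). φ is short; φ (g.1 v) = φ v since
S.d (m • g.1 v) (m • v) = S.d (m • g.1 v) (act g (m • v)) ≤ ‖g.2‖. Lower bound: for w, w' in W ∩ K
and any real D with D ≤ ‖w - g.1 w'‖ for all g in S one has m D ≤ S.d (m • w) (m • w')
(orthogonality of U and W), so α D - η/4 ≤ ‖φ w - φ w'‖. Let π be the orthogonal projection onto W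
(`W.starProjection`), π (g.1 v + u) = g.1 (π v) (g.1 and its inverse preserve W, so also Wᗮ;
U ≤ Wᗮ). Apply `moll` to φ ∘ π with η/8; invariance under the pair (g.1, u). For y = u + w,
z = u' + w': ‖w‖ ≤ S.d y 0, and S.d y z ≤ ‖w - g.1 w'‖ + 2R for every g in S (move u and act g u'
into the ball of radius R by `Setup.coc`); so D = (S.d y z - 2R) / lam works for lam⁻¹ • w,
lam⁻¹ • w', and 2R / lam ≤ η/4 for lam large.
-/

namespace Pool.Agent.Work.MP_0ba68b_gt.Apx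

variable {V : Type} [NormedAddCommGroup V] [InnerProductSpace ℝ V] [FiniteDimensional ℝ V]

omit [FiniteDimensional ℝ V] in
lemma lowFar_norm {S : AGrp V} {U W : Submodule ℝ V} {R : ℝ} (hS : Setup S U W R) {a b : V}
    (ha : a ∈ U) (hb : b ∈ W) : ‖b‖ ≤ ‖a + b‖ := by
  refine (pow_le_pow_iff_left₀ (norm_nonneg _) (norm_nonneg _) two_ne_zero).1 ?_
  rw [norm_add_sq_real, hS.orth a ha b hb]
  nlinarith [sq_nonneg ‖a‖]

omit [FiniteDimensional ℝ V] in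
lemma lowFar_sep {S : AGrp V} {U W : Submodule ℝ V} {R : ℝ} (hS : Setup S U W R)
    {g : (V →L[ℝ] V) × V} (hg : g ∈ S.car) {u w w' : V} (hu : u ∈ U) (hw : w ∈ W) (hw' : w' ∈ W) :
    ‖w - g.1 w'‖ ≤ ‖u + w - act g w'‖ := by
  have e : u + w - act g w' = (u - g.2) + (w - g.1 w') := by
    simp only [act]
    abel
  rw [e]
  exact lowFar_norm hS (U.sub_mem hu (hS.tr g hg)) (W.sub_mem hw (hS.linW g hg w' hw'))

omit [FiniteDimensional ℝ V] in
lemma lowFar_d {S : AGrp V} {U W : Submodule ℝ V} {R : ℝ} (hS : Setup S U W R)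
    {g : (V →L[ℝ] V) × V} (hg : g ∈ S.car) {u u' w w' : V} (hu : u ∈ U) (hu' : u' ∈ U)
    (hw : w ∈ W) (hw' : w' ∈ W) : S.d (u + w) (u' + w') ≤ ‖w - g.1 w'‖ + 2 * R := by
  obtain ⟨g1, h1, a1, b1⟩ := hS.coc u hu
  obtain ⟨g2, h2, a2, b2⟩ := hS.coc (act g u') (U.add_mem (hS.linU g hg u' hu') (hS.tr g hg))
  rw [← S.d_act_right hg, ← S.d_act_right h2, ← S.d_act_left h1]
  refine (S.d_le_norm _ _).trans ?_
  have e : act g1 (u + w) - act g2 (act g (u' + w')) =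
      (w - g.1 w') + (act g1 u - act g2 (act g u')) := by
    simp only [act, map_add, a1 w hw, a2 _ (hS.linW g hg w' hw')]
    abel
  rw [e]
  have := norm_add_le (w - g.1 w') (act g1 u - act g2 (act g u'))
  have := norm_sub_le (act g1 u) (act g2 (act g u'))
  linarith

lemma lowFar_proj {S : AGrp V} {U W : Submodule ℝ V} {R : ℝ} (hS : Setup S U W R)
    {g : (V →L[ℝ] V) × V} (hg : g ∈ S.car) {u : V} (hu : u ∈ U) (v : V) :
    W.starProjection (g.1 v + u) = g.1 (W.starProjection v) := by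
  refine Submodule.eq_starProjection_of_mem_of_inner_eq_zero
    (hS.linW g hg _ (W.starProjection_apply_mem v)) fun w hw => ?_
  obtain ⟨h, hh, -, e, -, -⟩ := S.exists_inv hg
  have e1 : g.1 v + u - g.1 (W.starProjection v) = g.1 (v - W.starProjection v) + u := by
    rw [map_sub]
    abel
  rw [e1, inner_add_left, hS.orth u hu w hw, add_zero, ← e w, S.inner_iso hg]
  exact W.starProjection_inner_eq_zero v _ (hS.linW h hh w hw)

lemma lowFar_step {S : AGrp V} {M : Submodule ℝ V} {α : ℝ} (hH : Hyp S M α) (Λ : ℝ) {η : ℝ}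
    (hη : 0 < η) : ∃ k : ℕ, ∀ m : ℝ, 0 < m → ∃ φ : V → Eu k, φ 0 = 0 ∧
      (∀ y z, ‖φ y - φ z‖ ≤ S.d (m • y) (m • z) / m) ∧
      ∀ y ∈ M, ∀ z ∈ M, ‖y‖ ≤ Λ → ‖z‖ ≤ Λ →
        α * (S.d (m • y) (m • z) / m) - η ≤ ‖φ y - φ z‖ := by
  obtain ⟨k, hk⟩ := proj (isCompact_closedBall (0 : V) Λ) hη
  refine ⟨k, fun m hm => ?_⟩
  obtain ⟨H, i1, i2, F, h1, h2⟩ := hH (m * Λ)
  have hn : ∀ y z, ‖m⁻¹ • F (m • y) - m⁻¹ • F (m • z)‖ = ‖F (m • y) - F (m • z)‖ / m := by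
    intro y z
    rw [← smul_sub, norm_smul, norm_inv, Real.norm_of_nonneg hm.le, div_eq_inv_mul]
  have hs : ∀ y z, ‖m⁻¹ • F (m • y) - m⁻¹ • F (m • z)‖ ≤ S.d (m • y) (m • z) / m := fun y z => by
    rw [hn]
    exact div_le_div_of_nonneg_right (h1 _ _) hm.le
  obtain ⟨P, p1, p2⟩ := hk H (fun v => m⁻¹ • F (m • v)) fun y z => (hs y z).trans (by
    rw [div_le_iff₀ hm]
    refine (S.d_le_norm _ _).trans (le_of_eq ?_)
    rw [← smul_sub, norm_smul, Real.norm_of_nonneg hm.le, mul_comm])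
  refine ⟨fun v => P (m⁻¹ • F (m • v)) - P (m⁻¹ • F (m • 0)), sub_self _, fun y z => ?_,
    fun y hy z hz ny nz => ?_⟩
  · rw [sub_sub_sub_cancel_right]
    exact (p1 _ _).trans (hs y z)
  · rw [sub_sub_sub_cancel_right]
    refine le_trans (sub_le_sub_right ?_ _)
      (p2 y (mem_closedBall_zero_iff.2 ny) z (mem_closedBall_zero_iff.2 nz))
    have hb : ∀ v : V, ‖v‖ ≤ Λ → ‖m • v‖ ≤ m * Λ := fun v hv => by
      rw [norm_smul, Real.norm_of_nonneg hm.le]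
      exact mul_le_mul_of_nonneg_left hv hm.le
    rw [hn, ← mul_div_assoc]
    exact div_le_div_of_nonneg_right
      (h2 _ (M.smul_mem _ hy) _ (M.smul_mem _ hz) (hb y ny) (hb z nz)) hm.le

open Filter Topology in
lemma lowFar_lim {S : AGrp V} {U W : Submodule ℝ V} {R α : ℝ} (hS : Setup S U W R)
    (hα : 0 ≤ α) (hH : Hyp S (U ⊔ W) α) (Λ : ℝ) {η : ℝ} (hη : 0 < η) :
    ∃ (k : ℕ) (φ : V → Eu k), (∀ y z, ‖φ y - φ z‖ ≤ ‖y - z‖) ∧
      (∀ g ∈ S.car, ∀ v, φ (g.1 v) = φ v) ∧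
      ∀ w ∈ W, ∀ w' ∈ W, ‖w‖ ≤ Λ → ‖w'‖ ≤ Λ → ∀ D : ℝ, (∀ g ∈ S.car, D ≤ ‖w - g.1 w'‖) →
        α * D - η ≤ ‖φ w - φ w'‖ := by
  obtain ⟨k, hk⟩ := lowFar_step hH Λ hη
  have hp : ∀ n : ℕ, (0 : ℝ) < n + 1 := fun n => by positivity
  choose φ h0 h1 h2 using fun n : ℕ => hk (n + 1) (hp n)
  have hs : ∀ n y z, ‖φ n y - φ n z‖ ≤ ‖y - z‖ := fun n y z => (h1 n y z).trans (by
    rw [div_le_iff₀ (hp n)]
    refine (S.d_le_norm _ _).trans (le_of_eq ?_)
    rw [← smul_sub, norm_smul, Real.norm_of_nonneg (hp n).le, mul_comm])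
  have hl : ∀ v, ∃ a, Tendsto (fun n => φ n v) (hyperfilter ℕ) (𝓝 a) := fun v => by
    obtain ⟨a, -, ha⟩ := (isCompact_closedBall (0 : Eu k) ‖v‖).ultrafilter_le_nhds
      ((hyperfilter ℕ).map fun n => φ n v) (by
        rw [le_principal_iff, Ultrafilter.coe_map, mem_map]
        refine univ_mem' fun n => mem_closedBall_zero_iff.2 ?_
        simpa only [h0, sub_zero] using hs n v 0)
    exact ⟨a, ha⟩
  choose ψ hψ using hl
  have ht : ∀ y z, Tendsto (fun n => ‖φ n y - φ n z‖) (hyperfilter ℕ) (𝓝 ‖ψ y - ψ z‖) :=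
    fun y z => ((hψ y).sub (hψ z)).norm
  refine ⟨k, ψ, fun y z => le_of_tendsto' (ht y z) fun n => hs n y z, fun g hg v => ?_,
    fun w hw w' hw' n1 n2 D hD => ge_of_tendsto' (ht w w') fun n => ?_⟩
  · have hz : Tendsto (fun n : ℕ => ‖g.2‖ * (1 / ((n : ℝ) + 1))) (hyperfilter ℕ) (𝓝 (‖g.2‖ * 0)) :=
      (tendsto_one_div_add_atTop_nhds_zero_nat.const_mul _).mono_left Nat.hyperfilter_le_atTop
    rw [mul_zero] at hz
    refine sub_eq_zero.1 (norm_le_zero_iff.1 (le_of_tendsto_of_tendsto' (ht _ _) hz fun n => ?_))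
    refine (h1 n _ _).trans ?_
    rw [mul_one_div]
    refine div_le_div_of_nonneg_right ((S.d_le hg _ _).trans (le_of_eq ?_)) (hp n).le
    simp only [act, map_smul, sub_add_cancel_left, norm_neg]
  · refine le_trans (sub_le_sub_right (mul_le_mul_of_nonneg_left ?_ hα) _)
      (h2 n w (Submodule.mem_sup_right hw) w' (Submodule.mem_sup_right hw') n1 n2)
    rw [le_div_iff₀ (hp n)]
    refine S.le_d fun g hg => ?_
    have h3 := lowFar_sep hS hg U.zero_mem (W.smul_mem ((n : ℝ) + 1) hw)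
      (W.smul_mem ((n : ℝ) + 1) hw')
    rw [zero_add, map_smul, ← smul_sub, norm_smul, Real.norm_of_nonneg (hp n).le] at h3
    refine le_trans ?_ h3
    rw [mul_comm]
    exact mul_le_mul_of_nonneg_left (hD g hg) (hp n).le

theorem lowFar {S : AGrp V} {U W : Submodule ℝ V} {R α : ℝ} (hS : Setup S U W R)
    (hα : 0 ≤ α) (hα1 : α ≤ 1) (hH : Hyp S (U ⊔ W) α) {Λ η : ℝ} (hΛ : 0 < Λ) (hη : 0 < η) :
    ∃ (k : ℕ) (L : V → Eu k) (lam₁ : ℝ), 0 < lam₁ ∧ ContDiff ℝ 1 L ∧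
      (∀ y z, ‖L y - L z‖ ≤ ‖y - z‖) ∧
      (∀ g ∈ S.car, ∀ u ∈ U, ∀ v, L (g.1 v + u) = L v) ∧
      ∀ lam : ℝ, lam₁ ≤ lam → ∀ y ∈ U ⊔ W, ∀ z ∈ U ⊔ W,
        S.d y 0 ≤ lam * Λ → S.d z 0 ≤ lam * Λ →
        α * (S.d y z / lam) - η ≤ ‖L (lam⁻¹ • y) - L (lam⁻¹ • z)‖ := by
  have h4 : 0 < η / 4 := by positivity
  obtain ⟨k, φ, p1, p2, p3⟩ := lowFar_lim hS hα hH Λ h4
  obtain ⟨L, l1, l2, l3, l4⟩ := moll (fun v => φ (W.starProjection v)) (fun y z =>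
    (p1 _ _).trans (by
      rw [← map_sub]
      exact W.norm_starProjection_apply_le _)) h4
  refine ⟨k, L, 8 * |R| / η + 1, by positivity, l1, l2, fun g hg u hu v =>
    l4 (g.1, u) (S.iso g hg) (fun v => ?_) v, fun lam hl y hy z hz dy dz => ?_⟩
  · show φ (W.starProjection (g.1 v + u)) = φ (W.starProjection v)
    rw [lowFar_proj hS hg hu, p2 g hg]
  · have hl0 : 0 < lam := lt_of_lt_of_le (by positivity) hl
    obtain ⟨u, hu, w, hw, rfl⟩ := Submodule.mem_sup.1 hy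
    obtain ⟨u', hu', w', hw', rfl⟩ := Submodule.mem_sup.1 hz
    have hπ : ∀ a ∈ U, ∀ b ∈ W, W.starProjection (lam⁻¹ • (a + b)) = lam⁻¹ • b := by
      intro a ha b hb
      have h := lowFar_proj hS S.one_mem ha b
      simp only [one_apply_eq_self] at h
      rw [map_smul, add_comm, h, Submodule.starProjection_eq_self_iff.2 hb]
    have hn : ∀ a ∈ U, ∀ b ∈ W, S.d (a + b) 0 ≤ lam * Λ → ‖lam⁻¹ • b‖ ≤ Λ := by
      intro a ha b hb h
      have h1 : ‖b‖ ≤ S.d (a + b) 0 := S.le_d fun g hg => by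
        simpa only [map_zero, sub_zero] using lowFar_sep hS hg ha hb W.zero_mem
      rw [norm_smul, norm_inv, Real.norm_of_nonneg hl0.le, inv_mul_le_iff₀ hl0]
      exact h1.trans h
    have h5 := p3 _ (W.smul_mem lam⁻¹ hw) _ (W.smul_mem lam⁻¹ hw') (hn u hu w hw dy)
      (hn u' hu' w' hw' dz) (S.d (u + w) (u' + w') / lam - 2 * R / lam) fun g hg => by
        rw [map_smul, ← smul_sub, norm_smul, norm_inv, Real.norm_of_nonneg hl0.le, ← sub_div,
          div_eq_inv_mul]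
        exact mul_le_mul_of_nonneg_left (by linarith [lowFar_d hS hg hu hu' hw hw'])
          (inv_nonneg.2 hl0.le)
    have h6 : 2 * R / lam ≤ η / 4 := by
      rw [div_le_iff₀ hl0]
      have h7 : 8 * |R| ≤ lam * η := (div_le_iff₀ hη).1 (by linarith)
      nlinarith [le_abs_self R]
    have h8 : α * (2 * R / lam) ≤ η / 4 :=
      (mul_le_mul_of_nonneg_left h6 hα).trans (mul_le_of_le_one_left h4.le hα1)
    have a1 := l3 (lam⁻¹ • (u + w))
    have a2 := l3 (lam⁻¹ • (u' + w'))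
    simp only [hπ u hu w hw, hπ u' hu' w' hw'] at a1 a2
    have a3 := norm_sub_le_norm_sub_add_norm_sub (φ (lam⁻¹ • w)) (L (lam⁻¹ • (u + w)))
      (φ (lam⁻¹ • w'))
    have a4 := norm_sub_le_norm_sub_add_norm_sub (L (lam⁻¹ • (u + w))) (L (lam⁻¹ • (u' + w')))
      (φ (lam⁻¹ • w'))
    rw [norm_sub_rev] at a1
    rw [mul_sub] at h5
    linarith

end Pool.Agent.Work.MP_0ba68b_gt.Apx
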