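import Pool.Agent.Work.MP_0ba68b_gt.Apx.SliceN

/-!
Slices far away in the direction `w`.

Plan. Write a g = g.1 w - w (in W). First: every g in S can be replaced by g' = e * g, e in S with
linear part the identity on W (`Setup.coc` applied to u = g.2, or to act g u), so that
‖g'.2‖ ≤ R and g'.1 = g.1 on W. Let C come from `linBound S w 0 (4 * R)` (R ≥ 0 from `coc` at 0).
Put N = {v ∈ W | ∃ K, ∀ g ∈ S, |⟪v, a g⟫| ≤ K * ‖a g‖^2}, a submodule; w ∈ N since
⟪w, a g⟫ = -‖a g‖^2 / 2.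
(2) as in `slice_near`: ⟪h.1 v, a g⟫ = ⟪v, a (k * g)⟫ with k the inverse of h (k.1 w = w).
(3) y = u₀ + w₀. By compactness (`isCompact_bdd`, and the replacement above) choose g maximizing
⟪g.1 w₀, w⟫ over S, w₁ = g.1 w₀. For e in S: the inverse of e gives ⟪w₁, a e⟫ ≤ 0; with h in the
fixer close to (the bounded replacement of) e and k its inverse, f = e * k has f.1 w = e.1 w,
‖f.1 - 1‖ ≤ C ‖a e‖ and ⟪f.1 w₁, a e⟫ ≥ 0, so ⟪w₁, a e⟫ ≥ -C ‖w₁‖ ‖a e‖^2. So w₁ ∈ N and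
s = w₁ - lam • w ∈ N, u = act g u₀. For every e in S, by orthogonality of U and W,
‖act e y - lam • w‖ ≥ ‖e.1 w₀ - lam • w‖ ≥ ‖s‖ (compare squares, lam > 0).
(4) Both distances do not change when u, u' are moved by elements acting trivially on W (these lie
in the fixer), so assume ‖u‖, ‖u'‖ ≤ R. Take g attaining S.d; composing with an element trivial on
W we may assume ‖act g u'‖ ≤ R or else ‖u - act g u'‖ ≤ 2R by minimality, so ‖g.2‖ ≤ 4R. The
W component gives lam ‖a g‖ ≤ 4 r lam + 2R, so ‖a g‖ ≤ 5r for lam large. With h close to g: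
act g (lam • w + u' + s') = lam • w + act h (u' + s') + lam • a g + e with
‖e‖ ≤ C ‖a g‖ (r lam + R + 1). Apply `slice_ineq` to v = u + s - act h (u' + s') in U ⊔ N
(its U part is orthogonal to a g; a uniform K on N comes from an orthonormal basis of N).
-/

namespace Pool.Agent.Work.MP_0ba68b_gt.Apx

variable {V : Type} [NormedAddCommGroup V] [InnerProductSpace ℝ V] [FiniteDimensional ℝ V]

omit [FiniteDimensional ℝ V] in
lemma sliceF_pyth {u w : V} (h : inner ℝ u w = 0) : ‖u + w‖ ^ 2 = ‖u‖ ^ 2 + ‖w‖ ^ 2 := by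
  rw [norm_add_sq_real, h]
  ring

omit [FiniteDimensional ℝ V] in
lemma sliceF_right_le {u w : V} (h : inner ℝ u w = 0) : ‖w‖ ≤ ‖u + w‖ := by
  have h1 := sliceF_pyth h
  have h2 : ‖w‖ ^ 2 ≤ ‖u + w‖ ^ 2 := by rw [h1]; nlinarith [sq_nonneg ‖u‖]
  exact (pow_le_pow_iff_left₀ (norm_nonneg _) (norm_nonneg _) two_ne_zero).mp h2

/-- A uniform constant on a finite dimensional subspace. -/
lemma sliceF_unif {ι : Type} (T : Set ι) (a : ι → V) (N : Submodule ℝ V)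
    (h : ∀ v ∈ N, ∃ K : ℝ, ∀ g ∈ T, |inner ℝ v (a g)| ≤ K * ‖a g‖ ^ 2) :
    ∃ K : ℝ, 0 ≤ K ∧ ∀ v ∈ N, ∀ g ∈ T, |inner ℝ v (a g)| ≤ K * ‖v‖ * ‖a g‖ ^ 2 := by
  classical
  let b := stdOrthonormalBasis ℝ N
  choose K hK using fun i => h (b i : V) (b i).2
  refine ⟨∑ i, |K i|, Finset.sum_nonneg fun i _ => abs_nonneg _, fun v hv g hg => ?_⟩
  have e : v = ∑ i, inner ℝ (b i) (⟨v, hv⟩ : N) • (b i : V) := by
    have := congrArg (fun x : N => (x : V)) (b.sum_repr' (⟨v, hv⟩ : N))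
    simp only [Submodule.coe_sum, Submodule.coe_smul] at this
    exact this.symm
  have e2 : inner ℝ v (a g) =
      ∑ i, inner ℝ (b i) (⟨v, hv⟩ : N) * inner ℝ (b i : V) (a g) := by
    conv_lhs => rw [e]
    rw [sum_inner]
    exact Finset.sum_congr rfl fun i _ => by rw [real_inner_smul_left]
  rw [e2, Finset.sum_mul, Finset.sum_mul]
  refine (Finset.abs_sum_le_sum_abs _ _).trans (Finset.sum_le_sum fun i _ => ?_)
  rw [abs_mul]
  have h1 : |inner ℝ (b i) (⟨v, hv⟩ : N)| ≤ ‖v‖ := by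
    have := abs_real_inner_le_norm (b i) (⟨v, hv⟩ : N)
    rwa [b.orthonormal.1 i, one_mul] at this
  have h2 : |inner ℝ (b i : V) (a g)| ≤ |K i| * ‖a g‖ ^ 2 :=
    (hK i g hg).trans (mul_le_mul_of_nonneg_right (le_abs_self _) (sq_nonneg _))
  calc _ ≤ ‖v‖ * (|K i| * ‖a g‖ ^ 2) := mul_le_mul h1 h2 (abs_nonneg _) (norm_nonneg _)
    _ = _ := by ring

/-- The normal space in the direction `w`. -/
def sliceF_N (S : AGrp V) (W : Submodule ℝ V) (w : V) : Submodule ℝ V where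
  carrier := {v | v ∈ W ∧ ∃ K : ℝ, ∀ g ∈ S.car,
    |inner ℝ v (g.1 w - w)| ≤ K * ‖g.1 w - w‖ ^ 2}
  add_mem' := by
    rintro x y ⟨hx, K, hK⟩ ⟨hy, L, hL⟩
    refine ⟨W.add_mem hx hy, K + L, fun g hg => ?_⟩
    rw [inner_add_left, add_mul]
    exact (abs_add_le _ _).trans (add_le_add (hK g hg) (hL g hg))
  zero_mem' := ⟨W.zero_mem, 0, fun g _ => by simp⟩
  smul_mem' := by
    rintro c x ⟨hx, K, hK⟩
    refine ⟨W.smul_mem c hx, |c| * K, fun g hg => ?_⟩
    rw [real_inner_smul_left, abs_mul, mul_assoc]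
    exact mul_le_mul_of_nonneg_left (hK g hg) (abs_nonneg _)

omit [FiniteDimensional ℝ V] in
lemma sliceF_mem_N {S : AGrp V} {W : Submodule ℝ V} {w v : V} :
    v ∈ sliceF_N S W w ↔ v ∈ W ∧ ∃ K : ℝ, ∀ g ∈ S.car,
      |inner ℝ v (g.1 w - w)| ≤ K * ‖g.1 w - w‖ ^ 2 := Iff.rfl

omit [FiniteDimensional ℝ V] in
lemma sliceF_w_mem {S : AGrp V} {W : Submodule ℝ V} {w : V} (hw : w ∈ W) :
    w ∈ sliceF_N S W w := by
  refine ⟨hw, 1 / 2, fun g hg => ?_⟩
  have h1 : ‖g.1 w - w‖ ^ 2 = 2 * ‖w‖ ^ 2 - 2 * inner ℝ (g.1 w) w := by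
    rw [norm_sub_sq_real, S.iso g hg]
    ring
  have h2 : inner ℝ w (g.1 w - w) = -(1 / 2 * ‖g.1 w - w‖ ^ 2) := by
    rw [inner_sub_right, real_inner_self_eq_norm_sq, h1, real_inner_comm]
    ring
  rw [h2, abs_neg, abs_of_nonneg (by positivity)]

omit [FiniteDimensional ℝ V] in
lemma sliceF_fix {S : AGrp V} {w : V} {g : (V →L[ℝ] V) × V} :
    g ∈ (S.fixer w 0).car ↔ g ∈ S.car ∧ g.1 w = w := by
  rw [AGrp.mem_fixer, zero_smul, add_zero]

omit [FiniteDimensional ℝ V] in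
lemma sliceF_inv_N {S : AGrp V} {U W : Submodule ℝ V} {R : ℝ} (hS : Setup S U W R) {w : V}
    {h : (V →L[ℝ] V) × V} (hh : h ∈ (S.fixer w 0).car) {v : V} (hv : v ∈ sliceF_N S W w) :
    h.1 v ∈ sliceF_N S W w := by
  obtain ⟨hh, hw⟩ := sliceF_fix.mp hh
  obtain ⟨hv, K, hK⟩ := hv
  obtain ⟨k, hk, e1, -, -, -⟩ := S.exists_inv hh
  have kw : k.1 w = w := by
    have := e1 w
    rwa [hw] at this
  refine ⟨hS.linW h hh v hv, K, fun g hg => ?_⟩
  have h1 := hK _ (S.mul_mem k hk g hg)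
  have e2 : (k.1 * g.1) w - w = k.1 (g.1 w - w) := by
    rw [map_sub, kw]
    rfl
  simp only [e2] at h1
  rw [S.iso k hk] at h1
  rw [← S.inner_iso hk, e1]
  exact h1

omit [FiniteDimensional ℝ V] in
/-- Bounded replacement. -/
lemma sliceF_repl {S : AGrp V} {U W : Submodule ℝ V} {R : ℝ} (hS : Setup S U W R)
    {g : (V →L[ℝ] V) × V} (hg : g ∈ S.car) :
    ∃ g' ∈ S.car, ‖g'.2‖ ≤ R ∧ ∀ x ∈ W, g'.1 x = g.1 x := by
  obtain ⟨e, he, h1, h2⟩ := hS.coc g.2 (hS.tr g hg)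
  exact ⟨_, S.mul_mem e he g hg, h2, fun x hx => h1 _ (hS.linW g hg x hx)⟩

omit [FiniteDimensional ℝ V] in
lemma sliceF_actU {S : AGrp V} {U W : Submodule ℝ V} {R : ℝ} (hS : Setup S U W R)
    {g : (V →L[ℝ] V) × V} (hg : g ∈ S.car) {u : V} (hu : u ∈ U) : act g u ∈ U :=
  U.add_mem (hS.linU g hg u hu) (hS.tr g hg)

lemma sliceF_max {S : AGrp V} {U W : Submodule ℝ V} {R : ℝ} (hS : Setup S U W R) (w : V)
    {x : V} (hx : x ∈ W) :
    ∃ g ∈ S.car, ∀ f ∈ S.car, inner ℝ (f.1 x) w ≤ inner ℝ (g.1 x) w := by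
  have hc := S.isCompact_bdd R
  have hne : (S.car ∩ {g | ‖g.2‖ ≤ R}).Nonempty := by
    obtain ⟨g, hg, h1, -⟩ := sliceF_repl hS S.one_mem
    exact ⟨g, hg, h1⟩
  have hcont : Continuous fun g : (V →L[ℝ] V) × V => inner ℝ (g.1 x) w := by fun_prop
  obtain ⟨g, ⟨hg, -⟩, hmax⟩ := hc.exists_isMaxOn hne hcont.continuousOn
  refine ⟨g, hg, fun f hf => ?_⟩
  obtain ⟨f', hf', h1, h2⟩ := sliceF_repl hS hf
  rw [← h2 x hx]
  exact hmax ⟨hf', h1⟩

omit [FiniteDimensional ℝ V] in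
/-- A point of `W` which is closest to `w` in its orbit is normal. -/
lemma sliceF_mem_of_max {S : AGrp V} {U W : Submodule ℝ V} {R C : ℝ} (hS : Setup S U W R)
    {w : V} (hw : w ∈ W)
    (hC : ∀ g ∈ S.car, ‖g.2‖ ≤ R → ∃ h ∈ (S.fixer w 0).car, ‖g.1 - h.1‖ ≤ C * ‖g.1 w - w‖)
    {x : V} (hx : x ∈ W) (hmax : ∀ f ∈ S.car, inner ℝ (f.1 x) w ≤ inner ℝ x w) :
    x ∈ sliceF_N S W w := by
  refine ⟨hx, C * ‖x‖, fun e he => ?_⟩
  have up : inner ℝ x (e.1 w - w) ≤ 0 := by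
    obtain ⟨k, hk, -, e2, -, -⟩ := S.exists_inv he
    have h1 := hmax k hk
    rw [← S.inner_iso he, e2] at h1
    rw [inner_sub_right]
    linarith
  obtain ⟨e', he', hb, hW⟩ := sliceF_repl hS he
  obtain ⟨h, hh, hd⟩ := hC e' he' hb
  rw [hW w hw] at hd
  obtain ⟨hh, hhw⟩ := sliceF_fix.mp hh
  obtain ⟨k, hk, e1, e2, -, -⟩ := S.exists_inv hh
  have kw : k.1 w = w := by
    have := e1 w
    rwa [hhw] at this
  have hf := S.mul_mem e' he' k hk
  have h1 := hmax _ hf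
  have h2 := S.inner_iso hf x w
  simp only [mul_apply_eq_comp, kw, hW w hw] at h1 h2
  have h3 : ‖e'.1 (k.1 x) - x‖ ≤ C * ‖e.1 w - w‖ * ‖x‖ := by
    have e3 : e'.1 (k.1 x) - x = (e'.1 - h.1) (k.1 x) := by
      rw [sub_apply, e2]
    rw [e3]
    refine (ContinuousLinearMap.le_opNorm _ _).trans ?_
    rw [S.iso k hk]
    exact mul_le_mul_of_nonneg_right hd (norm_nonneg _)
  have h4 : inner ℝ (e'.1 (k.1 x) - x) (e.1 w - w) ≤ C * ‖e.1 w - w‖ * ‖x‖ * ‖e.1 w - w‖ :=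
    (real_inner_le_norm _ _).trans (mul_le_mul_of_nonneg_right h3 (norm_nonneg _))
  rw [inner_sub_left, inner_sub_right (e'.1 (k.1 x))] at h4
  rw [abs_of_nonpos up]
  nlinarith

omit [FiniteDimensional ℝ V] in
/-- The estimate when the components in `U` are bounded. -/
lemma sliceF_est {S : AGrp V} {U W : Submodule ℝ V} {R C K κ r lam : ℝ} (hS : Setup S U W R)
    {w : V} (hw : w ∈ W) (hR : 0 ≤ R) (hC0 : 0 ≤ C) (hK0 : 0 ≤ K)
    (hC : ∀ g ∈ S.car, ‖g.2‖ ≤ 4 * R → ∃ h ∈ (S.fixer w 0).car,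
      ‖g.1 - h.1‖ ≤ C * ‖g.1 w - w‖ ∧ ‖g.2 - h.2‖ ≤ C * ‖g.1 w - w‖)
    (hK : ∀ v ∈ sliceF_N S W w, ∀ g ∈ S.car,
      |inner ℝ v (g.1 w - w)| ≤ K * ‖v‖ * ‖g.1 w - w‖ ^ 2)
    (hκ : 0 ≤ κ) (hκ1 : κ ≤ 1 / 2) (hKr : 5 * K * r ≤ κ) (hCr : 2 * C * r ≤ κ)
    (hlam : 0 < lam) (hl : 2 * (R + 1) ≤ r * lam)
    {u u' s s' : V} (hu : u ∈ U) (hu' : u' ∈ U) (hs : s ∈ sliceF_N S W w)
    (hs' : s' ∈ sliceF_N S W w) (bu : ‖u‖ ≤ R) (bu' : ‖u'‖ ≤ R) (bs : ‖s‖ < r * lam)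
    (bs' : ‖s'‖ < r * lam) {g : (V →L[ℝ] V) × V} (hg : g ∈ S.car)
    (hd : S.d (lam • w + (u + s)) (lam • w + (u' + s')) =
      ‖lam • w + (u + s) - act g (lam • w + (u' + s'))‖) :
    (1 - 2 * κ) * (S.fixer w 0).d (u + s) (u' + s') ≤
      S.d (lam • w + (u + s)) (lam • w + (u' + s')) := by
  have haW : g.1 w - w ∈ W := W.sub_mem (hS.linW g hg w hw) hw
  have hpW : s - g.1 s' - lam • (g.1 w - w) ∈ W :=
    W.sub_mem (W.sub_mem hs.1 (hS.linW g hg s' hs'.1)) (W.smul_mem _ haW)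
  have dec : lam • w + (u + s) - act g (lam • w + (u' + s')) =
      (u - act g u') + (s - g.1 s' - lam • (g.1 w - w)) := by
    simp only [act, map_add, map_smul]
    module
  have o1 := hS.orth _ (U.sub_mem hu (sliceF_actU hS hg hu')) _ hpW
  -- the translation part is bounded
  have b1 : ‖u - act g u'‖ ≤ 2 * R := by
    obtain ⟨e, he, h1, h2⟩ := hS.coc _ (sliceF_actU hS hg hu')
    have h3 := S.d_le (S.mul_mem e he g hg) (lam • w + (u + s)) (lam • w + (u' + s'))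
    have dec2 : lam • w + (u + s) - act (e.1 * g.1, e.1 g.2 + e.2) (lam • w + (u' + s')) =
        (u - act e (act g u')) + (s - g.1 s' - lam • (g.1 w - w)) := by
      rw [act_mul]
      simp only [act, map_add, map_smul, h1 _ (hS.linW g hg w hw),
        h1 _ (hS.linW g hg s' hs'.1)]
      module
    have o2 := hS.orth _ (U.sub_mem hu (sliceF_actU hS he (sliceF_actU hS hg hu'))) _ hpW
    rw [hd, dec, dec2] at h3
    have h4 := pow_le_pow_left₀ (norm_nonneg _) h3 2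
    rw [sliceF_pyth o1, sliceF_pyth o2] at h4
    have h5 : ‖u - act g u'‖ ≤ ‖u - act e (act g u')‖ :=
      (pow_le_pow_iff_left₀ (norm_nonneg _) (norm_nonneg _) two_ne_zero).mp (by linarith)
    have h6 := norm_sub_le u (act e (act g u'))
    linarith
  have b2 : ‖g.2‖ ≤ 4 * R := by
    have e : g.2 = u - (u - act g u') - g.1 u' := by simp [act]
    have h1 := norm_sub_le (u - (u - act g u')) (g.1 u')
    have h2 := norm_sub_le u (u - act g u')
    rw [← e, S.iso g hg] at h1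
    linarith
  -- the displacement of `w` is small
  have b3 : ‖g.1 w - w‖ ≤ 5 * r := by
    have h1 := S.d_le_norm (lam • w + (u + s)) (lam • w + (u' + s'))
    rw [hd, dec, add_sub_add_left_eq_sub] at h1
    have h2 := sliceF_right_le o1
    have h3 : ‖u + s - (u' + s')‖ ≤ ‖u‖ + ‖s‖ + (‖u'‖ + ‖s'‖) :=
      (norm_sub_le _ _).trans (add_le_add (norm_add_le _ _) (norm_add_le _ _))
    have h4 : ‖lam • (g.1 w - w)‖ ≤ ‖s‖ + ‖s'‖ + ‖s - g.1 s' - lam • (g.1 w - w)‖ := by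
      have h5 := norm_sub_le (s - g.1 s') (s - g.1 s' - lam • (g.1 w - w))
      rw [sub_sub_cancel] at h5
      have h6 := norm_sub_le s (g.1 s')
      rw [S.iso g hg] at h6
      linarith
    rw [norm_smul, Real.norm_eq_abs, abs_of_pos hlam] at h4
    have h7 : lam * ‖g.1 w - w‖ ≤ lam * (5 * r) := by nlinarith
    exact le_of_mul_le_mul_left h7 hlam
  obtain ⟨h, hh, c1, c2⟩ := hC g hg b2
  have hhS := (sliceF_fix.mp hh).1
  have hvN : s - h.1 s' ∈ sliceF_N S W w :=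
    (sliceF_N S W w).sub_mem hs (sliceF_inv_N hS hh hs')
  have hvU : u - act h u' ∈ U := U.sub_mem hu (sliceF_actU hS hhS hu')
  have ev : u + s - act h (u' + s') = (u - act h u') + (s - h.1 s') := by
    simp only [act, map_add]
    abel
  have na : ‖lam • (g.1 w - w)‖ = lam * ‖g.1 w - w‖ := by
    rw [norm_smul, Real.norm_eq_abs, abs_of_pos hlam]
  have key := slice_ineq (v := u + s - act h (u' + s')) (a := lam • (g.1 w - w))
    (e := (g.1 - h.1) (u' + s') + (g.2 - h.2)) hκ hκ1 ?_ ?_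
  · have e : u + s - act h (u' + s') - lam • (g.1 w - w) -
        ((g.1 - h.1) (u' + s') + (g.2 - h.2)) =
        lam • w + (u + s) - act g (lam • w + (u' + s')) := by
      simp only [act, map_add, map_smul, sub_apply]
      module
    rw [e, ← hd] at key
    refine le_trans (mul_le_mul_of_nonneg_left ?_ (by linarith)) key
    exact (S.fixer w 0).d_le hh _ _
  · have h1 := sliceF_right_le (hS.orth _ hvU _ hvN.1)
    rw [← ev] at h1
    have h2 : inner ℝ (u + s - act h (u' + s')) (lam • (g.1 w - w)) =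
        lam * inner ℝ (s - h.1 s') (g.1 w - w) := by
      rw [ev, real_inner_smul_right, inner_add_left, hS.orth _ hvU _ haW, zero_add]
    rw [h2, abs_mul, abs_of_pos hlam, na]
    have h3 := hK _ hvN g hg
    have h4 : K * ‖s - h.1 s'‖ * ‖g.1 w - w‖ ^ 2 ≤
        κ * (‖u + s - act h (u' + s')‖ * ‖g.1 w - w‖) := by
      calc K * ‖s - h.1 s'‖ * ‖g.1 w - w‖ ^ 2
          = (K * ‖g.1 w - w‖) * (‖s - h.1 s'‖ * ‖g.1 w - w‖) := by ring
        _ ≤ κ * (‖u + s - act h (u' + s')‖ * ‖g.1 w - w‖) := by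
          refine mul_le_mul ?_ (mul_le_mul_of_nonneg_right h1 (norm_nonneg _)) (by positivity) hκ
          have := mul_le_mul_of_nonneg_left b3 hK0
          linarith
    calc lam * |inner ℝ (s - h.1 s') (g.1 w - w)|
        ≤ lam * (κ * (‖u + s - act h (u' + s')‖ * ‖g.1 w - w‖)) :=
          mul_le_mul_of_nonneg_left (h3.trans h4) hlam.le
      _ = _ := by ring
  · have h1 : ‖(g.1 - h.1) (u' + s')‖ ≤ C * ‖g.1 w - w‖ * (R + r * lam) :=
      (ContinuousLinearMap.le_opNorm _ _).trans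
        (mul_le_mul c1 ((norm_add_le _ _).trans (add_le_add bu' bs'.le)) (norm_nonneg _)
          (by positivity))
    have h2 := norm_add_le ((g.1 - h.1) (u' + s')) (g.2 - h.2)
    have h3 : C * ‖g.1 w - w‖ * (R + r * lam + 1) ≤ C * ‖g.1 w - w‖ * (2 * (r * lam)) :=
      mul_le_mul_of_nonneg_left (by linarith) (by positivity)
    have h4 : 2 * C * r * (lam * ‖g.1 w - w‖) ≤ κ * (lam * ‖g.1 w - w‖) :=
      mul_le_mul_of_nonneg_right hCr (by positivity)
    rw [na]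
    nlinarith

theorem slice_far {S : AGrp V} {U W : Submodule ℝ V} {R : ℝ} (hS : Setup S U W R) {w : V}
    (hw : w ∈ W) {ε : ℝ} (hε : 0 < ε) :
    ∃ (N : Submodule ℝ V) (r lam₀ : ℝ), 0 < r ∧ 0 < lam₀ ∧ N ≤ W ∧
      (∀ g ∈ (S.fixer w 0).car, ∀ v ∈ N, g.1 v ∈ N) ∧
      (∀ lam : ℝ, 0 < lam → ∀ y ∈ U ⊔ W, ∃ g ∈ S.car, ∃ u ∈ U, ∃ s ∈ N,
        act g y = lam • w + (u + s) ∧ ‖s‖ ≤ S.d y (lam • w)) ∧
      ∀ lam : ℝ, lam₀ ≤ lam → ∀ u ∈ U, ∀ u' ∈ U, ∀ s ∈ N, ∀ s' ∈ N,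
        ‖s‖ < r * lam → ‖s'‖ < r * lam →
        (1 - ε) * (S.fixer w 0).d (u + s) (u' + s') ≤
          S.d (lam • w + (u + s)) (lam • w + (u' + s')) := by
  have hR : 0 ≤ R := by
    obtain ⟨g, -, h1, -⟩ := sliceF_repl hS S.one_mem
    exact (norm_nonneg _).trans h1
  obtain ⟨C, hC0, hC⟩ := linBound S w 0 (4 * R)
  simp only [zero_smul, add_zero] at hC
  obtain ⟨K, hK0, hK⟩ := sliceF_unif S.car (fun g => g.1 w - w) (sliceF_N S W w)
    fun v hv => hv.2
  have hκ0 : 0 < min (ε / 2) (1 / 2) := lt_min (by linarith) (by norm_num)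
  have hκ1 : min (ε / 2) (1 / 2) ≤ 1 / 2 := min_le_right _ _
  have hκ2 : min (ε / 2) (1 / 2) ≤ ε / 2 := min_le_left _ _
  generalize min (ε / 2) (1 / 2) = κ at hκ0 hκ1 hκ2
  have hD : 0 < 5 * K + 2 * C + 1 := by positivity
  have hr : 0 < κ / (5 * K + 2 * C + 1) := div_pos hκ0 hD
  have hr1 : (5 * K + 2 * C + 1) * (κ / (5 * K + 2 * C + 1)) = κ := by field_simp
  generalize κ / (5 * K + 2 * C + 1) = r at hr hr1
  refine ⟨sliceF_N S W w, r, 2 * (R + 1) / r, hr, by positivity, fun v hv => hv.1,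
    fun g hg v hv => sliceF_inv_N hS hg hv, fun lam hlam y hy => ?_,
    fun lam hl u hu u' hu' s hs s' hs' bs bs' => ?_⟩
  · obtain ⟨u₀, hu₀, w₀, hw₀, rfl⟩ := Submodule.mem_sup.mp hy
    obtain ⟨g, hg, hmax⟩ := sliceF_max hS w hw₀
    have hN : g.1 w₀ ∈ sliceF_N S W w := by
      refine sliceF_mem_of_max (C := C) hS hw (fun f hf hb => ?_) (hS.linW g hg w₀ hw₀)
        fun f hf => hmax _ (S.mul_mem f hf g hg)
      obtain ⟨h, hh, h1, -⟩ := hC f hf (by linarith)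
      exact ⟨h, hh, h1⟩
    refine ⟨g, hg, act g u₀, sliceF_actU hS hg hu₀, g.1 w₀ - lam • w,
      (sliceF_N S W w).sub_mem hN ((sliceF_N S W w).smul_mem _ (sliceF_w_mem hw)), ?_, ?_⟩
    · simp only [act, map_add]
      abel
    · rw [S.d_comm]
      refine S.le_d fun e he => ?_
      have dec : lam • w - act e (u₀ + w₀) = -act e u₀ + (lam • w - e.1 w₀) := by
        simp only [act, map_add]
        abel
      have o := hS.orth _ (U.neg_mem (sliceF_actU hS he hu₀)) _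
        (W.sub_mem (W.smul_mem lam hw) (hS.linW e he w₀ hw₀))
      rw [dec]
      refine le_trans ?_ (sliceF_right_le o)
      rw [norm_sub_rev (lam • w)]
      refine (pow_le_pow_iff_left₀ (norm_nonneg _) (norm_nonneg _) two_ne_zero).mp ?_
      rw [norm_sub_sq_real, norm_sub_sq_real, S.iso g hg, S.iso e he, real_inner_smul_right,
        real_inner_smul_right]
      have := mul_le_mul_of_nonneg_left (hmax e he) hlam.le
      linarith
  · have hlam : 0 < lam := lt_of_lt_of_le (by positivity) hl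
    have hl2 : 2 * (R + 1) ≤ r * lam := by
      rw [div_le_iff₀ hr] at hl
      linarith
    obtain ⟨e, he, e1, e2⟩ := hS.coc u hu
    obtain ⟨e', he', e1', e2'⟩ := hS.coc u' hu'
    have hf : e ∈ (S.fixer w 0).car := sliceF_fix.mpr ⟨he, e1 w hw⟩
    have hf' : e' ∈ (S.fixer w 0).car := sliceF_fix.mpr ⟨he', e1' w hw⟩
    have a1 : act e (u + s) = act e u + s := by
      simp only [act, map_add, e1 s hs.1]
      abel
    have a2 : act e' (u' + s') = act e' u' + s' := by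
      simp only [act, map_add, e1' s' hs'.1]
      abel
    have a3 : act e (lam • w + (u + s)) = lam • w + (act e u + s) := by
      simp only [act, map_add, map_smul, e1 s hs.1, e1 w hw]
      abel
    have a4 : act e' (lam • w + (u' + s')) = lam • w + (act e' u' + s') := by
      simp only [act, map_add, map_smul, e1' s' hs'.1, e1' w hw]
      abel
    rw [← (S.fixer w 0).d_act_left hf, ← (S.fixer w 0).d_act_right hf', ← S.d_act_left he,
      ← S.d_act_right he', a1, a2, a3, a4]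
    obtain ⟨g, hg, hd⟩ := S.exists_d (lam • w + (act e u + s)) (lam • w + (act e' u' + s'))
    have hKr : 0 ≤ K * r := by positivity
    have hCr : 0 ≤ C * r := by positivity
    refine le_trans (mul_le_mul_of_nonneg_right (by linarith) ((S.fixer w 0).d_nonneg _ _))
      (sliceF_est (κ := κ) hS hw hR hC0 hK0 hC hK hκ0.le hκ1 (by linarith) (by linarith) hlam
        hl2 (sliceF_actU hS he hu) (sliceF_actU hS he' hu') hs hs' e2 e2' bs bs' hg hd)

end Pool.Agent.Work.MP_0ba68b_gt.Apx
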