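import Pool.Agent.Work.MP_0ba68b_gt.Apx.Near
import Pool.Agent.Work.MP_0ba68b_gt.Apx.SliceF
import Pool.Agent.Work.MP_0ba68b_gt.Apx.LowFar

/-!
The part at infinity: maps that are good on far annuli, into a space of fixed dimension.
-/

namespace Pool.Agent.Work.MP_0ba68b_gt.Apx

open Filter

variable {V : Type} [NormedAddCommGroup V] [InnerProductSpace ℝ V]

lemma norm_le_of_orth {u w : V} (h : inner ℝ u w = (0 : ℝ)) : ‖w‖ ≤ ‖u + w‖ := by
  have := norm_add_sq_eq_norm_sq_add_norm_sq_real h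
  exact abs_le_of_sq_le_sq' (by linarith only [this, mul_self_nonneg ‖u‖, mul_self_nonneg ‖u‖]) (norm_nonneg _) |>.2

lemma setup_fixer {S : AGrp V} {U W N : Submodule ℝ V} {R : ℝ} (hS : Setup S U W R) {w : V}
    (hw : w ∈ W) (hN : N ≤ W) (hN1 : ∀ g ∈ (S.fixer w 0).car, ∀ v ∈ N, g.1 v ∈ N) :
    Setup (S.fixer w 0) U N R where
  orth := fun u hu v hv => hS.orth u hu v (hN hv)
  tr := fun g hg => hS.tr g hg.1
  linU := fun g hg => hS.linU g hg.1
  linW := hN1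
  coc := fun u hu => by
    obtain ⟨g, hg, h1, h2⟩ := hS.coc u hu
    exact ⟨g, ⟨hg, by rw [h1 w hw, zero_smul, add_zero]⟩, fun v hv => h1 v (hN hv), h2⟩

lemma d_le_fixer_far (S : AGrp V) (w : V) (lam : ℝ) (y z : V) :
    S.d (lam • w + y) (lam • w + z) ≤ (S.fixer w 0).d y z :=
  (S.fixer w 0).le_d fun g hg => by
    refine (S.d_le hg.1 _ _).trans (le_of_eq ?_)
    have e : g.1 w = w := by simpa using hg.2
    congr 1
    simp only [act, map_add, map_smul, e]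
    abel

/-- The induction hypothesis. -/
def ClaimBelow (U : Submodule ℝ V) (m : ℕ) : Prop :=
  ∀ (H : AGrp V) (W : Submodule ℝ V) (R : ℝ), Module.finrank ℝ W < m → Setup H U W R →
    ∀ α : ℝ, 0 < α → α ≤ 1 → Hyp H (U ⊔ W) α → Good H (U ⊔ W) α

variable [FiniteDimensional ℝ V]

lemma local_far {S : AGrp V} {U W : Submodule ℝ V} {R : ℝ} (hS : Setup S U W R)
    (ih : ClaimBelow U (Module.finrank ℝ W)) {α : ℝ} (hα1 : α ≤ 1) (hH : Hyp S (U ⊔ W) α)
    {k₀ : ℕ} {L : V → Eu k₀} (hL : ContDiff ℝ 1 L) (hL1 : ∀ y z, ‖L y - L z‖ ≤ ‖y - z‖)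
    (hLi : ∀ g ∈ S.car, ∀ u ∈ U, ∀ v, L (g.1 v + u) = L v) {w : V} (hw : w ∈ W) (hw0 : w ≠ 0)
    {ε : ℝ} (hε : 0 < ε) (hε1 : ε ≤ 1 / 2) (hεα : 3 * ε ≤ α) :
    ∃ r : ℝ, 0 < r ∧ ∃ k : ℕ, ∀ᶠ lam : ℝ in atTop, ∃ n : V → Eu k, ∀ y ∈ U ⊔ W, ∀ z ∈ U ⊔ W,
      S.d y (lam • w) / lam < r → S.d z (lam • w) / lam < r →
      ((α - 3 * ε) * (S.d y z / lam)) ^ 2 ≤
          ‖L (lam⁻¹ • y) - L (lam⁻¹ • z)‖ ^ 2 + ‖n y - n z‖ ^ 2 ∧
        ‖L (lam⁻¹ • y) - L (lam⁻¹ • z)‖ ^ 2 + ‖n y - n z‖ ^ 2 ≤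
          ((1 + ε + ε) / (1 - ε) * (S.d y z / lam)) ^ 2 := by
  obtain ⟨N, r₁, lam₀, hr₁, hlam₀, hNW, hN1, hN2, hN3⟩ := slice_far hS hw hε
  obtain ⟨D, r₂, hr₂, hD1, hD2, hD3, hD4⟩ := c1_loc hL hL1 w hε
  set H := S.fixer w 0 with hHdef
  have hfix : ∀ g ∈ H.car, g.1 w = w := fun g hg => by simpa using hg.2
  have hSH : Setup H U N R := setup_fixer hS hw hNW hN1
  have hα : 0 < α := by linarith only [hε, hεα]
  have hLu : ∀ u ∈ U, ∀ v, L (v + u) = L v := fun u hu v => hLi _ S.one_mem u hu v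
  have hLg : ∀ g ∈ S.car, ∀ v, L (g.1 v) = L v := fun g hg v => by
    have := hLi g hg 0 U.zero_mem v
    rwa [add_zero] at this
  have hHyp : Hyp H (U ⊔ mov H N) (α * (1 - ε)) := by
    intro ρ
    set lam : ℝ := max lam₀ ((|ρ| + 1) / r₁) with hlam
    have l1 : lam₀ ≤ lam := le_max_left _ _
    have l2 : ρ < r₁ * lam := by
      have : (|ρ| + 1) / r₁ ≤ lam := le_max_right _ _
      rw [div_le_iff₀ hr₁] at this
      linarith only [hα1, hε, hεα, this, le_abs_self ρ]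
    obtain ⟨E, i1, i2, F, hF1, hF2⟩ := hH (‖lam • w‖ + ρ)
    refine ⟨E, i1, i2, fun v => F (lam • w + v),
      fun y z => (hF1 _ _).trans (d_le_fixer_far S w lam y z), fun y hy z hz hy' hz' => ?_⟩
    obtain ⟨u, hu, s, hs, rfl⟩ := Submodule.mem_sup.mp hy
    obtain ⟨u', hu', s', hs', rfl⟩ := Submodule.mem_sup.mp hz
    have a1 := hN3 lam l1 u hu u' hu' s hs.1 s' hs'.1
      (((norm_le_of_orth (hSH.orth u hu s hs.1)).trans hy').trans_lt l2)
      (((norm_le_of_orth (hSH.orth u' hu' s' hs'.1)).trans hz').trans_lt l2)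
    have mem : ∀ u ∈ U, ∀ s ∈ N, lam • w + (u + s) ∈ U ⊔ W := fun u hu s hs =>
      Submodule.add_mem _ (Submodule.mem_sup_right (W.smul_mem _ hw))
        (Submodule.add_mem_sup hu (hNW hs))
    have a2 := hF2 _ (mem u hu s hs.1) _ (mem u' hu' s' hs'.1)
      ((norm_add_le _ _).trans (by linarith only [hy'])) ((norm_add_le _ _).trans (by linarith only [hz']))
    calc α * (1 - ε) * H.d (u + s) (u' + s') = α * ((1 - ε) * H.d (u + s) (u' + s')) := by ring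
      _ ≤ _ := mul_le_mul_of_nonneg_left a1 hα.le
      _ ≤ _ := a2
  obtain ⟨k, Φ, hΦ⟩ := ih H _ R (mov_lt hNW hw hw0 hfix) (setup_mov hSH) (α * (1 - ε))
    (mul_pos hα (by linarith only [hα1, hε, hεα])) (by linarith only [hα1, hε, hε1, mul_nonneg_of_nonpos_of_nonpos (Mathlib.Tactic.Linarith.sub_nonpos_of_le hα1) (Mathlib.Tactic.Linarith.sub_nonpos_of_le hε1)]) hHyp (α - 2 * ε) (by linarith only [hε, hα1, mul_nonneg_of_nonpos_of_nonpos (Mathlib.Tactic.Linarith.sub_nonpos_of_le hα1) (le_of_lt (Mathlib.Tactic.Linarith.sub_neg_of_lt hε))]) (1 + ε)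
    (by linarith)
  have hLH : ∀ g ∈ H.car, ∀ s, L (w + g.1 s) = L (w + s) := fun g hg s => by
    rw [← hLg g hg.1 (w + s), map_add, hfix g hg]
  have hDg : ∀ g ∈ H.car, ∀ v, D (g.1 v) = D v := fun g hg => hD3 g.1 (hLH g hg)
  have hDU : ∀ u ∈ U, D u = 0 := fun u hu => hD4 u fun t => hLu _ (U.smul_mem t hu) w
  obtain ⟨k', n, hn⟩ := prodLemma hSH (by linarith) (by linarith) (by linarith) Φ hΦ D hD1 hDU hDg
  refine ⟨min r₁ r₂, lt_min hr₁ hr₂, k', ?_⟩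
  filter_upwards [eventually_ge_atTop lam₀] with lam hlam
  have l0 : 0 < lam := hlam₀.trans_le hlam
  have li : 0 < lam⁻¹ := inv_pos.mpr l0
  have hrep : ∀ y : V, ∃ u s : V, y ∈ U ⊔ W → u ∈ U ∧ s ∈ N ∧ ‖s‖ ≤ S.d y (lam • w) ∧
      ∃ g ∈ S.car, act g y = lam • w + (u + s) := fun y => by
    by_cases hy : y ∈ U ⊔ W
    · obtain ⟨g, hg, u, hu, s, hs, e1, e2⟩ := hN2 lam l0 y hy
      exact ⟨u, s, fun _ => ⟨hu, hs, e2, g, hg, e1⟩⟩
    · exact ⟨0, 0, fun h => absurd h hy⟩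
  choose u s hus using hrep
  refine ⟨fun y => lam⁻¹ • n (u y + s y), fun y hy z hz hy' hz' => ?_⟩
  obtain ⟨u1, s1, n1, g, hg, e1⟩ := hus y hy
  obtain ⟨u2, s2, n2, g', hg', e2⟩ := hus z hz
  rw [div_lt_iff₀ l0] at hy' hz'
  have hLrep : ∀ y : V, ∀ g ∈ S.car, ∀ u ∈ U, ∀ s : V, act g y = lam • w + (u + s) →
      L (lam⁻¹ • y) = L (w + lam⁻¹ • s) := fun y g hg u hu s e => by
    rw [← hLi g hg (lam⁻¹ • (g.2 - u)) (U.smul_mem _ (U.sub_mem (hS.tr g hg) hu)) (lam⁻¹ • y)]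
    congr 1
    have e' : g.1 y = lam • w + (u + s) - g.2 := eq_sub_of_add_eq e
    rw [map_smul, e', ← smul_add]
    have : lam • w + (u + s) - g.2 + (g.2 - u) = lam • w + s := by abel
    rw [this, smul_add, smul_smul, inv_mul_cancel₀ l0.ne', one_smul]
  have hdd : S.d (lam • w + (u y + s y)) (lam • w + (u z + s z)) = S.d y z := by
    rw [← e1, ← e2, S.d_act_left hg, S.d_act_right hg']
  obtain ⟨b1, b2⟩ := hn _ (Submodule.add_mem_sup u1 s1) _ (Submodule.add_mem_sup u2 s2)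
  obtain ⟨h, hh, eh⟩ := H.exists_d (u y + s y) (u z + s z)
  have m1 : min r₁ r₂ * lam ≤ r₁ * lam := mul_le_mul_of_nonneg_right (min_le_left _ _) l0.le
  have m2 : min r₁ r₂ * lam ≤ r₂ * lam := mul_le_mul_of_nonneg_right (min_le_right _ _) l0.le
  have c1 : (1 - ε) * H.d (u y + s y) (u z + s z) ≤ S.d y z := by
    rw [← hdd]
    exact hN3 lam hlam _ u1 _ u2 _ s1 _ s2 (by linarith only [hy', n1, m1]) (by linarith only [hz', n2, m1])
  have c2 : S.d y z ≤ H.d (u y + s y) (u z + s z) := hdd ▸ d_le_fixer_far S w lam _ _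
  have hsm : ∀ v : V, ‖lam⁻¹ • v‖ = lam⁻¹ * ‖v‖ := fun v => by
    rw [norm_smul, Real.norm_eq_abs, abs_of_pos li]
  have c3 : |‖L (lam⁻¹ • y) - L (lam⁻¹ • z)‖ - lam⁻¹ * ‖D (u y + s y - (u z + s z))‖| ≤
      ε * (lam⁻¹ * H.d (u y + s y) (u z + s z)) := by
    have f1 : lam⁻¹ * ‖D (u y + s y - (u z + s z))‖ =
        ‖D (lam⁻¹ • s y - lam⁻¹ • h.1 (s z))‖ := by
      rw [← smul_sub, map_smul, norm_smul, Real.norm_eq_abs, abs_of_pos li, map_sub, map_sub,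
        map_add, map_add, hDU _ u1, hDU _ u2, hDg h hh, zero_add, zero_add]
    have f2 : L (lam⁻¹ • z) = L (w + lam⁻¹ • h.1 (s z)) := by
      rw [hLrep z g' hg' _ u2 _ e2, ← map_smul, hLH h hh]
    rw [hLrep y g hg _ u1 _ e1, f1, f2]
    refine (abs_norm_sub_norm_le _ _).trans ((hD2 _ _ ?_ ?_).trans ?_)
    · rw [hsm, inv_mul_lt_iff₀ l0]
      linarith only [hy', n1, m2]
    · rw [hsm, inv_mul_lt_iff₀ l0, H.iso h hh]
      linarith only [hz', n2, m2]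
    · rw [← smul_sub, hsm]
      refine mul_le_mul_of_nonneg_left (mul_le_mul_of_nonneg_left ?_ li.le) hε.le
      have f3 : u y + s y - act h (u z + s z) =
          (u y - (h.1 (u z) + h.2)) + (s y - h.1 (s z)) := by
        simp only [act, map_add]
        abel
      rw [eh, f3]
      exact norm_le_of_orth (hSH.orth _
        (U.sub_mem u1 (U.add_mem (hSH.linU h hh _ u2) (hSH.tr h hh))) _
        (N.sub_mem s1 (hN1 h hh _ s2)))
  have hq : ‖lam⁻¹ • n (u y + s y) - lam⁻¹ • n (u z + s z)‖ =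
      lam⁻¹ * ‖n (u y + s y) - n (u z + s z)‖ := by
    rw [← smul_sub, norm_smul, Real.norm_eq_abs, abs_of_pos li]
  have sq : 0 ≤ lam⁻¹ ^ 2 := by positivity
  have := asm (q := lam⁻¹ * ‖n (u y + s y) - n (u z + s z)‖) (d := S.d y z / lam)
    (norm_nonneg _) (by positivity) (div_nonneg (S.d_nonneg y z) l0.le)
    hε.le (by linarith only [hα1, hε, hεα]) (by linarith only [hεα] : ε ≤ α - 2 * ε) (by linarith only [hα1, hε, hεα] : (0 : ℝ) ≤ 1 + ε) c3
    (by have := mul_le_mul_of_nonneg_left b1 sq; linarith only [this])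
    (by have := mul_le_mul_of_nonneg_left b2 sq; linarith only [this])
    (by rw [div_eq_inv_mul, mul_left_comm]; exact mul_le_mul_of_nonneg_left c1 li.le)
    (by rw [div_eq_inv_mul]; exact mul_le_mul_of_nonneg_left c2 li.le)
  have e : α - 2 * ε - ε = α - 3 * ε := by ring
  rw [e] at this
  simp only [hq]
  exact this

omit [FiniteDimensional ℝ V] in
lemma norm_le_d_zero {S : AGrp V} {U W : Submodule ℝ V} {R : ℝ} (hS : Setup S U W R) {u w : V}
    (hu : u ∈ U) (hw : w ∈ W) : ‖w‖ ≤ S.d (u + w) 0 :=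
  S.le_d fun g hg => by
    have e : u + w - act g 0 = (u - g.2) + w := by
      simp only [act, map_zero, zero_add]
      abel
    rw [e]
    exact norm_le_of_orth (hS.orth _ (U.sub_mem hu (hS.tr g hg)) w hw)

omit [FiniteDimensional ℝ V] in
lemma d_le_add {S : AGrp V} {U W : Submodule ℝ V} {R : ℝ} (hS : Setup S U W R) {u w : V}
    (hu : u ∈ U) (hw : w ∈ W) (x : V) : S.d (u + w) x ≤ R + ‖w - x‖ := by
  obtain ⟨g, hg, h1, h2⟩ := hS.coc u hu
  rw [← S.d_act_left hg]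
  refine (S.d_le_norm _ _).trans ?_
  have e : act g (u + w) - x = act g u + (w - x) := by
    simp only [act, map_add, h1 w hw]
    abel
  rw [e]
  exact (norm_add_le _ _).trans (by linarith)

theorem far {S : AGrp V} {U W : Submodule ℝ V} {R : ℝ} (hS : Setup S U W R)
    (ih : ClaimBelow U (Module.finrank ℝ W)) {α : ℝ} (hα1 : α ≤ 1) (hH : Hyp S (U ⊔ W) α)
    {β γ Λ : ℝ} (hβ0 : 0 ≤ β) (hβ : β < α) (hγ : 1 < γ) (hΛ : 0 < Λ) :
    ∃ k : ℕ, ∀ᶠ lam : ℝ in atTop, ∃ G : V → Eu k,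
      (∀ y ∈ U ⊔ W, ∀ z ∈ U ⊔ W, ‖G y - G z‖ ≤ γ * S.d y z) ∧
      ∀ y ∈ U ⊔ W, ∀ z ∈ U ⊔ W, lam / Λ ≤ S.d y 0 → S.d y 0 ≤ lam * Λ → S.d z 0 ≤ lam * Λ →
        β * S.d y z ≤ ‖G y - G z‖ := by
  obtain ⟨ε, hε, hε1, hεα, hεγ⟩ := exists_eps hβ hγ
  have hγ1 : 1 ≤ (1 + ε + ε) / (1 - ε) := by
    rw [le_div_iff₀ (by linarith only [hα1, hβ0, hε, hεα])]
    linarith only [hε]
  have hw := windows (I := ℝ) (X := V) atTop (fun lam y z => S.d y z / |lam|)
    ((U ⊔ W : Submodule ℝ V) : Set V)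
    (fun lam y z => lam / Λ ≤ S.d y 0 ∧ S.d y 0 ≤ lam * Λ ∧ S.d z 0 ≤ lam * Λ)
    (β := α - 4 * ε) (β' := β) (γ := γ) hβ0 (by linarith only [hε, hεα]) (by linarith only [hα1, hβ0, hγ, hε, hεα])
    (fun lam y z => div_nonneg (S.d_nonneg y z) (abs_nonneg _)) ?_
  · obtain ⟨k, hk⟩ := hw
    refine ⟨k, ?_⟩
    filter_upwards [hk, eventually_gt_atTop 0] with lam ⟨G, h1, h2⟩ l0
    have hn : ∀ y z, ‖lam • G y - lam • G z‖ = ‖G y - G z‖ * lam := fun y z => by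
      rw [← smul_sub, norm_smul, Real.norm_eq_abs, abs_of_pos l0, mul_comm]
    refine ⟨fun y => lam • G y, fun y hy z hz => ?_, fun y hy z hz a b c => ?_⟩
    · have := h1 y hy z hz
      rw [abs_of_pos l0, ← mul_div_assoc, le_div_iff₀ l0] at this
      rwa [hn]
    · have := h2 y hy z hz ⟨a, b, c⟩
      rw [abs_of_pos l0, ← mul_div_assoc, div_le_iff₀ l0] at this
      rwa [hn]
  intro T hT
  obtain ⟨k₀, L, lam₁, hlam₁, hL, hL1, hLi, hLf⟩ := lowFar hS (by linarith only [hβ0, hε, hεα]) hα1 hH hΛ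
    (η := ε * T) (by positivity)
  have hK : IsCompact ((Metric.closedBall (0 : V) Λ ∩ {w | 1 / (2 * Λ) ≤ ‖w‖}) ∩ (W : Set V)) :=
    ((isCompact_closedBall (0 : V) Λ).inter_right
      (isClosed_le continuous_const continuous_norm)).inter_right W.closed_of_finiteDimensional
  have hloc := fun x : {w : V // w ∈ W ∧ w ≠ 0} =>
    local_far hS ih hα1 hH hL hL1 hLi x.2.1 x.2.2 hε hε1 (by linarith only [hβ0, hε, hεα])
  choose r hr k hn using hloc
  obtain ⟨t, ht⟩ := hK.elim_finite_subcover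
    (fun x : {w : V // w ∈ W ∧ w ≠ 0} => Metric.ball x.1 (r x / 8))
    (fun _ => Metric.isOpen_ball) fun x hx => by
      have h0 : x ≠ 0 := by
        rintro rfl
        have h1 : 1 / (2 * Λ) ≤ ‖(0 : V)‖ := hx.1.2
        rw [norm_zero] at h1
        exact absurd h1 (not_le.mpr (by positivity))
      exact Set.mem_iUnion.mpr ⟨⟨x, hx.2, h0⟩,
        Metric.mem_ball_self (by have := hr ⟨x, hx.2, h0⟩; positivity)⟩
  obtain ⟨k', T', hT', hc⟩ := cstep (J := t) (fun j => r j.1) (fun j => hr j.1) (fun j => k j.1)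
    (β := α - 3 * ε) (β' := α - 4 * ε) (by linarith only [hβ0, hε, hεα]) (by linarith only [hε]) (by linarith only [hα1, hβ0, hε, hεα, hγ1]) hεγ
  refine ⟨T', hT', k₀ + k', ?_⟩
  have ev1 := eventually_all.mpr fun j : t => hn j.1
  have ev2 := eventually_all.mpr fun j : t => eventually_ge_atTop (8 * R / r j.1)
  filter_upwards [ev1, ev2, eventually_ge_atTop lam₁, eventually_ge_atTop (2 * Λ * R)] with
    lam h1 h2 h3 h4
  have l0 : 0 < lam := hlam₁.trans_le h3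
  have li : 0 < lam⁻¹ := inv_pos.mpr l0
  choose n hn' using h1
  have hLd : ∀ y z, ‖L (lam⁻¹ • y) - L (lam⁻¹ • z)‖ ≤ S.d y z / lam := fun y z => by
    rw [le_div_iff₀ l0]
    refine S.le_d fun g hg => ?_
    have e : L (lam⁻¹ • z) = L (lam⁻¹ • act g z) := by
      rw [← hLi g hg (lam⁻¹ • g.2) (U.smul_mem _ (hS.tr g hg)) (lam⁻¹ • z)]
      simp only [act, map_smul, smul_add]
    rw [e, ← le_div_iff₀ l0]
    refine (hL1 _ _).trans (le_of_eq ?_)
    rw [← smul_sub, norm_smul, Real.norm_eq_abs, abs_of_pos li, div_eq_inv_mul]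
  obtain ⟨C, hC1, hC2, hC3⟩ := hc V (fun y z => S.d y z / lam) ((U ⊔ W : Submodule ℝ V) : Set V)
    (fun j => lam • j.1.1) k₀ (fun y => L (lam⁻¹ • y)) n
    (fun y z => div_nonneg (S.d_nonneg y z) l0.le) (fun y z => by rw [S.d_comm])
    (fun x y z => by
      rw [← add_div]
      exact div_le_div_of_nonneg_right (S.d_triangle x y z) l0.le)
    (fun y hy z hz => by
      obtain ⟨m, hm, a, b⟩ := S.exists_mid hS.act_mem hy hz
      refine ⟨m, hm, ?_, ?_⟩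
      · rw [div_right_comm]
        exact div_le_div_of_nonneg_right a l0.le
      · rw [div_right_comm]
        exact div_le_div_of_nonneg_right b l0.le)
    (fun y _ z _ => (hLd y z).trans
      (le_mul_of_one_le_left (div_nonneg (S.d_nonneg y z) l0.le) hγ1))
    (fun j y hy z hz => hn' j y hy z hz)
  simp only [abs_of_pos l0]
  refine ⟨C, hC2, ?_⟩
  rintro y hy z hz ⟨q1, q2, q3⟩ hd
  rcases hd with hd | hd
  · have a1 := hLf lam h3 y hy z hz q2 q3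
    have a2 := hC1 y z
    have a3 : ε * T ≤ ε * (S.d y z / lam) := mul_le_mul_of_nonneg_left hd hε.le
    have a4 : 0 ≤ ε * (S.d y z / lam) := mul_nonneg hε.le (div_nonneg (S.d_nonneg y z) l0.le)
    linarith only [a1, a2, a3, a4]
  · refine hC3 y hy z hz ?_ hd
    obtain ⟨u, hu, w, hw, rfl⟩ := Submodule.mem_sup.mp hy
    have b1 := norm_le_d_zero hS hu hw
    have b2 := d_le_add hS hu hw 0
    rw [sub_zero] at b2
    have hsm : ‖lam⁻¹ • w‖ = ‖w‖ / lam := by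
      rw [norm_smul, Real.norm_eq_abs, abs_of_pos li, div_eq_inv_mul]
    have hmem : lam⁻¹ • w ∈ (Metric.closedBall (0 : V) Λ ∩ {w | 1 / (2 * Λ) ≤ ‖w‖}) ∩
        (W : Set V) := by
      refine ⟨⟨mem_closedBall_zero_iff.mpr ?_, ?_⟩, W.smul_mem _ hw⟩
      · rw [hsm, div_le_iff₀ l0]
        linarith only [q2, b1]
      · change 1 / (2 * Λ) ≤ ‖lam⁻¹ • w‖
        rw [hsm, div_le_div_iff₀ (by positivity) l0]
        rw [div_le_iff₀ hΛ] at q1
        linarith only [h4, q1, hΛ, b2, mul_nonneg_of_nonpos_of_nonpos (le_of_lt (Mathlib.Tactic.Linarith.sub_neg_of_lt hΛ)) (Mathlib.Tactic.Linarith.sub_nonpos_of_le b2)]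
    have := ht hmem
    simp only [Set.mem_iUnion] at this
    obtain ⟨x, hx, hb⟩ := this
    refine ⟨⟨x, hx⟩, ?_⟩
    have b3 := d_le_add hS hu hw (lam • x.1)
    have b4 : ‖w - lam • x.1‖ = lam * ‖lam⁻¹ • w - x.1‖ := by
      have : w - lam • x.1 = lam • (lam⁻¹ • w - x.1) := by
        rw [smul_sub, smul_smul, mul_inv_cancel₀ l0.ne', one_smul]
      rw [this, norm_smul, Real.norm_eq_abs, abs_of_pos l0]
    have b5 := mul_lt_mul_of_pos_left (mem_ball_iff_norm.mp hb) l0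
    have b6 := h2 ⟨x, hx⟩
    rw [div_le_iff₀ (hr x)] at b6
    change S.d (u + w) (lam • x.1) / lam < r x / 4
    rw [div_lt_iff₀ l0]
    change 8 * R ≤ lam * r x at b6
    linarith only [b3, b4, b5, b6]

end Pool.Agent.Work.MP_0ba68b_gt.Apx
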