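import Pool.Agent.Work.MP_0ba68b_gt.Apx.Eu
import Mathlib.Analysis.SpecialFunctions.Trigonometric.Bounds

/-!
Folding a Euclidean space into a small ball, and averaging over scale windows.

Plan for `fold`. With τ = η / (k + 1) (or η / √(k+1)) let c u = (τ cos (u i / τ))_i and
s u = (τ sin (u i / τ))_i in Eu k, and combine them with `exists_pair`. For reals a, b:
(cos a - cos b)^2 + (sin a - sin b)^2 = 2 - 2 cos (a - b), which is ≤ (a - b)^2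
(`Real.one_sub_sq_div_two_le_cos`) and ≥ (a - b)^2 (1 - (a - b)^2 / 8) for |a - b| ≤ 1
(`Real.cos_bound` or `Real.cos_le_one_sub_mul_cos_sq`, `Real.cos_quadratic_upper_bound` variants).
Use |u i - u' i| ≤ ‖u - u'‖ (`PiLp.norm_apply_le`, `EuclideanSpace.norm_sq_eq`).

Plan for `windows`. Prove by induction on m: ∀ T > 0, ∃ T', 0 < T' ≤ T, ∃ k, ∀ᶠ i in l, ∃ Φ with
‖ΔΦ‖^2 ≤ m (γ d)^2 on M, and for pairs in Q: (m - 1) (β d)^2 ≤ ‖ΔΦ‖^2 always and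
m (β d)^2 ≤ ‖ΔΦ‖^2 when T ≤ d or d ≤ T'. Step: apply the hypothesis with T := T' of the previous
stage, concatenate by `exists_pair_map`, new T' the minimum. (If d ≥ old T' the new map is good, if
d < old T' the old maps are all good.) Finally choose m ≥ 1 with β'^2 m ≤ β^2 (m - 1) and scale
by (√m)⁻¹.
-/

namespace Pool.Agent.Work.MP_0ba68b_gt.Apx

open Filter

theorem Fold_circ (τ a b : ℝ) :
    (τ * Real.cos a - τ * Real.cos b) ^ 2 + (τ * Real.sin a - τ * Real.sin b) ^ 2 =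
      τ ^ 2 * (2 - 2 * Real.cos (a - b)) := by
  rw [Real.cos_sub]
  linear_combination τ ^ 2 * Real.cos_sq_add_sin_sq a + τ ^ 2 * Real.cos_sq_add_sin_sq b

theorem Fold_low {κ t : ℝ} (h1 : |t| ≤ 1) (h2 : |t| ≤ κ) :
    (1 - κ) * t ^ 2 ≤ 2 - 2 * Real.cos t := by
  have h3 := (abs_le.1 (Real.cos_bound h1)).2
  have h4 : |t| ^ 4 = t ^ 2 * t ^ 2 := by rw [← sq_abs t]; ring
  have h5 : t ^ 2 ≤ κ := by
    rw [← sq_abs t]
    nlinarith [abs_nonneg t]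
  have h6 := mul_le_mul_of_nonneg_left h5 (sq_nonneg t)
  rw [h4] at h3
  nlinarith [mul_self_nonneg (t ^ 2)]

theorem fold (k : ℕ) {η κ : ℝ} (hη : 0 < η) (hκ : 0 < κ) :
    ∃ (Ψ : Eu k → Eu (k + k)) (δ : ℝ), 0 < δ ∧ (∀ u, ‖Ψ u‖ ≤ η) ∧
      (∀ u u', ‖Ψ u - Ψ u'‖ ≤ ‖u - u'‖) ∧
      ∀ u u', ‖u - u'‖ ≤ δ → (1 - κ) * ‖u - u'‖ ≤ ‖Ψ u - Ψ u'‖ := by
  obtain ⟨P, hP1, hP2⟩ := exists_pair k k
  obtain ⟨τ, hτ, hτη⟩ : ∃ τ : ℝ, 0 < τ ∧ τ * (k + 1) = η :=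
    ⟨η / (k + 1), by positivity, div_mul_cancel₀ _ (by positivity)⟩
  let c : Eu k → Eu k := fun u => WithLp.toLp 2 fun i => τ * Real.cos (u i / τ)
  let s : Eu k → Eu k := fun u => WithLp.toLp 2 fun i => τ * Real.sin (u i / τ)
  have key : ∀ u u', ‖P (c u) (s u) - P (c u') (s u')‖ ^ 2 =
      ∑ i, τ ^ 2 * (2 - 2 * Real.cos ((u - u') i / τ)) := fun u u' => by
    rw [hP2, hP1, EuclideanSpace.real_norm_sq_eq, EuclideanSpace.real_norm_sq_eq,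
      ← Finset.sum_add_distrib]
    refine Finset.sum_congr rfl fun i _ => ?_
    rw [show (u - u') i = u i - u' i from rfl, sub_div]
    exact Fold_circ τ _ _
  have sq : ∀ x : ℝ, τ ^ 2 * (x / τ) ^ 2 = x ^ 2 := fun x => by field_simp
  refine ⟨fun u => P (c u) (s u), τ * min 1 κ, by positivity, fun u => ?_, fun u u' => ?_,
    fun u u' hu => ?_⟩
  · rw [← sq_le_sq₀ (norm_nonneg _) hη.le, hP1, EuclideanSpace.real_norm_sq_eq,
      EuclideanSpace.real_norm_sq_eq, ← Finset.sum_add_distrib,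
      Finset.sum_congr rfl (g := fun _ => τ ^ 2) fun i _ => by
        linear_combination τ ^ 2 * Real.cos_sq_add_sin_sq (u i / τ),
      Finset.sum_const, Finset.card_univ, Fintype.card_fin, nsmul_eq_mul, ← hτη, mul_pow, mul_comm]
    refine mul_le_mul_of_nonneg_left ?_ (sq_nonneg τ)
    nlinarith [Nat.cast_nonneg (α := ℝ) k]
  · rw [← sq_le_sq₀ (norm_nonneg _) (norm_nonneg _), key, EuclideanSpace.real_norm_sq_eq]
    refine Finset.sum_le_sum fun i _ => ?_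
    rw [← sq ((u - u') i)]
    refine mul_le_mul_of_nonneg_left ?_ (sq_nonneg τ)
    linarith [Real.one_sub_sq_div_two_le_cos (x := (u - u') i / τ)]
  · have h1 : (1 - κ) * ‖u - u'‖ ^ 2 ≤ ‖P (c u) (s u) - P (c u') (s u')‖ ^ 2 := by
      rw [key, EuclideanSpace.real_norm_sq_eq, Finset.mul_sum]
      refine Finset.sum_le_sum fun i _ => ?_
      have h2 : |(u - u') i / τ| ≤ min 1 κ := by
        rw [abs_div, abs_of_pos hτ, div_le_iff₀ hτ, mul_comm]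
        exact (PiLp.norm_apply_le (u - u') i).trans hu
      rw [← sq ((u - u') i), mul_left_comm]
      exact mul_le_mul_of_nonneg_left
        (Fold_low (h2.trans (min_le_left _ _)) (h2.trans (min_le_right _ _))) (sq_nonneg τ)
    rcases le_total (1 - κ) 0 with h | h
    · exact (mul_nonpos_of_nonpos_of_nonneg h (norm_nonneg _)).trans (norm_nonneg _)
    · rw [← sq_le_sq₀ (mul_nonneg h (norm_nonneg _)) (norm_nonneg _), mul_pow]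
      refine le_trans (mul_le_mul_of_nonneg_right ?_ (sq_nonneg _)) h1
      nlinarith

theorem Fold_ind {I X : Type} (l : Filter I) (d : I → X → X → ℝ) (M : Set X)
    (Q : I → X → X → Prop) {β γ : ℝ} (hβ : 0 ≤ β) (hd : ∀ i y z, 0 ≤ d i y z)
    (h : ∀ T : ℝ, 0 < T → ∃ T' : ℝ, 0 < T' ∧ ∃ k : ℕ, ∀ᶠ i in l, ∃ Φ : X → Eu k,
      (∀ y ∈ M, ∀ z ∈ M, ‖Φ y - Φ z‖ ≤ γ * d i y z) ∧
        ∀ y ∈ M, ∀ z ∈ M, Q i y z → (T ≤ d i y z ∨ d i y z ≤ T') →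
          β * d i y z ≤ ‖Φ y - Φ z‖) (m : ℕ) :
    ∃ T : ℝ, 0 < T ∧ ∃ k : ℕ, ∀ᶠ i in l, ∃ Φ : X → Eu k,
      (∀ y ∈ M, ∀ z ∈ M, ‖Φ y - Φ z‖ ^ 2 ≤ m * (γ * d i y z) ^ 2) ∧
        ∀ y ∈ M, ∀ z ∈ M, Q i y z → ((m : ℝ) - 1) * (β * d i y z) ^ 2 ≤ ‖Φ y - Φ z‖ ^ 2 ∧
          (d i y z ≤ T → m * (β * d i y z) ^ 2 ≤ ‖Φ y - Φ z‖ ^ 2) := by
  induction m with
  | zero =>
    refine ⟨1, one_pos, 0, Eventually.of_forall fun i => ⟨fun _ => 0, fun y _ z _ => by simp,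
      fun y _ z _ _ => ⟨?_, fun _ => by simp⟩⟩⟩
    simp [sq_nonneg]
  | succ m ih =>
    obtain ⟨T, hT, k, h1⟩ := ih
    obtain ⟨T', hT', k', h2⟩ := h T hT
    refine ⟨min T T', lt_min hT hT', k + k', (h1.and h2).mono ?_⟩
    rintro i ⟨⟨A, a1, a2⟩, B, b1, b2⟩
    obtain ⟨C, hC⟩ := exists_pair_map A B
    have b3 : ∀ y ∈ M, ∀ z ∈ M, Q i y z → (T ≤ d i y z ∨ d i y z ≤ T') →
        (β * d i y z) ^ 2 ≤ ‖B y - B z‖ ^ 2 := fun y hy z hz hq hr =>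
      pow_le_pow_left₀ (mul_nonneg hβ (hd i y z)) (b2 y hy z hz hq hr) 2
    refine ⟨C, fun y hy z hz => ?_, fun y hy z hz hq => ⟨?_, fun hr => ?_⟩⟩
    · have := pow_le_pow_left₀ (norm_nonneg _) (b1 y hy z hz) 2
      rw [hC, Nat.cast_succ]
      linarith [a1 y hy z hz]
    · rw [hC, Nat.cast_succ]
      rcases le_total T (d i y z) with hr | hr
      · linarith [(a2 y hy z hz hq).1, b3 y hy z hz hq (Or.inl hr)]
      · linarith [(a2 y hy z hz hq).2 hr, sq_nonneg ‖B y - B z‖]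
    · rw [hC, Nat.cast_succ]
      linarith [(a2 y hy z hz hq).2 (hr.trans (min_le_left _ _)),
        b3 y hy z hz hq (Or.inr (hr.trans (min_le_right _ _)))]

theorem windows {I X : Type} (l : Filter I) (d : I → X → X → ℝ) (M : Set X)
    (Q : I → X → X → Prop) {β β' γ : ℝ} (hβ' : 0 ≤ β') (hβ : β' < β) (hγ : 0 ≤ γ)
    (hd : ∀ i y z, 0 ≤ d i y z)
    (h : ∀ T : ℝ, 0 < T → ∃ T' : ℝ, 0 < T' ∧ ∃ k : ℕ, ∀ᶠ i in l, ∃ Φ : X → Eu k,
      (∀ y ∈ M, ∀ z ∈ M, ‖Φ y - Φ z‖ ≤ γ * d i y z) ∧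
        ∀ y ∈ M, ∀ z ∈ M, Q i y z → (T ≤ d i y z ∨ d i y z ≤ T') →
          β * d i y z ≤ ‖Φ y - Φ z‖) :
    ∃ k : ℕ, ∀ᶠ i in l, ∃ Φ : X → Eu k,
      (∀ y ∈ M, ∀ z ∈ M, ‖Φ y - Φ z‖ ≤ γ * d i y z) ∧
        ∀ y ∈ M, ∀ z ∈ M, Q i y z → β' * d i y z ≤ ‖Φ y - Φ z‖ := by
  have h0 : 0 < β := hβ'.trans_lt hβ
  have h1 : 0 < β ^ 2 - β' ^ 2 := by nlinarith
  obtain ⟨m, hm⟩ := exists_nat_ge (β ^ 2 / (β ^ 2 - β' ^ 2))
  have hm0 : (0 : ℝ) < m := lt_of_lt_of_le (by positivity) hm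
  rw [div_le_iff₀ h1] at hm
  obtain ⟨T, -, k, h2⟩ := Fold_ind l d M Q h0.le hd h m
  refine ⟨k, h2.mono ?_⟩
  rintro i ⟨A, a1, a2⟩
  have e : ∀ y z, (m : ℝ) * ‖(√m)⁻¹ • A y - (√m)⁻¹ • A z‖ ^ 2 = ‖A y - A z‖ ^ 2 := fun y z => by
    rw [← smul_sub, norm_smul, mul_pow, Real.norm_eq_abs, sq_abs, inv_pow, Real.sq_sqrt hm0.le,
      ← mul_assoc, mul_inv_cancel₀ hm0.ne', one_mul]
  refine ⟨fun y => (√m)⁻¹ • A y, fun y hy z hz => ?_, fun y hy z hz hq => ?_⟩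
  · rw [← sq_le_sq₀ (norm_nonneg _) (mul_nonneg hγ (hd i y z)), ← mul_le_mul_iff_right₀ hm0, e]
    exact a1 y hy z hz
  · rw [← sq_le_sq₀ (mul_nonneg hβ' (hd i y z)) (norm_nonneg _), ← mul_le_mul_iff_right₀ hm0, e]
    refine le_trans ?_ (a2 y hy z hz hq).1
    rw [mul_pow, mul_pow, ← mul_assoc, ← mul_assoc]
    exact mul_le_mul_of_nonneg_right (by linarith) (sq_nonneg _)

end Pool.Agent.Work.MP_0ba68b_gt.Apx
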