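import Pool.Agent.Work.MP_0ba68b_gt.Apx.Eu
import Mathlib.Analysis.SpecialFunctions.Pow.Real
import Mathlib.Analysis.SpecialFunctions.Trigonometric.Bounds

/-!
Gluing maps that are good on annuli, along the logarithm of the distance to a base point.

Λ = exp ℓ with ℓ large, σ y = d y o, u y = log (σ y) / ℓ. For a = 0, 1 let J a u be the integer
congruent to a mod 2 with J a u - 1 ≤ u < J a u + 1; the weight cos (π/2 * (u - a)) vanishes where
J a jumps. Φ y is the pair of the weighted vectors G (J a (u y)) y - G (J a (u y)) o. For σ z ≤ σ y,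
Φ y - Φ z is the pair of the weighted G j y - G j z, j = J a (u y), up to an error of norm at most
4 γ |u y - u z| σ z ≤ 4 γ d y z / ℓ.
-/

namespace Pool.Agent.Work.MP_0ba68b_gt.Apx

lemma glue_lip (a u v : ℝ) :
    |Real.cos (Real.pi / 2 * (u - a)) - Real.cos (Real.pi / 2 * (v - a))| ≤ 2 * |u - v| := by
  refine (Real.abs_cos_sub_cos_le _ _).trans ?_
  have e : Real.pi / 2 * (u - a) - Real.pi / 2 * (v - a) = Real.pi / 2 * (u - v) := by ring
  rw [e, abs_mul, abs_of_pos (half_pos Real.pi_pos)]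
  exact mul_le_mul_of_nonneg_right (by linarith [Real.pi_le_four]) (abs_nonneg _)

lemma glue_J (a : ℤ) : ∃ J : ℝ → ℤ, (∀ u, (J u : ℝ) - 1 ≤ u ∧ u ≤ J u + 1) ∧
    ∀ u v, v ≤ u → J u = J v ∨
      |Real.cos (Real.pi / 2 * (u - a))| + |Real.cos (Real.pi / 2 * (v - a))| ≤ 2 * |u - v| := by
  refine ⟨fun u => 2 * ⌊(u + 1 - a) / 2⌋ + a, fun u => ?_, fun u v h => ?_⟩
  · have h1 := Int.floor_le ((u + 1 - a) / 2)
    have h2 := Int.lt_floor_add_one ((u + 1 - a) / 2)
    push_cast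
    constructor <;> linarith
  · by_cases e : ⌊(u + 1 - a) / 2⌋ = ⌊(v + 1 - a) / 2⌋
    · exact Or.inl (by simp only [e])
    right
    have h1 : ⌊(v + 1 - a) / 2⌋ ≤ ⌊(u + 1 - a) / 2⌋ := Int.floor_le_floor (by linarith)
    have h2 : ((⌊(v + 1 - a) / 2⌋ + 1 : ℤ) : ℝ) ≤ (⌊(u + 1 - a) / 2⌋ : ℤ) :=
      Int.cast_le.2 (by omega)
    have h3 := Int.floor_le ((u + 1 - a) / 2)
    have h4 := Int.lt_floor_add_one ((v + 1 - a) / 2)
    generalize ⌊(u + 1 - a) / 2⌋ = m at h2 h3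
    have h5 : Real.cos (Real.pi / 2 * ((2 * m + a - 1 : ℝ) - a)) = 0 :=
      Real.cos_eq_zero_iff.2 ⟨m - 1, by push_cast; ring⟩
    have h6 := glue_lip a u (2 * m + a - 1)
    have h7 := glue_lip a v (2 * m + a - 1)
    rw [h5, sub_zero] at h6 h7
    push_cast at h2
    rw [abs_of_nonneg (by linarith : 0 ≤ u - (2 * m + a - 1))] at h6
    rw [abs_of_nonpos (by linarith : v - (2 * m + a - 1) ≤ 0)] at h7
    rw [abs_of_nonneg (by linarith : 0 ≤ u - v)]
    linarith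

lemma glue_err {E : Type} [NormedAddCommGroup E] [NormedSpace ℝ E] {s t r C : ℝ} {i j : ℤ}
    (h1 : |s - t| ≤ r) (h2 : i = j ∨ |s| + |t| ≤ r) {g : ℤ → E} (hg : ∀ j, ‖g j‖ ≤ C) :
    ‖s • g i - t • g j‖ ≤ r * C := by
  have hC : 0 ≤ C := (norm_nonneg _).trans (hg 0)
  rcases h2 with rfl | h2
  · rw [← sub_smul, norm_smul, Real.norm_eq_abs]
    exact mul_le_mul h1 (hg i) (norm_nonneg _) ((abs_nonneg _).trans h1)
  · refine (norm_sub_le _ _).trans ?_
    rw [norm_smul, norm_smul, Real.norm_eq_abs, Real.norm_eq_abs]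
    have h3 := mul_le_mul_of_nonneg_left (hg i) (abs_nonneg s)
    have h4 := mul_le_mul_of_nonneg_left (hg j) (abs_nonneg t)
    have h5 := mul_le_mul_of_nonneg_right h2 hC
    linarith

lemma glue_log {x y : ℝ} (hy : 0 ≤ y) (h : y ≤ x) : |Real.log x - Real.log y| * y ≤ x - y := by
  rcases hy.eq_or_lt with e | hy
  · rw [← e, mul_zero]
    linarith
  have hx : 0 < x := hy.trans_le h
  rw [abs_of_nonneg (sub_nonneg.2 (Real.log_le_log hy h)), ← Real.log_div hx.ne' hy.ne']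
  have h1 := mul_le_mul_of_nonneg_right (Real.log_le_sub_one_of_pos (div_pos hx hy)) hy.le
  rwa [sub_mul, div_mul_cancel₀ _ hy.ne', one_mul] at h1

theorem glue {β β' γ γ' : ℝ} (hβ' : 0 ≤ β') (hβ : β' < β) (hγ : 0 < γ) (hγ' : γ < γ') :
    ∃ Λ : ℝ, 1 < Λ ∧ ∀ (X : Type) (d : X → X → ℝ) (M : Set X) (o : X) (k : ℕ)
      (G : ℤ → X → Eu k),
      (∀ y z, 0 ≤ d y z) → (∀ y, d y y = 0) → (∀ y z, d y z = d z y) →
      (∀ x y z, d x z ≤ d x y + d y z) → o ∈ M →
      (∀ j, ∀ y ∈ M, ∀ z ∈ M, ‖G j y - G j z‖ ≤ γ * d y z) →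
      (∀ j : ℤ, ∀ y ∈ M, ∀ z ∈ M, Λ ^ (j - 1) ≤ d y o → d y o ≤ Λ ^ (j + 1) →
        d z o ≤ Λ ^ (j + 1) → β * d y z ≤ ‖G j y - G j z‖) →
      ∃ (k' : ℕ) (Φ : X → Eu k'), ∀ y ∈ M, ∀ z ∈ M,
        β' * d y z ≤ ‖Φ y - Φ z‖ ∧ ‖Φ y - Φ z‖ ≤ γ' * d y z := by
  obtain ⟨ε, hε, e1, e2⟩ : ∃ ε : ℝ, 0 < ε ∧ ε ≤ β - β' ∧ ε ≤ γ' - γ :=
    ⟨min (β - β') (γ' - γ), lt_min (by linarith) (by linarith), min_le_left _ _, min_le_right _ _⟩
  obtain ⟨l, hl, el⟩ : ∃ l : ℝ, 0 < l ∧ 4 * γ = ε * l :=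
    ⟨4 * γ / ε, by positivity, by field_simp⟩
  refine ⟨Real.exp l, Real.one_lt_exp_iff.2 hl, ?_⟩
  intro X d M o k G d0 d1 d2 d3 ho hU hL
  obtain ⟨J, a1, a2⟩ := glue_J 0
  obtain ⟨J', b1, b2⟩ := glue_J 1
  obtain ⟨P, p1, p2⟩ := exists_pair k k
  let u : X → ℝ := fun y => Real.log (d y o) / l
  let c : ℤ → X → ℝ := fun a y => Real.cos (Real.pi / 2 * (u y - a))
  have hc : ∀ y, c 0 y ^ 2 + c 1 y ^ 2 = 1 := fun y => by
    have e : Real.pi / 2 * (u y - (1 : ℤ)) = Real.pi / 2 * (u y - (0 : ℤ)) - Real.pi / 2 := by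
      push_cast
      ring
    simp only [c]
    rw [e, Real.cos_sub_pi_div_two, Real.cos_sq_add_sin_sq]
  let Φ : X → Eu (k + k) := fun y =>
    P (c 0 y • (G (J (u y)) y - G (J (u y)) o)) (c 1 y • (G (J' (u y)) y - G (J' (u y)) o))
  have key : ∀ y ∈ M, ∀ z ∈ M, d z o ≤ d y o →
      β' * d y z ≤ ‖Φ y - Φ z‖ ∧ ‖Φ y - Φ z‖ ≤ γ' * d y z := by
    intro y hy z hz hzy
    have hd := d0 y z
    have herr : ∀ (a : ℤ) (I : ℝ → ℤ), (∀ u v, v ≤ u → I u = I v ∨
        |Real.cos (Real.pi / 2 * (u - a))| + |Real.cos (Real.pi / 2 * (v - a))| ≤ 2 * |u - v|) →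
        ‖c a y • (G (I (u y)) y - G (I (u y)) o) - c a z • (G (I (u z)) z - G (I (u z)) o) -
          c a y • (G (I (u y)) y - G (I (u y)) z)‖ ≤ ε / 2 * d y z := by
      intro a I hI
      have e : c a y • (G (I (u y)) y - G (I (u y)) o) - c a z • (G (I (u z)) z - G (I (u z)) o) -
          c a y • (G (I (u y)) y - G (I (u y)) z) =
          c a y • (G (I (u y)) z - G (I (u y)) o) - c a z • (G (I (u z)) z - G (I (u z)) o) := by
        module
      have h2 : I (u y) = I (u z) ∨ |c a y| + |c a z| ≤ 2 * |u y - u z| := by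
        rcases le_total (u z) (u y) with h | h
        · exact hI _ _ h
        · rw [abs_sub_comm, add_comm, eq_comm]
          exact hI _ _ h
      rw [e]
      refine (glue_err (g := fun j => G j z - G j o) (glue_lip a (u y) (u z)) h2
        fun j => hU j z hz o ho).trans ?_
      have h3 := glue_log (d0 z o) hzy
      have h4 := d3 y z o
      have h5 : |u y - u z| = |Real.log (d y o) - Real.log (d z o)| / l := by
        simp only [u]
        rw [← sub_div, abs_div, abs_of_pos hl]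
      have h6 : 2 * (|Real.log (d y o) - Real.log (d z o)| / l) * (γ * d z o) =
          ε / 2 * (|Real.log (d y o) - Real.log (d z o)| * d z o) := by
        have h7 : γ = ε * l / 4 := by linarith
        rw [h7]
        field_simp
        ring
      rw [h5, h6]
      exact mul_le_mul_of_nonneg_left (by linarith) (half_pos hε).le
    set A := P (c 0 y • (G (J (u y)) y - G (J (u y)) z)) (c 1 y • (G (J' (u y)) y - G (J' (u y)) z))
      with hA
    have hB : ‖Φ y - Φ z - A‖ ≤ ε * d y z := by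
      refine le_of_pow_le_pow_left₀ two_ne_zero (mul_nonneg hε.le hd) ?_
      simp only [Φ, hA]
      rw [p2, p2, p1]
      have h1 := pow_le_pow_left₀ (norm_nonneg _) (herr 0 J a2) 2
      have h2 := pow_le_pow_left₀ (norm_nonneg _) (herr 1 J' b2) 2
      nlinarith [sq_nonneg (ε * d y z)]
    have hA2 : ‖A‖ ^ 2 = c 0 y ^ 2 * ‖G (J (u y)) y - G (J (u y)) z‖ ^ 2 +
        c 1 y ^ 2 * ‖G (J' (u y)) y - G (J' (u y)) z‖ ^ 2 := by
      rw [hA, p1, norm_smul, norm_smul, mul_pow, mul_pow, Real.norm_eq_abs, Real.norm_eq_abs,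
        sq_abs, sq_abs]
    have hup : ‖A‖ ≤ γ * d y z := by
      refine le_of_pow_le_pow_left₀ two_ne_zero (mul_nonneg hγ.le hd) ?_
      have h1 := mul_le_mul_of_nonneg_left
        (pow_le_pow_left₀ (norm_nonneg _) (hU (J (u y)) y hy z hz) 2) (sq_nonneg (c 0 y))
      have h2 := mul_le_mul_of_nonneg_left
        (pow_le_pow_left₀ (norm_nonneg _) (hU (J' (u y)) y hy z hz) 2) (sq_nonneg (c 1 y))
      have h3 : c 0 y ^ 2 * (γ * d y z) ^ 2 + c 1 y ^ 2 * (γ * d y z) ^ 2 = (γ * d y z) ^ 2 := by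
        rw [← add_mul, hc, one_mul]
      linarith
    have hlo : β * d y z ≤ ‖A‖ := by
      rcases (d0 y o).eq_or_lt with h0 | h0
      · have h1 := d3 y o z
        rw [d2 o z] at h1
        have h2 : d y z = 0 := by linarith
        rw [h2, mul_zero]
        exact norm_nonneg _
      have hj : ∀ j : ℤ, (j : ℝ) - 1 ≤ u y ∧ u y ≤ j + 1 → β * d y z ≤ ‖G j y - G j z‖ := by
        rintro j ⟨h1, h2⟩
        have h3 : d y o ≤ Real.exp l ^ (j + 1) := by
          rw [Real.le_zpow_iff_log_le h0 (Real.exp_pos l), Real.log_exp]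
          push_cast
          exact (div_le_iff₀ hl).1 h2
        refine hL j y hy z hz ?_ h3 (hzy.trans h3)
        rw [Real.zpow_le_iff_le_log (Real.exp_pos l) h0, Real.log_exp]
        push_cast
        exact (le_div_iff₀ hl).1 h1
      have hb : 0 ≤ β * d y z := mul_nonneg (by linarith) hd
      refine le_of_pow_le_pow_left₀ two_ne_zero (norm_nonneg _) ?_
      have h1 := mul_le_mul_of_nonneg_left
        (pow_le_pow_left₀ hb (hj _ (a1 (u y))) 2) (sq_nonneg (c 0 y))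
      have h2 := mul_le_mul_of_nonneg_left
        (pow_le_pow_left₀ hb (hj _ (b1 (u y))) 2) (sq_nonneg (c 1 y))
      have h3 : c 0 y ^ 2 * (β * d y z) ^ 2 + c 1 y ^ 2 * (β * d y z) ^ 2 = (β * d y z) ^ 2 := by
        rw [← add_mul, hc, one_mul]
      linarith
    have h1 := abs_le.1 ((abs_norm_sub_norm_le (Φ y - Φ z) A).trans hB)
    have h2 := mul_le_mul_of_nonneg_right e1 hd
    have h3 := mul_le_mul_of_nonneg_right e2 hd
    constructor <;> linarith [h1.1, h1.2]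
  refine ⟨k + k, Φ, fun y hy z hz => ?_⟩
  rcases le_total (d z o) (d y o) with h | h
  · exact key y hy z hz h
  · rw [d2, norm_sub_rev]
    exact key z hz y hy h

end Pool.Agent.Work.MP_0ba68b_gt.Apx
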