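import Mathlib.Analysis.InnerProductSpace.PiL2
import Mathlib.Analysis.Normed.Module.FiniteDimension

/-!
Closed groups of affine isometries of a finite dimensional Euclidean space, written as sets of
pairs (linear part, translation part), and the quotient distance.
-/

namespace Pool.Agent.Work.MP_0ba68b_gt.Apx

noncomputable section

/-- Euclidean space of dimension `k`. -/
abbrev Eu (k : ℕ) : Type := EuclideanSpace ℝ (Fin k)

variable {V : Type} [NormedAddCommGroup V] [InnerProductSpace ℝ V]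

/-- The action of a pair. -/
def act (g : (V →L[ℝ] V) × V) (v : V) : V := g.1 v + g.2

/-- A closed group of affine isometries. -/
structure AGrp (V : Type) [NormedAddCommGroup V] [InnerProductSpace ℝ V] where
  car : Set ((V →L[ℝ] V) × V)
  one_mem : ((1 : V →L[ℝ] V), (0 : V)) ∈ car
  mul_mem : ∀ g ∈ car, ∀ h ∈ car, (g.1 * h.1, g.1 h.2 + g.2) ∈ car
  inv_mem : ∀ g ∈ car, ∃ h ∈ car, h.1 * g.1 = 1 ∧ g.1 * h.1 = 1 ∧ h.1 g.2 + h.2 = 0
  iso : ∀ g ∈ car, ∀ v, ‖g.1 v‖ = ‖v‖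
  closed : IsClosed car

lemma act_one (v : V) : act ((1 : V →L[ℝ] V), (0 : V)) v = v := by simp [act]

lemma act_mul (g h : (V →L[ℝ] V) × V) (v : V) :
    act (g.1 * h.1, g.1 h.2 + g.2) v = act g (act h v) := by
  simp [act, add_assoc]

lemma act_sub (g : (V →L[ℝ] V) × V) (y z : V) : act g y - act g z = g.1 (y - z) := by
  simp [act]

namespace AGrp

variable (S : AGrp V)

lemma norm_act_sub {g : (V →L[ℝ] V) × V} (hg : g ∈ S.car) (y z : V) :
    ‖act g y - act g z‖ = ‖y - z‖ := by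
  rw [act_sub, S.iso g hg]

lemma inner_iso {g : (V →L[ℝ] V) × V} (hg : g ∈ S.car) (y z : V) :
    inner ℝ (g.1 y) (g.1 z) = inner ℝ y z := by
  rw [real_inner_eq_norm_add_mul_self_sub_norm_mul_self_sub_norm_mul_self_div_two,
    real_inner_eq_norm_add_mul_self_sub_norm_mul_self_sub_norm_mul_self_div_two, ← map_add,
    S.iso g hg, S.iso g hg, S.iso g hg]

lemma opNorm_le {g : (V →L[ℝ] V) × V} (hg : g ∈ S.car) : ‖g.1‖ ≤ 1 :=
  ContinuousLinearMap.opNorm_le_bound _ zero_le_one fun v => by rw [S.iso g hg, one_mul]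

/-- Inverses, in terms of the action. -/
lemma exists_inv {g : (V →L[ℝ] V) × V} (hg : g ∈ S.car) :
    ∃ h ∈ S.car, (∀ v, h.1 (g.1 v) = v) ∧ (∀ v, g.1 (h.1 v) = v) ∧
      (∀ v, act h (act g v) = v) ∧ (∀ v, act g (act h v) = v) := by
  obtain ⟨h, hh, e1, e2, e3⟩ := S.inv_mem g hg
  have a1 : ∀ v, h.1 (g.1 v) = v := fun v => by
    have := congrArg (fun A : V →L[ℝ] V => A v) e1
    simpa using this
  have a2 : ∀ v, g.1 (h.1 v) = v := fun v => by
    have := congrArg (fun A : V →L[ℝ] V => A v) e2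
    simpa using this
  refine ⟨h, hh, a1, a2, fun v => ?_, fun v => ?_⟩
  · simp only [act, map_add, a1, add_assoc, e3, add_zero]
  · have e4 : g.1 h.2 + g.2 = 0 := by
      have := congrArg g.1 e3
      rw [map_add, a2, map_zero, add_comm] at this
      exact this
    simp only [act, map_add, a2, add_assoc, e4, add_zero]

/-- The quotient distance. -/
def d (y z : V) : ℝ := sInf {r | ∃ g ∈ S.car, r = ‖y - act g z‖}

lemma d_bdd (y z : V) : BddBelow {r | ∃ g ∈ S.car, r = ‖y - act g z‖} :=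
  ⟨0, by rintro r ⟨g, -, rfl⟩; exact norm_nonneg _⟩

lemma d_le {g : (V →L[ℝ] V) × V} (hg : g ∈ S.car) (y z : V) : S.d y z ≤ ‖y - act g z‖ :=
  csInf_le (S.d_bdd y z) ⟨g, hg, rfl⟩

lemma d_le_norm (y z : V) : S.d y z ≤ ‖y - z‖ := by
  have := S.d_le S.one_mem y z
  rwa [act_one] at this

lemma le_d {y z : V} {c : ℝ} (h : ∀ g ∈ S.car, c ≤ ‖y - act g z‖) : c ≤ S.d y z :=
  le_csInf ⟨_, _, S.one_mem, rfl⟩ (by rintro r ⟨g, hg, rfl⟩; exact h g hg)

lemma d_nonneg (y z : V) : 0 ≤ S.d y z := S.le_d fun _ _ => norm_nonneg _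

lemma d_self (y : V) : S.d y y = 0 :=
  le_antisymm ((S.d_le_norm y y).trans (by simp)) (S.d_nonneg y y)

lemma d_comm (y z : V) : S.d y z = S.d z y := by
  have key : ∀ y z : V, S.d y z ≤ S.d z y := fun y z => S.le_d fun g hg => by
    obtain ⟨h, hh, -, -, e, -⟩ := S.exists_inv hg
    calc S.d y z ≤ ‖y - act h z‖ := S.d_le hh y z
      _ = ‖act h (act g y) - act h z‖ := by rw [e]
      _ = ‖z - act g y‖ := by rw [S.norm_act_sub hh, norm_sub_rev]
  exact le_antisymm (key y z) (key z y)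

lemma d_act_right {g : (V →L[ℝ] V) × V} (hg : g ∈ S.car) (y z : V) :
    S.d y (act g z) = S.d y z := by
  have key : ∀ g ∈ S.car, ∀ z : V, S.d y z ≤ S.d y (act g z) := fun g hg z =>
    S.le_d fun h hh => by
      have := S.d_le (S.mul_mem h hh g hg) y z
      rwa [act_mul] at this
  obtain ⟨h, hh, -, -, e, -⟩ := S.exists_inv hg
  refine le_antisymm ?_ (key g hg z)
  have := key h hh (act g z)
  rwa [e] at this

lemma d_act_left {g : (V →L[ℝ] V) × V} (hg : g ∈ S.car) (y z : V) :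
    S.d (act g y) z = S.d y z := by
  rw [S.d_comm, S.d_act_right hg, S.d_comm]

lemma d_triangle (x y z : V) : S.d x z ≤ S.d x y + S.d y z := by
  have h1 : S.d x z - S.d y z ≤ S.d x y := S.le_d fun g hg => by
    have h2 : S.d x z - ‖x - act g y‖ ≤ S.d y z := S.le_d fun h hh => by
      have h3 := S.d_le (S.mul_mem g hg h hh) x z
      rw [act_mul] at h3
      have h4 : ‖x - act g (act h z)‖ ≤ ‖x - act g y‖ + ‖act g y - act g (act h z)‖ :=
        norm_sub_le_norm_sub_add_norm_sub _ _ _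
      rw [S.norm_act_sub hg] at h4
      linarith
    linarith
  linarith

lemma abs_d_sub_le (x y z : V) : |S.d x z - S.d y z| ≤ ‖x - y‖ := by
  have h1 := S.d_triangle x y z
  have h2 := S.d_triangle y x z
  have h3 := S.d_le_norm x y
  have h4 := S.d_comm x y
  rw [abs_le]
  constructor <;> linarith

lemma isCompact_bdd [FiniteDimensional ℝ V] (R : ℝ) :
    IsCompact (S.car ∩ {g | ‖g.2‖ ≤ R}) := by
  have hc : IsClosed (S.car ∩ {g | ‖g.2‖ ≤ R}) :=
    S.closed.inter (isClosed_le (by fun_prop) continuous_const)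
  refine Metric.isCompact_of_isClosed_isBounded hc ?_
  refine (Metric.isBounded_closedBall (x := (0 : (V →L[ℝ] V) × V)) (r := max 1 R)).subset ?_
  rintro g ⟨hg, hb⟩
  rw [mem_closedBall_zero_iff, Prod.norm_def]
  exact max_le_max (S.opNorm_le hg) hb

/-- The quotient distance is attained. -/
lemma exists_d [FiniteDimensional ℝ V] (y z : V) : ∃ g ∈ S.car, S.d y z = ‖y - act g z‖ := by
  have hc := S.isCompact_bdd (2 * (‖y‖ + ‖z‖))
  have hne : (S.car ∩ {g | ‖g.2‖ ≤ 2 * (‖y‖ + ‖z‖)}).Nonempty :=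
    ⟨_, S.one_mem, by simp only [Set.mem_ofPred_eq, norm_zero]; positivity⟩
  have hcont : Continuous fun g : (V →L[ℝ] V) × V => ‖y - act g z‖ := by
    unfold act
    fun_prop
  obtain ⟨g, ⟨hg, -⟩, hmin⟩ := hc.exists_isMinOn hne hcont.continuousOn
  refine ⟨g, hg, le_antisymm (S.d_le hg y z) (S.le_d fun h hh => ?_)⟩
  by_cases hb : ‖h.2‖ ≤ 2 * (‖y‖ + ‖z‖)
  · exact hmin ⟨hh, hb⟩
  · have h1 : ‖y - act g z‖ ≤ ‖y - act ((1 : V →L[ℝ] V), (0 : V)) z‖ :=
      hmin ⟨S.one_mem, by simp only [Set.mem_ofPred_eq, norm_zero]; positivity⟩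
    rw [act_one] at h1
    have h2 : ‖y - z‖ ≤ ‖y‖ + ‖z‖ := norm_sub_le _ _
    have h3 : ‖h.2‖ ≤ ‖y - act h z‖ + ‖y‖ + ‖z‖ := by
      have e : h.2 = -(y - act h z) + y - h.1 z := by simp [act]
      calc ‖h.2‖ = ‖-(y - act h z) + y - h.1 z‖ := by rw [← e]
        _ ≤ ‖-(y - act h z) + y‖ + ‖h.1 z‖ := norm_sub_le _ _
        _ ≤ ‖-(y - act h z)‖ + ‖y‖ + ‖h.1 z‖ := by gcongr; exact norm_add_le _ _
        _ = _ := by rw [norm_neg, S.iso h hh]
    linarith [not_le.mp hb]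

/-- Midpoints inside an invariant subspace. -/
lemma exists_mid [FiniteDimensional ℝ V] {M : Submodule ℝ V}
    (hM : ∀ g ∈ S.car, ∀ v ∈ M, act g v ∈ M) {y z : V} (hy : y ∈ M) (hz : z ∈ M) :
    ∃ m ∈ M, S.d y m ≤ S.d y z / 2 ∧ S.d m z ≤ S.d y z / 2 := by
  obtain ⟨g, hg, e⟩ := S.exists_d y z
  refine ⟨(1 / 2 : ℝ) • (y + act g z), M.smul_mem _ (M.add_mem hy (hM g hg z hz)), ?_, ?_⟩
  · refine (S.d_le_norm _ _).trans (le_of_eq ?_)
    have : y - (1 / 2 : ℝ) • (y + act g z) = (1 / 2 : ℝ) • (y - act g z) := by module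
    rw [this, norm_smul, e, Real.norm_eq_abs, abs_of_pos (by norm_num : (0 : ℝ) < 1 / 2)]
    ring
  · refine (S.d_le hg _ _).trans (le_of_eq ?_)
    have : (1 / 2 : ℝ) • (y + act g z) - act g z = (1 / 2 : ℝ) • (y - act g z) := by module
    rw [this, norm_smul, e, Real.norm_eq_abs, abs_of_pos (by norm_num : (0 : ℝ) < 1 / 2)]
    ring

/-- The subgroup of the elements fixing the point `(p, c)` in homogeneous coordinates: for
`c = 1` the stabilizer of the point `p`, for `c = 0` the elements whose linear part fixes `p`. -/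
def fixer (p : V) (c : ℝ) : AGrp V where
  car := {g | g ∈ S.car ∧ g.1 p + c • g.2 = p}
  one_mem := ⟨S.one_mem, by simp⟩
  mul_mem := fun g hg h hh => ⟨S.mul_mem g hg.1 h hh.1, by
    have e1 := hg.2
    have e2 := congrArg g.1 hh.2
    rw [map_add, map_smul] at e2
    simp only [mul_apply_eq_comp, smul_add]
    rw [← add_assoc, e2, e1]⟩
  inv_mem := fun g hg => by
    obtain ⟨h, hh, e1, e2, e3⟩ := S.inv_mem g hg.1
    refine ⟨h, ⟨hh, ?_⟩, e1, e2, e3⟩
    have a1 : h.1 (g.1 p) = p := by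
      have := congrArg (fun A : V →L[ℝ] V => A p) e1
      simpa using this
    have e4 := congrArg h.1 hg.2
    rw [map_add, map_smul, a1] at e4
    have e5 : h.2 = -h.1 g.2 := eq_neg_of_add_eq_zero_right e3
    rw [← e4, e5, smul_neg]
    abel
  iso := fun g hg => S.iso g hg.1
  closed := S.closed.inter (isClosed_eq (by fun_prop) continuous_const)

lemma mem_fixer {p : V} {c : ℝ} {g : (V →L[ℝ] V) × V} :
    g ∈ (S.fixer p c).car ↔ g ∈ S.car ∧ g.1 p + c • g.2 = p := Iff.rfl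

lemma d_le_fixer (p : V) (c : ℝ) (y z : V) : S.d y z ≤ (S.fixer p c).d y z :=
  (S.fixer p c).le_d fun _ hg => S.d_le hg.1 y z

/-- The group seen from the origin `x`. -/
def shift (x : V) : AGrp V where
  car := {g | (g.1, g.2 + x - g.1 x) ∈ S.car}
  one_mem := by simpa using S.one_mem
  mul_mem := fun g hg h hh => by
    have := S.mul_mem _ hg _ hh
    simp only [Set.mem_ofPred_eq, mul_apply_eq_comp]
    convert this using 2
    simp only [map_sub, map_add]
    abel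
  inv_mem := fun g hg => by
    obtain ⟨h, hh, e1, e2, e3⟩ := S.inv_mem _ hg
    refine ⟨(h.1, h.2 + h.1 x - x), ?_, e1, e2, ?_⟩
    · simp only [Set.mem_ofPred_eq]
      convert hh using 2
      abel
    · have a1 : h.1 (g.1 x) = x := by
        have := congrArg (fun A : V →L[ℝ] V => A x) e1
        simpa using this
      simp only [map_sub, map_add, a1] at e3
      rw [← e3]
      abel_nf
  iso := fun g hg v => S.iso (g.1, g.2 + x - g.1 x) hg v
  closed := S.closed.preimage (by fun_prop)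

lemma mem_shift {x : V} {g : (V →L[ℝ] V) × V} :
    g ∈ (S.shift x).car ↔ (g.1, g.2 + x - g.1 x) ∈ S.car := Iff.rfl

lemma act_shift (x : V) (g : (V →L[ℝ] V) × V) (v : V) :
    act (g.1, g.2 + x - g.1 x) (x + v) = x + act g v := by
  simp only [act, map_add]
  abel

lemma shift_d (x y z : V) : (S.shift x).d y z = S.d (x + y) (x + z) := by
  refine le_antisymm (S.le_d fun g hg => ?_) ((S.shift x).le_d fun g hg => ?_)
  · have hm : (g.1, g.2 + g.1 x - x) ∈ (S.shift x).car := by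
      rw [mem_shift]
      convert hg using 2
      simp only
      abel
    refine ((S.shift x).d_le hm y z).trans (le_of_eq ?_)
    congr 1
    simp only [act, map_add]
    abel
  · refine (S.d_le hg _ _).trans (le_of_eq ?_)
    rw [act_shift, add_sub_add_left_eq_sub]

end AGrp

/-- `S` preserves the orthogonal subspaces `U` (as an affine subspace) and `W` (by the linear
parts), and the elements whose linear part is the identity on `W` act cocompactly on `U`. -/
structure Setup (S : AGrp V) (U W : Submodule ℝ V) (R : ℝ) : Prop where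
  orth : ∀ u ∈ U, ∀ w ∈ W, inner ℝ u w = 0
  tr : ∀ g ∈ S.car, g.2 ∈ U
  linU : ∀ g ∈ S.car, ∀ u ∈ U, g.1 u ∈ U
  linW : ∀ g ∈ S.car, ∀ w ∈ W, g.1 w ∈ W
  coc : ∀ u ∈ U, ∃ g ∈ S.car, (∀ w ∈ W, g.1 w = w) ∧ ‖act g u‖ ≤ R

/-- There are invariant short maps into Hilbert spaces which contract distances by at most the
factor `α` on larger and larger balls of `M`. -/
def Hyp (S : AGrp V) (M : Submodule ℝ V) (α : ℝ) : Prop :=
  ∀ ρ : ℝ, ∃ (H : Type) (_ : NormedAddCommGroup H) (_ : InnerProductSpace ℝ H) (F : V → H),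
    (∀ y z, ‖F y - F z‖ ≤ S.d y z) ∧
      ∀ y ∈ M, ∀ z ∈ M, ‖y‖ ≤ ρ → ‖z‖ ≤ ρ → α * S.d y z ≤ ‖F y - F z‖

/-- There are almost equally good maps into finite dimensional spaces. -/
def Good (S : AGrp V) (M : Submodule ℝ V) (α : ℝ) : Prop :=
  ∀ β < α, ∀ γ > (1 : ℝ), ∃ (k : ℕ) (Φ : V → Eu k), ∀ y ∈ M, ∀ z ∈ M,
    β * S.d y z ≤ ‖Φ y - Φ z‖ ∧ ‖Φ y - Φ z‖ ≤ γ * S.d y z

lemma Setup.act_mem {S : AGrp V} {U W : Submodule ℝ V} {R : ℝ} (h : Setup S U W R) :
    ∀ g ∈ S.car, ∀ v ∈ U ⊔ W, act g v ∈ U ⊔ W := by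
  intro g hg v hv
  obtain ⟨u, hu, w, hw, rfl⟩ := Submodule.mem_sup.mp hv
  refine Submodule.mem_sup.mpr ⟨g.1 u + g.2, U.add_mem (h.linU g hg u hu) (h.tr g hg),
    g.1 w, h.linW g hg w hw, ?_⟩
  simp only [act, map_add]
  abel

end

end Pool.Agent.Work.MP_0ba68b_gt.Apx
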