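import Pool.Agent.Work.MP_0ba68b_gt.Apx.Far
import Pool.Agent.Work.MP_0ba68b_gt.Apx.Glue

/-!
The two inductions on the dimension of the normal space.
-/

namespace Pool.Agent.Work.MP_0ba68b_gt.Apx

open Filter

variable {V : Type} [NormedAddCommGroup V] [InnerProductSpace ℝ V]

/-- Reduction to nonnegative lower constants, with room on both sides. -/
lemma good_of {S : AGrp V} {M : Submodule ℝ V} {α : ℝ} (hα : 0 < α)
    (h : ∀ β γ Λ : ℝ, 0 ≤ β → β < α → 1 < γ → 1 < Λ → ∃ (k : ℕ) (G : ℤ → V → Eu k),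
      (∀ j, ∀ y ∈ M, ∀ z ∈ M, ‖G j y - G j z‖ ≤ γ * S.d y z) ∧
      ∀ j : ℤ, ∀ y ∈ M, ∀ z ∈ M, Λ ^ (j - 1) ≤ S.d y 0 → S.d y 0 ≤ Λ ^ (j + 1) →
        S.d z 0 ≤ Λ ^ (j + 1) → β * S.d y z ≤ ‖G j y - G j z‖) :
    Good S M α := by
  intro β hβ γ hγ
  have b0 : 0 ≤ max β 0 := le_max_right _ _
  have b1 : max β 0 < α := max_lt hβ hα
  obtain ⟨Λ, hΛ, hg⟩ := glue (β := (max β 0 + α) / 2) (β' := max β 0) (γ := (1 + γ) / 2)
    (γ' := γ) b0 (by linarith) (by linarith) (by linarith)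
  obtain ⟨k, G, h1, h2⟩ := h ((max β 0 + α) / 2) ((1 + γ) / 2) Λ (by linarith) (by linarith)
    (by linarith) hΛ
  obtain ⟨k', Φ, hΦ⟩ := hg V S.d (M : Set V) 0 k G S.d_nonneg S.d_self S.d_comm S.d_triangle
    M.zero_mem h1 h2
  refine ⟨k', Φ, fun y hy z hz => ⟨le_trans ?_ (hΦ y hy z hz).1, (hΦ y hy z hz).2⟩⟩
  exact mul_le_mul_of_nonneg_right (le_max_left _ _) (S.d_nonneg y z)

variable [FiniteDimensional ℝ V]

lemma claimBelow_bot (m : ℕ) : ClaimBelow (⊥ : Submodule ℝ V) m := by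
  induction m with
  | zero => exact fun _ _ _ h => absurd h (Nat.not_lt_zero _)
  | succ m ih =>
    intro H W R hW hS α hα hα1 hH
    have ih' : ClaimBelow (⊥ : Submodule ℝ V) (Module.finrank ℝ W) :=
      fun H' W' R' h => ih H' W' R' (by omega)
    have h0 : ∀ g ∈ H.car, g.2 = 0 := fun g hg => (Submodule.mem_bot ℝ).mp (hS.tr g hg)
    refine good_of hα fun β γ Λ hβ0 hβ hγ hΛ => ?_
    have hΛ0 : 0 < Λ := by linarith
    obtain ⟨k, hk⟩ := far hS ih' hα1 hH hβ0 hβ hγ hΛ0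
    obtain ⟨lam, ⟨G, h1, h2⟩, l0⟩ := (hk.and (eventually_gt_atTop 0)).exists
    have tp : ∀ j : ℤ, 0 < lam / Λ ^ j := fun j => by positivity
    have hn : ∀ (j : ℤ) (y z : V), ‖(lam / Λ ^ j)⁻¹ • G ((lam / Λ ^ j) • y) -
        (lam / Λ ^ j)⁻¹ • G ((lam / Λ ^ j) • z)‖ =
        (lam / Λ ^ j)⁻¹ * ‖G ((lam / Λ ^ j) • y) - G ((lam / Λ ^ j) • z)‖ := fun j y z => by
      rw [← smul_sub, norm_smul, Real.norm_eq_abs, abs_of_pos (inv_pos.mpr (tp j))]
    have hz : ∀ (j : ℤ) (y : V), H.d ((lam / Λ ^ j) • y) 0 = lam / Λ ^ j * H.d y 0 :=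
      fun j y => by rw [← d_smul_lin h0 (tp j), smul_zero]
    refine ⟨k, fun j y => (lam / Λ ^ j)⁻¹ • G ((lam / Λ ^ j) • y), fun j y hy z hz' => ?_,
      fun j y hy z hz' a b c => ?_⟩
    · rw [hn, inv_mul_le_iff₀ (tp j), mul_left_comm, ← d_smul_lin h0 (tp j)]
      exact h1 _ (Submodule.smul_mem _ _ hy) _ (Submodule.smul_mem _ _ hz')
    · have e1 : lam / Λ = lam / Λ ^ j * Λ ^ (j - 1) := by
        rw [zpow_sub_one₀ hΛ0.ne']
        field_simp
      have e2 : lam * Λ = lam / Λ ^ j * Λ ^ (j + 1) := by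
        rw [zpow_add_one₀ hΛ0.ne']
        field_simp
      rw [hn, le_inv_mul_iff₀ (tp j), mul_left_comm, ← d_smul_lin h0 (tp j)]
      refine h2 _ (Submodule.smul_mem _ _ hy) _ (Submodule.smul_mem _ _ hz') ?_ ?_ ?_
      · rw [hz, e1]
        exact mul_le_mul_of_nonneg_left a (tp j).le
      · rw [hz, e2]
        exact mul_le_mul_of_nonneg_left b (tp j).le
      · rw [hz, e2]
        exact mul_le_mul_of_nonneg_left c (tp j).le

lemma claimLin : ClaimLin V := fun H W R hS =>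
  claimBelow_bot (Module.finrank ℝ W + 1) H W R (Nat.lt_succ_self _) hS

lemma claimBelow (U : Submodule ℝ V) (m : ℕ) : ClaimBelow U m := by
  induction m with
  | zero => exact fun _ _ _ h => absurd h (Nat.not_lt_zero _)
  | succ m ih =>
    intro H W R hW hS α hα hα1 hH
    have ih' : ClaimBelow U (Module.finrank ℝ W) := fun H' W' R' h => ih H' W' R' (by omega)
    refine good_of hα fun β γ Λ hβ0 hβ hγ hΛ => ?_
    have hΛ0 : 0 < Λ := by linarith
    obtain ⟨k, hk⟩ := far hS ih' hα1 hH hβ0 hβ hγ hΛ0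
    obtain ⟨lam₀, hl⟩ := eventually_atTop.mp hk
    obtain ⟨k', G', h1, h2⟩ := core claimLin hS.act_mem hα1 hH hβ0 hβ hγ (lam₀ * Λ)
    obtain ⟨e⟩ := exists_castLE (Nat.le_add_right k k')
    obtain ⟨e'⟩ := exists_castLE (Nat.le_add_left k' k)
    have key : ∀ j : ℤ, ∃ G : V → Eu (k + k'),
        (∀ y ∈ U ⊔ W, ∀ z ∈ U ⊔ W, ‖G y - G z‖ ≤ γ * H.d y z) ∧
        ∀ y ∈ U ⊔ W, ∀ z ∈ U ⊔ W, Λ ^ (j - 1) ≤ H.d y 0 → H.d y 0 ≤ Λ ^ (j + 1) →
          H.d z 0 ≤ Λ ^ (j + 1) → β * H.d y z ≤ ‖G y - G z‖ := fun j => by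
      rcases le_total lam₀ (Λ ^ j) with hj | hj
      · obtain ⟨G, g1, g2⟩ := hl _ hj
        refine ⟨fun y => e (G y), fun y hy z hz => ?_, fun y hy z hz a b c => ?_⟩
        · rw [← map_sub, e.norm_map]
          exact g1 y hy z hz
        · rw [← map_sub, e.norm_map]
          rw [zpow_sub_one₀ hΛ0.ne', ← div_eq_mul_inv] at a
          rw [zpow_add_one₀ hΛ0.ne'] at b c
          exact g2 y hy z hz a b c
      · refine ⟨fun y => e' (G' y), fun y hy z hz => ?_, fun y hy z hz _ b c => ?_⟩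
        · rw [← map_sub, e'.norm_map]
          exact h1 y hy z hz
        · rw [← map_sub, e'.norm_map]
          rw [zpow_add_one₀ hΛ0.ne'] at b c
          have := mul_le_mul_of_nonneg_right hj hΛ0.le
          exact h2 y hy z hz (b.trans this) (c.trans this)
    choose G g1 g2 using key
    exact ⟨k + k', G, g1, g2⟩

theorem good_of_setup {S : AGrp V} {U W : Submodule ℝ V} {R : ℝ} (hS : Setup S U W R) {α : ℝ}
    (hα : 0 < α) (hα1 : α ≤ 1) (hH : Hyp S (U ⊔ W) α) : Good S (U ⊔ W) α :=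
  claimBelow U (Module.finrank ℝ W + 1) S W R (Nat.lt_succ_self _) hS α hα hα1 hH

end Pool.Agent.Work.MP_0ba68b_gt.Apx
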