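import Pool.Agent.Work.MP_0ba68b_gt.Apx.Grp

/-!
Linear bound for the distance to a stabilizer (the argument of von Neumann for closed subgroups).

Plan. Write a g = g.1 p + c • g.2 - p (cocycle: a (g * u) = g.1 (a u) + a g, where the product of
pairs is the one of `AGrp.mul_mem`), H = (S.fixer p c).car (closed, nonempty). Use the distance of
the product space (sup of the operator norm distance and of the norm distance). Suppose no C works:
for each n there is g n in S with ‖(g n).2‖ ≤ ρ and infDist (g n) H > n * ‖a (g n)‖ (otherwise a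
nearest point of H, `IsClosed.exists_infDist_eq_dist`, works with C = n). Let h n in H be nearest
to g n and u n = (h n)⁻¹ * g n = (k.1 * g.1, k.1 g.2 + k.2) with k the inverse of h n in H. Left
multiplication by an element of S preserves the product distance, so δ n := dist (u n) (1,0) =
infDist (g n) H, every w in H has dist (u n) w ≥ δ n, and ‖a (u n)‖ = ‖a (g n)‖ < δ n / n.
δ n is bounded (by dist (g n) (1,0) ≤ max 2 ρ), so by `isCompact_bdd` and compactness of the unit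
sphere of the finite dimensional space (V →L V) × V pass to a subsequence with u n → u and
ξ n := (δ n)⁻¹ • (u n - (1,0)) → ξ; a u = 0, so u is in H and δ n ≤ dist (u n) u → 0.
Powers: define pw u m recursively by pw u (m+1) = u * pw u m; by induction
dist (pw u m) (1,0) ≤ m δ, ‖pw u m - (1,0) - m • (u - (1,0))‖ ≤ m^2 δ^2, ‖a (pw u m)‖ ≤ m ‖a u‖.
For fixed t in (0,1] take m n = ⌊t / δ n⌋₊: m n * δ n → t, so a cluster point w of pw (u n) (m n)
lies in H and has ‖w - (1,0) - t • ξ‖ ≤ t^2. Finally take n with ‖ξ n - ξ‖ < 1/2 and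
δ n < 1/2 and t = δ n: dist (u n) w ≤ δ n ‖ξ n - ξ‖ + δ n ^ 2 < δ n, a contradiction.
-/

namespace Pool.Agent.Work.MP_0ba68b_gt.Apx

open Filter Topology

variable {V : Type} [NormedAddCommGroup V] [InnerProductSpace ℝ V]

/-- the unit pair -/
noncomputable def LB_e : (V →L[ℝ] V) × V := (1, 0)

/-- the cocycle -/
noncomputable def LB_a (p : V) (c : ℝ) (g : (V →L[ℝ] V) × V) : V := g.1 p + c • g.2 - p

/-- the product of pairs -/
noncomputable def LB_m (g h : (V →L[ℝ] V) × V) : (V →L[ℝ] V) × V := (g.1 * h.1, g.1 h.2 + g.2)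

lemma LB_lin (A : V →L[ℝ] V) (x : (V →L[ℝ] V) × V) : ‖(A * x.1, A x.2)‖ ≤ ‖A‖ * ‖x‖ :=
  norm_prod_le_iff.2
    ⟨(norm_mul_le _ _).trans (mul_le_mul_of_nonneg_left (norm_fst_le x) (norm_nonneg _)),
      (A.le_opNorm _).trans (mul_le_mul_of_nonneg_left (norm_snd_le x) (norm_nonneg _))⟩

lemma LB_m_e (g : (V →L[ℝ] V) × V) : LB_m g LB_e = g := by simp [LB_m, LB_e]

lemma LB_m_le (S : AGrp V) {g : (V →L[ℝ] V) × V} (hg : g ∈ S.car) (h h' : (V →L[ℝ] V) × V) :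
    ‖LB_m g h - LB_m g h'‖ ≤ ‖h - h'‖ := by
  have e : LB_m g h - LB_m g h' = (g.1 * (h - h').1, g.1 (h - h').2) := by simp [LB_m, mul_sub]
  rw [e]
  exact (LB_lin _ _).trans (mul_le_of_le_one_left (norm_nonneg _) (S.opNorm_le hg))

lemma LB_a_m (p : V) (c : ℝ) (g h : (V →L[ℝ] V) × V) :
    LB_a p c (LB_m g h) = g.1 (LB_a p c h) + LB_a p c g := by
  simp only [LB_a, LB_m, mul_apply_eq_comp, map_sub, map_add, map_smul, smul_add]
  abel

lemma LB_pow (S : AGrp V) (p : V) (c : ℝ) {u : (V →L[ℝ] V) × V} (hu : u ∈ S.car) (m : ℕ) :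
    ∃ w ∈ S.car, ‖w - LB_e‖ ≤ m * ‖u - LB_e‖ ∧
      ‖w - LB_e - (m : ℝ) • (u - LB_e)‖ ≤ (m * ‖u - LB_e‖) ^ 2 ∧
      ‖LB_a p c w‖ ≤ m * ‖LB_a p c u‖ := by
  induction m with
  | zero => exact ⟨LB_e, S.one_mem, by simp, by simp, by simp [LB_a, LB_e]⟩
  | succ m ih =>
    obtain ⟨w, hw, h1, h2, h3⟩ := ih
    have h0 := norm_nonneg (u - LB_e)
    refine ⟨LB_m u w, S.mul_mem u hu w hw, ?_, ?_, ?_⟩
    · have h4 := LB_m_le S hu w LB_e
      have h5 := norm_sub_le_norm_sub_add_norm_sub (LB_m u w) u LB_e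
      rw [LB_m_e] at h4
      push_cast
      linarith
    · have e : LB_m u w - LB_e - ((m + 1 : ℕ) : ℝ) • (u - LB_e) =
          w - LB_e - (m : ℝ) • (u - LB_e) +
            ((u - LB_e).1 * (w - LB_e).1, (u - LB_e).1 (w - LB_e).2) := by
        rw [Nat.cast_succ, add_smul, one_smul]
        refine Prod.ext ?_ ?_ <;> simp [LB_m, LB_e, mul_sub, sub_mul] <;> abel
      have h4 := (LB_lin (u - LB_e).1 (w - LB_e)).trans
        (mul_le_mul (norm_fst_le _) h1 (norm_nonneg _) h0)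
      rw [e]
      refine (norm_add_le _ _).trans ((add_le_add h2 h4).trans ?_)
      push_cast
      nlinarith [mul_nonneg (Nat.cast_nonneg (α := ℝ) m) (mul_nonneg h0 h0), mul_nonneg h0 h0]
    · rw [LB_a_m]
      refine (norm_add_le _ _).trans ?_
      rw [S.iso u hu]
      push_cast
      linarith

lemma LB_lim {X : Type} [TopologicalSpace X] {K : Set X} (hK : IsCompact K) {f : ℕ → X}
    (hf : ∀ n, f n ∈ K) : ∃ x ∈ K, Tendsto f (hyperfilter ℕ) (𝓝 x) :=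
  hK.ultrafilter_le_nhds ((hyperfilter ℕ).map f)
    (tendsto_principal.2 (Eventually.of_forall hf))

variable [FiniteDimensional ℝ V]

lemma LB_lim' (S : AGrp V) (p : V) (c : ℝ) {r : ℝ} {w : ℕ → (V →L[ℝ] V) × V}
    (h1 : ∀ n, w n ∈ S.car) (h2 : ∀ n, ‖w n - LB_e‖ ≤ r) (h3 : ∀ n : ℕ, n * ‖LB_a p c (w n)‖ ≤ r) :
    ∃ w0 ∈ S.car, LB_a p c w0 = 0 ∧ Tendsto w (hyperfilter ℕ) (𝓝 w0) := by
  obtain ⟨w0, h4, h5⟩ := LB_lim (S.isCompact_bdd r) (f := w) fun n => ⟨h1 n, by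
    simpa [LB_e] using (norm_snd_le _).trans (h2 n)⟩
  refine ⟨w0, h4.1, norm_le_zero_iff.1 ?_, h5⟩
  have hc : Continuous fun g => ‖LB_a p c g‖ := by
    unfold LB_a
    fun_prop
  refine le_of_tendsto_of_tendsto ((hc.tendsto w0).comp h5)
    ((tendsto_const_div_atTop_nhds_zero_nat r).mono_left Nat.hyperfilter_le_atTop)
    (((eventually_gt_atTop 0).filter_mono Nat.hyperfilter_le_atTop).mono fun n hn => ?_)
  exact (le_div_iff₀' (Nat.cast_pos.2 hn)).2 (h3 n)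

lemma LB_core (S : AGrp V) (p : V) (c R : ℝ) : ∃ C : ℝ, 0 ≤ C ∧ ∀ u ∈ S.car, ‖u - LB_e‖ ≤ R →
    (∀ w ∈ S.car, LB_a p c w = 0 → ‖u - LB_e‖ ≤ ‖u - w‖) → ‖u - LB_e‖ ≤ C * ‖LB_a p c u‖ := by
  by_contra hcon
  push Not at hcon
  choose u hu hR hmin hlt using fun n : ℕ => hcon n (Nat.cast_nonneg n)
  have hδ : ∀ n, 0 < ‖u n - LB_e‖ := fun n => lt_of_le_of_lt (by positivity) (hlt n)
  obtain ⟨u0, k1, k2, k3⟩ := LB_lim' S p c hu hR fun n => (hlt n).le.trans (hR n)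
  have hδ0 : Tendsto (fun n => ‖u n - LB_e‖) (hyperfilter ℕ) (𝓝 0) :=
    squeeze_zero (fun n => norm_nonneg _) (fun n => hmin n u0 k1 k2)
      (tendsto_iff_norm_sub_tendsto_zero.1 k3)
  obtain ⟨ξ, hξ⟩ : ∃ ξ : ℕ → (V →L[ℝ] V) × V, ∀ n, ξ n = ‖u n - LB_e‖⁻¹ • (u n - LB_e) :=
    ⟨_, fun _ => rfl⟩
  have hξ' : ∀ n, ‖u n - LB_e‖ • ξ n = u n - LB_e := fun n => by
    rw [hξ, smul_inv_smul₀ (hδ n).ne']
  obtain ⟨ξ0, -, k4⟩ := LB_lim (isCompact_closedBall 0 1) (f := ξ) fun n => by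
    rw [mem_closedBall_zero_iff, hξ, norm_smul, norm_inv, norm_norm, inv_mul_cancel₀ (hδ n).ne']
  have key : ∀ t : ℝ, 0 < t → ∃ w ∈ S.car, LB_a p c w = 0 ∧ ‖w - LB_e - t • ξ0‖ ≤ t ^ 2 := by
    intro t ht
    choose w h1 h2 h3 h4 using fun n => LB_pow S p c (hu n) ⌊t / ‖u n - LB_e‖⌋₊
    have h5 : ∀ n, ⌊t / ‖u n - LB_e‖⌋₊ * ‖u n - LB_e‖ ≤ t := fun n =>
      (le_div_iff₀ (hδ n)).1 (Nat.floor_le (div_nonneg ht.le (norm_nonneg _)))
    have h6 : Tendsto (fun n => ⌊t / ‖u n - LB_e‖⌋₊ * ‖u n - LB_e‖) (hyperfilter ℕ) (𝓝 t) := by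
      refine tendsto_of_tendsto_of_tendsto_of_le_of_le (by simpa using hδ0.const_sub t)
        tendsto_const_nhds (fun n => ?_) h5
      have := (div_lt_iff₀ (hδ n)).1 (Nat.lt_floor_add_one (t / ‖u n - LB_e‖))
      linarith
    obtain ⟨w0, j1, j2, j3⟩ := LB_lim' S p c h1 (fun n => (h2 n).trans (h5 n)) fun n => by
      refine (mul_le_mul_of_nonneg_left (h4 n) (Nat.cast_nonneg n)).trans (le_trans ?_ (h5 n))
      rw [mul_left_comm]
      exact mul_le_mul_of_nonneg_left (hlt n).le (Nat.cast_nonneg _)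
    refine ⟨w0, j1, j2, le_of_tendsto' ((j3.sub_const LB_e).sub (h6.smul k4)).norm fun n => ?_⟩
    rw [mul_smul, hξ']
    exact (h3 n).trans (pow_le_pow_left₀ (by positivity) (h5 n) 2)
  obtain ⟨n, h1, h2⟩ := (((tendsto_iff_norm_sub_tendsto_zero.1 k4).eventually
    (gt_mem_nhds one_half_pos)).and (hδ0.eventually (gt_mem_nhds one_half_pos))).exists
  obtain ⟨w, j1, j2, j3⟩ := key _ (hδ n)
  have h3 := hmin n w j1 j2
  have e : u n - w = ‖u n - LB_e‖ • (ξ n - ξ0) - (w - LB_e - ‖u n - LB_e‖ • ξ0) := by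
    rw [smul_sub, hξ']
    abel
  have h4 := norm_sub_le (‖u n - LB_e‖ • (ξ n - ξ0)) (w - LB_e - ‖u n - LB_e‖ • ξ0)
  rw [← e, norm_smul, norm_norm] at h4
  nlinarith [hδ n]

theorem linBound (S : AGrp V) (p : V) (c ρ : ℝ) :
    ∃ C : ℝ, 0 ≤ C ∧ ∀ g ∈ S.car, ‖g.2‖ ≤ ρ → ∃ h ∈ (S.fixer p c).car,
      ‖g.1 - h.1‖ ≤ C * ‖g.1 p + c • g.2 - p‖ ∧ ‖g.2 - h.2‖ ≤ C * ‖g.1 p + c • g.2 - p‖ := by
  obtain ⟨C, hC, h⟩ := LB_core S p c (max 2 ρ)
  refine ⟨C, hC, fun g hg hρ => ?_⟩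
  obtain ⟨f, hf, e⟩ := (S.fixer p c).closed.exists_infDist_eq_dist ⟨_, (S.fixer p c).one_mem⟩ g
  have hmin : ∀ w ∈ (S.fixer p c).car, ‖g - f‖ ≤ ‖g - w‖ := fun w hw => by
    rw [← dist_eq_norm, ← dist_eq_norm, ← e]
    exact Metric.infDist_le_dist_of_mem hw
  obtain ⟨k, hk, e1, e2, e3⟩ := (S.fixer p c).inv_mem f hf
  have a1 : ∀ v, f.1 (k.1 v) = v := fun v => congrArg (fun A : V →L[ℝ] V => A v) e2
  have e4 : LB_m k f = LB_e := Prod.ext e1 e3
  have e5 : LB_m f (LB_m k g) = g := by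
    refine Prod.ext (by simp only [LB_m, ← mul_assoc, e2, one_mul]) ?_
    simp only [LB_m, eq_neg_of_add_eq_zero_right e3, map_add, map_neg, a1]
    abel
  have h1 : ‖LB_m k g - LB_e‖ ≤ ‖g - f‖ := e4 ▸ LB_m_le S hk.1 g f
  have h2 : ∀ w, ‖g - LB_m f w‖ ≤ ‖LB_m k g - w‖ := fun w => by
    simpa only [e5] using LB_m_le S hf.1 (LB_m k g) w
  have h3 : ‖g - LB_e‖ ≤ max 2 ρ := by
    refine max_le_max ((norm_sub_le g.1 1).trans ?_) (by simpa [LB_e] using hρ)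
    linarith [S.opNorm_le hg, S.opNorm_le S.one_mem]
  have h4 := h _ (S.mul_mem k hk.1 g hg) (h1.trans ((hmin _ (S.fixer p c).one_mem).trans h3))
    fun w hw hw' => h1.trans ((hmin _ ((S.fixer p c).mul_mem f hf w
      ⟨hw, sub_eq_zero.1 hw'⟩)).trans (h2 w))
  have h5 : ‖LB_a p c (LB_m k g)‖ = ‖g.1 p + c • g.2 - p‖ := by
    rw [LB_a_m, show LB_a p c k = 0 from sub_eq_zero.2 hk.2, add_zero, S.iso k hk.1, LB_a]
  have h6 := (h2 LB_e).trans (h4.trans_eq (congrArg (C * ·) h5))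
  rw [LB_m_e] at h6
  exact ⟨f, hf, (norm_fst_le (g - f)).trans h6, (norm_snd_le (g - f)).trans h6⟩

end Pool.Agent.Work.MP_0ba68b_gt.Apx
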