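import Pool.Agent.Work.MP_0ba68b_gt.Apx.Eu
import Mathlib.Analysis.Calculus.ContDiff.Defs
import Mathlib.Analysis.Calculus.ContDiff.Convolution
import Mathlib.Analysis.Calculus.ContDiff.RCLike
import Mathlib.Analysis.InnerProductSpace.Calculus
import Mathlib.Analysis.SpecialFunctions.SmoothTransition
import Mathlib.MeasureTheory.Measure.Haar.InnerProductSpace
import Mathlib.MeasureTheory.Measure.Haar.Unique

/-!
Finite dimensional projections, smoothing, and linearization of short maps.

Plan for `proj`. Cover K by finitely many balls of radius η/4 with centres in a finset t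
(`Metric.totallyBounded_iff` or `IsCompact.elim_finite_subcover`), k = t.card. For given F let
E = span of the F x, x ∈ t (finite dimensional, finrank ≤ k by `finrank_span_finset_le_card` or
`finrank_span_le_card`), π the orthogonal projection onto E, e from `exists_iso E`, P = e ∘ π.
For y in K with centre x: ‖F y - π (F y)‖ ≤ ‖F y - F x‖ ≤ η/4 (or ≤ η/2 by the triangle inequality).

Plan for `moll`. Put the Borel structure on V (`borelize V`), volume μ of the inner product space.
Take a radial kernel, e.g. φ v = expNegInvGlue (η^2 - ‖v‖^2) (smooth by `contDiff_norm_sq`,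
nonnegative, zero for ‖v‖ ≥ η, positive at 0, compact support), c = ∫ φ > 0, ρ = c⁻¹ • φ,
L = ρ ⋆[lsmul ℝ ℝ, μ] F, i.e. L x = ∫ t, ρ t • F (x - t). Smooth by
`HasCompactSupport.contDiff_convolution_left` (F is continuous, hence locally integrable). Short and
close to F by `norm_integral_le_of_norm_le` with ∫ ρ = 1. Invariance: A = g.1 is a linear isometry
of a finite dimensional space, hence an equivalence (`LinearIsometry.toLinearIsometryEquiv`),
measure preserving (`LinearIsometryEquiv.measurePreserving`); substitute t = A s, use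
ρ (A s) = ρ s and act g v - A s = act g (v - s).

Plan for `c1_loc`. `ContDiffAt.hasStrictFDerivAt` and `HasStrictFDerivAt.isLittleO` (or
`exists_lipschitzOnWith`-free direct use of the definition); the norm bound from
`HasFDerivAt.le_of_lipschitz`; the invariances from uniqueness of the derivative
(`HasFDerivAt.unique`, chain rule), for the last one along the line t ↦ x + t • u.
-/

namespace Pool.Agent.Work.MP_0ba68b_gt.Apx

variable {V : Type} [NormedAddCommGroup V] [InnerProductSpace ℝ V]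

theorem proj {K : Set V} (hK : IsCompact K) {η : ℝ} (hη : 0 < η) :
    ∃ k : ℕ, ∀ (H : Type) [NormedAddCommGroup H] [InnerProductSpace ℝ H] (F : V → H),
      (∀ y z, ‖F y - F z‖ ≤ ‖y - z‖) → ∃ P : H → Eu k, (∀ a b, ‖P a - P b‖ ≤ ‖a - b‖) ∧
        ∀ y ∈ K, ∀ z ∈ K, ‖F y - F z‖ - η ≤ ‖P (F y) - P (F z)‖ := by
  classical
  obtain ⟨t, -, ht, hc⟩ := hK.finite_cover_balls (half_pos hη)
  refine ⟨ht.toFinset.card, fun H _ _ F hF => ?_⟩
  let E : Submodule ℝ H := Submodule.span ℝ (ht.toFinset.image F : Set H)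
  haveI : FiniteDimensional ℝ E := FiniteDimensional.span_finset ℝ _
  obtain ⟨e⟩ := exists_iso E (k := ht.toFinset.card)
    ((finrank_span_finset_le_card (R := ℝ) _).trans Finset.card_image_le)
  have hn : ∀ a b, ‖e (E.orthogonalProjectionOnto a) - e (E.orthogonalProjectionOnto b)‖ =
      ‖E.starProjection (a - b)‖ := fun a b => by
    rw [← map_sub, e.norm_map, ← map_sub]
    rfl
  have hd : ∀ y ∈ K, ‖F y - E.starProjection (F y)‖ ≤ η / 2 := by
    intro y hy
    obtain ⟨x, hx, hyx⟩ := Set.mem_iUnion₂.1 (hc hy)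
    have hm : F x ∈ E := Submodule.subset_span
      (Finset.mem_coe.2 (Finset.mem_image_of_mem F (ht.mem_toFinset.2 hx)))
    rw [Submodule.starProjection_minimal]
    refine (ciInf_le ⟨0, ?_⟩ (⟨F x, hm⟩ : E)).trans ((hF y x).trans ?_)
    · rintro _ ⟨w, rfl⟩
      exact norm_nonneg _
    · rw [← dist_eq_norm]
      exact (Metric.mem_ball.1 hyx).le
  refine ⟨fun a => e (E.orthogonalProjectionOnto a), fun a b => ?_, fun y hy z hz => ?_⟩
  · rw [hn]
    exact E.norm_starProjection_apply_le _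
  · rw [hn]
    have e1 : F y - F z = (F y - E.starProjection (F y)) - (F z - E.starProjection (F z)) +
        E.starProjection (F y - F z) := by
      rw [map_sub]
      abel
    have h1 := norm_add_le ((F y - E.starProjection (F y)) - (F z - E.starProjection (F z)))
      (E.starProjection (F y - F z))
    have h2 := norm_sub_le (F y - E.starProjection (F y)) (F z - E.starProjection (F z))
    rw [← e1] at h1
    linarith [hd y hy, hd z hz]

open MeasureTheory in
/-- A radial smooth probability density supported in a small ball. -/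
lemma moll_kernel [FiniteDimensional ℝ V] [MeasurableSpace V] [BorelSpace V] {η : ℝ} (hη : 0 < η) :
    ∃ ρ : V → ℝ, ContDiff ℝ (1 : ℕ∞) ρ ∧ HasCompactSupport ρ ∧ (∀ v, 0 ≤ ρ v) ∧ (∫ v, ρ v = 1) ∧
      (∀ v, η ≤ ‖v‖ → ρ v = 0) ∧ ∀ v w, ‖v‖ = ‖w‖ → ρ v = ρ w := by
  let φ : V → ℝ := fun v => expNegInvGlue (η ^ 2 - ‖v‖ ^ 2)
  have h1 : ContDiff ℝ (1 : ℕ∞) φ :=
    expNegInvGlue.contDiff.comp (contDiff_const.sub (contDiff_norm_sq ℝ))
  have h2 : ∀ v, η ≤ ‖v‖ → φ v = 0 := fun v hv =>
    expNegInvGlue.zero_of_nonpos (sub_nonpos.2 (pow_le_pow_left₀ hη.le hv 2))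
  have h3 : HasCompactSupport φ :=
    HasCompactSupport.intro (isCompact_closedBall (0 : V) η) fun v hv =>
      h2 v (not_le.1 fun h => hv (mem_closedBall_zero_iff.2 h)).le
  have h4 : ∀ v, 0 ≤ φ v := fun v => expNegInvGlue.nonneg _
  have h5 : 0 < ∫ v, φ v :=
    h1.continuous.integral_pos_of_hasCompactSupport_nonneg_nonzero (x := 0) h3 h4
      (expNegInvGlue.pos_of_pos (by simpa using pow_pos hη 2)).ne'
  refine ⟨fun v => (∫ v, φ v)⁻¹ * φ v, contDiff_const.mul h1, h3.mul_left,
    fun v => mul_nonneg (inv_nonneg.2 h5.le) (h4 v), ?_, fun v hv => by simp only [h2 v hv, mul_zero],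
    fun v w h => by simp only [φ, h]⟩
  rw [integral_const_mul, inv_mul_cancel₀ h5.ne']

open MeasureTheory in
lemma moll_bound [FiniteDimensional ℝ V] [MeasurableSpace V] [BorelSpace V] {k : ℕ} {ρ : V → ℝ}
    (hi : Integrable ρ) (h0 : ∀ v, 0 ≤ ρ v) (h1 : ∫ v, ρ v = 1) {G : V → Eu k} {C : ℝ}
    (h : ∀ v, ρ v ≠ 0 → ‖G v‖ ≤ C) : ‖∫ v, ρ v • G v‖ ≤ C := by
  refine (norm_integral_le_of_norm_le (hi.mul_const C) (Filter.Eventually.of_forall fun v => ?_)).trans ?_
  · rw [norm_smul, Real.norm_of_nonneg (h0 v)]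
    by_cases hv : ρ v = 0
    · rw [hv, zero_mul, zero_mul]
    · exact mul_le_mul_of_nonneg_left (h v hv) (h0 v)
  · rw [integral_mul_const, h1, one_mul]

open MeasureTheory in
theorem moll [FiniteDimensional ℝ V] {k : ℕ} (F : V → Eu k)
    (hF : ∀ y z, ‖F y - F z‖ ≤ ‖y - z‖) {η : ℝ} (hη : 0 < η) :
    ∃ L : V → Eu k, ContDiff ℝ 1 L ∧ (∀ y z, ‖L y - L z‖ ≤ ‖y - z‖) ∧ (∀ y, ‖L y - F y‖ ≤ η) ∧
      ∀ g : (V →L[ℝ] V) × V, (∀ v, ‖g.1 v‖ = ‖v‖) → (∀ v, F (act g v) = F v) →
        ∀ v, L (act g v) = L v := by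
  borelize V
  obtain ⟨ρ, h1, h2, h3, h4, h5, h6⟩ := moll_kernel (V := V) hη
  have hc : Continuous F := (LipschitzWith.of_dist_le_mul (K := 1) fun y z => by
    rw [dist_eq_norm, dist_eq_norm, NNReal.coe_one, one_mul]
    exact hF y z).continuous
  have hi : Integrable ρ := h1.continuous.integrable_of_hasCompactSupport h2
  have hI : ∀ x, Integrable fun t => ρ t • F (x - t) := fun x =>
    (h1.continuous.smul (hc.comp (continuous_const.sub continuous_id))).integrable_of_hasCompactSupport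
      h2.smul_right
  refine ⟨fun x => ∫ t, ρ t • F (x - t), ?_, fun y z => ?_, fun y => ?_, fun g hg hFg v => ?_⟩
  · exact h2.contDiff_convolution_left (ContinuousLinearMap.lsmul ℝ ℝ) h1 hc.locallyIntegrable
  · rw [← integral_sub (hI y) (hI z)]
    simp only [← smul_sub]
    refine moll_bound hi h3 h4 fun t _ => (hF _ _).trans (le_of_eq ?_)
    rw [sub_sub_sub_cancel_right]
  · have e : F y = ∫ t, ρ t • F y := by rw [integral_smul_const, h4, one_smul]
    rw [e, ← integral_sub (hI y) (hi.smul_const _)]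
    simp only [← smul_sub]
    refine moll_bound hi h3 h4 fun t ht => (hF _ _).trans ?_
    rw [sub_sub_cancel_left, norm_neg]
    exact (not_le.1 fun h => ht (h5 t h)).le
  · let A : V ≃ₗᵢ[ℝ] V := LinearIsometry.toLinearIsometryEquiv ⟨g.1.toLinearMap, hg⟩ rfl
    have hA : ∀ s, A s = g.1 s := fun _ => rfl
    have h7 := A.measurePreserving.integral_comp A.toMeasurableEquiv.measurableEmbedding
      fun t => ρ t • F (act g v - t)
    refine h7.symm.trans (congrArg _ (funext fun s => ?_))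
    have e : act g v - A s = act g (v - s) := by
      simp only [hA, act, map_sub]
      abel
    rw [e, hFg, h6 (A s) s (A.norm_map s)]

theorem c1_loc {k : ℕ} {L : V → Eu k} (hL : ContDiff ℝ 1 L)
    (h1 : ∀ y z, ‖L y - L z‖ ≤ ‖y - z‖) (x : V) {ε : ℝ} (hε : 0 < ε) :
    ∃ (D : V →L[ℝ] Eu k) (r : ℝ), 0 < r ∧ (∀ v, ‖D v‖ ≤ ‖v‖) ∧
      (∀ s s', ‖s‖ < r → ‖s'‖ < r → ‖L (x + s) - L (x + s') - D (s - s')‖ ≤ ε * ‖s - s'‖) ∧
      (∀ A : V →L[ℝ] V, (∀ s, L (x + A s) = L (x + s)) → ∀ v, D (A v) = D v) ∧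
      ∀ u : V, (∀ t : ℝ, L (x + t • u) = L x) → D u = 0 := by
  have hs := (hL.contDiffAt (x := x)).hasStrictFDerivAt one_ne_zero
  have hd := hs.hasFDerivAt
  obtain ⟨r, hr, hb⟩ := Metric.eventually_nhds_iff.1 (Asymptotics.isLittleO_iff.1 hs.isLittleO hε)
  have hlip : LipschitzWith 1 L := LipschitzWith.of_dist_le_mul fun y z => by
    rw [dist_eq_norm, dist_eq_norm, NNReal.coe_one, one_mul]
    exact h1 y z
  have hA : ∀ A : V →L[ℝ] V, HasFDerivAt (fun s => L (x + A s)) ((fderiv ℝ L x).comp A) 0 := by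
    intro A
    have h2 : HasFDerivAt L (fderiv ℝ L x) (x + A 0) := by rwa [map_zero, add_zero]
    exact h2.comp (0 : V) (A.hasFDerivAt.const_add x)
  refine ⟨fderiv ℝ L x, r, hr, fun v => ?_, fun s s' h h' => ?_, fun A h v => ?_, fun u h => ?_⟩
  · exact ((fderiv ℝ L x).le_of_opNorm_le (hd.le_of_lipschitz hlip) v).trans (by simp)
  · have h2 : dist (x + s, x + s') (x, x) < r := by
      rw [Prod.dist_eq, dist_eq_norm, dist_eq_norm, add_sub_cancel_left, add_sub_cancel_left]
      exact max_lt h h'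
    have h3 := hb h2
    simpa only [add_sub_add_left_eq_sub] using h3
  · have h2 := hA A
    have h3 := hA (ContinuousLinearMap.id ℝ V)
    have e : (fun s => L (x + A s)) = fun s => L (x + ContinuousLinearMap.id ℝ V s) := funext h
    rw [e] at h2
    exact congrArg (fun B : V →L[ℝ] Eu k => B v) (h2.unique h3)
  · have h2 : HasFDerivAt L (fderiv ℝ L x) (x + (0 : ℝ) • u) := by rwa [zero_smul, add_zero]
    have h3 := h2.comp_hasDerivAt (0 : ℝ) (((hasDerivAt_id (0 : ℝ)).smul_const u).const_add x)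
    have e : (L ∘ fun t : ℝ => x + id t • u) = fun _ => L x := funext h
    rw [e, one_smul] at h3
    exact h3.unique (hasDerivAt_const _ _)

end Pool.Agent.Work.MP_0ba68b_gt.Apx
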