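import Pool.Agent.Work.MP_0ba68b_gt.Apx.Eu
import Mathlib.Analysis.InnerProductSpace.Spectrum
import Mathlib.Analysis.InnerProductSpace.Adjoint

/-!
Splitting off the vectors fixed by all linear parts.

Plan. M₀ = N ⊓ fixSub H, π = M₀.starProjection. For v in N: v - π v ∈ mov H N. Linear parts
preserve mov H N (⟪g.1 v, f⟫ = ⟪g.1 v, g.1 f⟫ = ⟪v, f⟫ for f in M₀). π u = 0 for u in U.
For y = u + v in U ⊔ N put y' = y - π y = u + (v - π v) ∈ U ⊔ mov H N. For g in H: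
act g z = π z + act g z', and y' - act g z' is orthogonal to M₀, so
‖y - act g z‖^2 = ‖π (y - z)‖^2 + ‖y' - act g z'‖^2, and with `exists_d`, `d_le` on both sides
H.d y z ^ 2 = ‖π (y - z)‖^2 + H.d y' z' ^ 2. D vanishes on mov H N: for a in Eu k₀ let ℓ be the
orthogonal projection onto N of the adjoint D† a; for g in H with inverse h and v in N,
⟪g.1 ℓ, v⟫ = ⟪ℓ, h.1 v⟫ = ⟪a, D (h.1 v)⟫ = ⟪a, D v⟫ = ⟪ℓ, v⟫, so g.1 ℓ = ℓ, ℓ ∈ M₀. Hence
D (y - z) = D (π (y - z)). Finally B : V →L V with ‖B v‖^2 = ‖v‖^2 - ‖D v‖^2 (`exists_sqrt`: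
the symmetric operator 1 - D† D is positive; use `LinearMap.IsSymmetric.eigenvectorBasis`, B v =
∑ i, √(μ i) ⟪e i, v⟫ e i), and n y = (e (B (π y)), Φ y') with e from `exists_iso V`.
-/

namespace Pool.Agent.Work.MP_0ba68b_gt.Apx

noncomputable section

variable {V : Type} [NormedAddCommGroup V] [InnerProductSpace ℝ V]

/-- Vectors fixed by all linear parts. -/
def fixSub (H : AGrp V) : Submodule ℝ V where
  carrier := {v | ∀ g ∈ H.car, g.1 v = v}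
  add_mem' := fun ha hb g hg => by rw [map_add, ha g hg, hb g hg]
  zero_mem' := fun g _ => map_zero _
  smul_mem' := fun c v hv g hg => by rw [map_smul, hv g hg]

/-- The orthogonal complement in `N` of the fixed vectors. -/
def mov (H : AGrp V) (N : Submodule ℝ V) : Submodule ℝ V := N ⊓ (N ⊓ fixSub H)ᗮ

lemma prod_lin_orth {H : AGrp V} {N : Submodule ℝ V} {g : (V →L[ℝ] V) × V} (hg : g ∈ H.car) {v : V}
    (hv : v ∈ (N ⊓ fixSub H)ᗮ) : g.1 v ∈ (N ⊓ fixSub H)ᗮ := by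
  rw [Submodule.mem_orthogonal] at hv ⊢
  intro f hf
  rw [← hf.2 g hg, H.inner_iso hg]
  exact hv f hf

theorem setup_mov {H : AGrp V} {U N : Submodule ℝ V} {R : ℝ} (hS : Setup H U N R) :
    Setup H U (mov H N) R := by
  refine ⟨fun u hu w hw => hS.orth u hu w hw.1, hS.tr, hS.linU,
    fun g hg w hw => ⟨hS.linW g hg w hw.1, prod_lin_orth hg hw.2⟩, fun u hu => ?_⟩
  obtain ⟨g, hg, h1, h2⟩ := hS.coc u hu
  exact ⟨g, hg, fun w hw => h1 w hw.1, h2⟩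

theorem mov_lt [FiniteDimensional ℝ V] {H : AGrp V} {N W : Submodule ℝ V} (hN : N ≤ W) {w : V}
    (hw : w ∈ W) (hw0 : w ≠ 0) (hf : ∀ g ∈ H.car, g.1 w = w) :
    Module.finrank ℝ (mov H N) < Module.finrank ℝ W := by
  refine Submodule.finrank_lt_finrank_of_lt (lt_of_le_of_ne (inf_le_left.trans hN) fun e => hw0 ?_)
  have h1 : w ∈ mov H N := e ▸ hw
  exact inner_self_eq_zero.1 ((Submodule.mem_orthogonal _ _).1 h1.2 w ⟨h1.1, hf⟩)

theorem exists_sqrt [FiniteDimensional ℝ V] {k₀ : ℕ} (D : V →L[ℝ] Eu k₀)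
    (hD : ∀ v, ‖D v‖ ≤ ‖v‖) : ∃ B : V →L[ℝ] V, ∀ v, ‖B v‖ ^ 2 = ‖v‖ ^ 2 - ‖D v‖ ^ 2 := by
  have := FiniteDimensional.complete ℝ V
  let T : V →ₗ[ℝ] V := LinearMap.id - ((ContinuousLinearMap.adjoint D).comp D).toLinearMap
  have hT0 : ∀ x y, inner ℝ (T x) y = inner ℝ x y - inner ℝ (D x) (D y) := fun x y => by
    simp [T, inner_sub_left, ContinuousLinearMap.adjoint_inner_left]
  have hT : T.IsSymmetric := fun x y => by
    rw [real_inner_comm (T y) x, hT0, hT0, real_inner_comm x y, real_inner_comm (D x) (D y)]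
  have hn : Module.finrank ℝ V = Module.finrank ℝ V := rfl
  let b := hT.eigenvectorBasis hn
  let μ := hT.eigenvalues hn
  have hq : ∀ x, inner ℝ (T x) x = ‖x‖ ^ 2 - ‖D x‖ ^ 2 := fun x => by
    rw [hT0, real_inner_self_eq_norm_sq, real_inner_self_eq_norm_sq]
  have hμ : ∀ i, 0 ≤ μ i := fun i => by
    have h1 := hq (b i)
    rw [hT.apply_eigenvectorBasis hn i, real_inner_smul_left, real_inner_self_eq_norm_sq,
      b.orthonormal.1 i] at h1
    have h2 := hD (b i)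
    rw [b.orthonormal.1 i] at h2
    have h3 := norm_nonneg (D (b i))
    simp only [RCLike.ofReal_real_eq_id, id] at h1
    change 0 ≤ hT.eigenvalues hn i
    nlinarith
  let L : V →ₗ[ℝ] V := b.toBasis.constr ℝ fun i => √(μ i) • b i
  have hL : ∀ v i, b.repr (L v) i = √(μ i) * b.repr v i := fun v i => by
    simp [L, Module.Basis.constr_apply_fintype, Pi.single_apply, mul_comm]
  refine ⟨LinearMap.toContinuousLinearMap L, fun v => ?_⟩
  rw [← hq, LinearMap.coe_toContinuousLinearMap', ← b.repr.norm_map, EuclideanSpace.real_norm_sq_eq,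
    ← b.repr.inner_map_map, PiLp.inner_apply]
  refine Finset.sum_congr rfl fun i _ => ?_
  rw [hL, mul_pow, Real.sq_sqrt (hμ i), hT.eigenvectorBasis_apply_self_apply hn v i]
  simp only [RCLike.ofReal_real_eq_id, id, RCLike.inner_apply, conj_trivial]
  ring

lemma prod_D [FiniteDimensional ℝ V] {H : AGrp V} {N : Submodule ℝ V}
    (hN : ∀ g ∈ H.car, ∀ w ∈ N, g.1 w ∈ N) {k₀ : ℕ} (D : V →L[ℝ] Eu k₀)
    (hDg : ∀ g ∈ H.car, ∀ v, D (g.1 v) = D v) {v : V} (hv : v ∈ mov H N) : D v = 0 := by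
  have := FiniteDimensional.complete ℝ V
  obtain ⟨l, hl, h1⟩ : ∃ l ∈ N, ∀ x ∈ N, inner ℝ l x = inner ℝ (D v) (D x) := by
    refine ⟨N.starProjection (ContinuousLinearMap.adjoint D (D v)), N.starProjection_apply_mem _,
      fun x hx => ?_⟩
    have h2 := N.starProjection_inner_eq_zero (ContinuousLinearMap.adjoint D (D v)) x hx
    rw [inner_sub_left, ContinuousLinearMap.adjoint_inner_left] at h2
    linarith
  have h2 : l ∈ fixSub H := fun g hg => by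
    obtain ⟨h, hh, -, e, -, -⟩ := H.exists_inv hg
    have h3 : ∀ x ∈ N, inner ℝ (g.1 l - l) x = 0 := fun x hx => by
      rw [inner_sub_left, h1 x hx, ← hDg h hh x, ← h1 _ (hN h hh x hx), ← H.inner_iso hg l, e, sub_self]
    exact sub_eq_zero.1 (inner_self_eq_zero.1 (h3 _ (N.sub_mem (hN g hg l hl) hl)))
  rw [← inner_self_eq_zero (𝕜 := ℝ), ← h1 v hv.1]
  exact (Submodule.mem_orthogonal _ _).1 hv.2 l ⟨hl, h2⟩

lemma prod_d_sq [FiniteDimensional ℝ V] {H : AGrp V} {N : Submodule ℝ V}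
    (htr : ∀ g ∈ H.car, g.2 ∈ (N ⊓ fixSub H)ᗮ) {a c y z : V} (ha : a ∈ N ⊓ fixSub H)
    (hc : c ∈ N ⊓ fixSub H) (hy : y ∈ (N ⊓ fixSub H)ᗮ) (hz : z ∈ (N ⊓ fixSub H)ᗮ) :
    H.d (a + y) (c + z) ^ 2 = ‖a - c‖ ^ 2 + H.d y z ^ 2 := by
  have key : ∀ g ∈ H.car, ‖a + y - act g (c + z)‖ ^ 2 = ‖a - c‖ ^ 2 + ‖y - act g z‖ ^ 2 := by
    intro g hg
    have e : a + y - act g (c + z) = (a - c) + (y - act g z) := by
      simp only [act, map_add, hc.2 g hg]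
      abel
    have h0 : inner ℝ (a - c) (y - act g z) = 0 :=
      Submodule.inner_right_of_mem_orthogonal (Submodule.sub_mem _ ha hc)
        (Submodule.sub_mem _ hy (Submodule.add_mem _ (prod_lin_orth hg hz) (htr g hg)))
    rw [e, norm_add_sq_real, h0]
    ring
  refine le_antisymm ?_ ?_
  · obtain ⟨g, hg, e⟩ := H.exists_d y z
    rw [e, ← key g hg]
    exact pow_le_pow_left₀ (H.d_nonneg _ _) (H.d_le hg _ _) 2
  · obtain ⟨g, hg, e⟩ := H.exists_d (a + y) (c + z)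
    rw [e, key g hg]
    exact add_le_add le_rfl (pow_le_pow_left₀ (H.d_nonneg _ _) (H.d_le hg _ _) 2)

theorem prodLemma [FiniteDimensional ℝ V] {H : AGrp V} {U N : Submodule ℝ V} {R β γ : ℝ}
    (hS : Setup H U N R) (hβ0 : 0 ≤ β) (hβ : β ≤ 1) (hγ : 1 ≤ γ) {k k₀ : ℕ} (Φ : V → Eu k)
    (hΦ : ∀ y ∈ U ⊔ mov H N, ∀ z ∈ U ⊔ mov H N,
      β * H.d y z ≤ ‖Φ y - Φ z‖ ∧ ‖Φ y - Φ z‖ ≤ γ * H.d y z)
    (D : V →L[ℝ] Eu k₀) (hD : ∀ v, ‖D v‖ ≤ ‖v‖) (hDU : ∀ u ∈ U, D u = 0)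
    (hDg : ∀ g ∈ H.car, ∀ v, D (g.1 v) = D v) :
    ∃ (k' : ℕ) (n : V → Eu k'), ∀ y ∈ U ⊔ N, ∀ z ∈ U ⊔ N,
      (β * H.d y z) ^ 2 ≤ ‖D (y - z)‖ ^ 2 + ‖n y - n z‖ ^ 2 ∧
        ‖D (y - z)‖ ^ 2 + ‖n y - n z‖ ^ 2 ≤ (γ * H.d y z) ^ 2 := by
  obtain ⟨B, hB⟩ := exists_sqrt D hD
  obtain ⟨e⟩ := exists_iso V le_rfl
  let π := (N ⊓ fixSub H).starProjection
  have hU : ∀ u ∈ U, u ∈ (N ⊓ fixSub H)ᗮ := fun u hu =>
    (Submodule.mem_orthogonal' _ _).2 fun f hf => hS.orth u hu f hf.1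
  have hm : ∀ y ∈ U ⊔ N, y - π y ∈ U ⊔ mov H N := by
    intro y hy
    obtain ⟨u, hu, v, hv, rfl⟩ := Submodule.mem_sup.1 hy
    have h0 : π u = 0 := (Submodule.starProjection_apply_eq_zero_iff _).2 (hU u hu)
    refine Submodule.mem_sup.2 ⟨u, hu, v - π v,
      ⟨N.sub_mem hv (Submodule.starProjection_apply_mem (N ⊓ fixSub H) v).1,
        Submodule.sub_starProjection_mem_orthogonal v⟩, ?_⟩
    rw [map_add, h0, zero_add, add_sub_assoc]
  have hD0 : ∀ y ∈ U ⊔ mov H N, D y = 0 := by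
    intro y hy
    obtain ⟨u, hu, v, hv, rfl⟩ := Submodule.mem_sup.1 hy
    rw [map_add, hDU u hu, prod_D hS.linW D hDg hv, add_zero]
  obtain ⟨n, hn⟩ := exists_pair_map (fun y => e (B (π y))) fun y => Φ (y - π y)
  refine ⟨_, n, fun y hy z hz => ?_⟩
  have h1 := prod_d_sq (fun g hg => hU _ (hS.tr g hg)) (Submodule.starProjection_apply_mem _ y)
    (Submodule.starProjection_apply_mem _ z) (Submodule.sub_starProjection_mem_orthogonal y)
    (Submodule.sub_starProjection_mem_orthogonal z)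
  rw [add_sub_cancel, add_sub_cancel] at h1
  have h2 : D (y - z) = D (π y - π z) := by
    have := hD0 _ (Submodule.sub_mem _ (hm y hy) (hm z hz))
    simp only [map_sub] at this ⊢
    rw [← sub_eq_zero, ← this]
    abel
  obtain ⟨h3, h4⟩ := hΦ _ (hm y hy) _ (hm z hz)
  have h5 := pow_le_pow_left₀ (mul_nonneg hβ0 (H.d_nonneg _ _)) h3 2
  have h6 := pow_le_pow_left₀ (norm_nonneg _) h4 2
  have h7 : β ^ 2 ≤ 1 := pow_le_one₀ hβ0 hβ
  have h8 : 1 ≤ γ ^ 2 := one_le_pow₀ hγ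
  rw [hn, ← map_sub e, e.norm_map, ← map_sub B, hB, h2, mul_pow, mul_pow, h1]
  rw [mul_pow] at h5 h6
  have h9 := sq_nonneg ‖π y - π z‖
  constructor <;> nlinarith

end

end Pool.Agent.Work.MP_0ba68b_gt.Apx
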