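import Pool.Agent.Work.MP_0ba68b_gt.Apx.SliceN
import Pool.Agent.Work.MP_0ba68b_gt.Apx.Moll
import Pool.Agent.Work.MP_0ba68b_gt.Apx.CStep
import Pool.Agent.Work.MP_0ba68b_gt.Apx.Prod

/-!
The compact part: maps that are good on a ball.
-/

namespace Pool.Agent.Work.MP_0ba68b_gt.Apx

open Filter

lemma asm {p p' q dH d β γ ε : ℝ} (hp : 0 ≤ p) (hp' : 0 ≤ p') (hd : 0 ≤ d)
    (hε : 0 ≤ ε) (hε1 : ε < 1) (hβ : ε ≤ β) (hγ : 0 ≤ γ)
    (h1 : |p - p'| ≤ ε * dH) (h2 : (β * dH) ^ 2 ≤ p' ^ 2 + q ^ 2)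
    (h3 : p' ^ 2 + q ^ 2 ≤ (γ * dH) ^ 2) (h4 : (1 - ε) * dH ≤ d) (h5 : d ≤ dH) :
    ((β - ε) * d) ^ 2 ≤ p ^ 2 + q ^ 2 ∧ p ^ 2 + q ^ 2 ≤ ((γ + ε) / (1 - ε) * d) ^ 2 := by
  have hH : 0 ≤ dH := hd.trans h5
  set s := √(p ^ 2 + q ^ 2) with hs
  set s' := √(p' ^ 2 + q ^ 2) with hs'
  have s0 : 0 ≤ s := Real.sqrt_nonneg _
  have s0' : 0 ≤ s' := Real.sqrt_nonneg _
  have e1 : s ^ 2 = p ^ 2 + q ^ 2 := Real.sq_sqrt (by positivity)
  have e2 : s' ^ 2 = p' ^ 2 + q ^ 2 := Real.sq_sqrt (by positivity)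
  have a1 : p ≤ s := Real.le_sqrt_of_sq_le (by nlinarith [sq_nonneg q])
  have a2 : p' ≤ s' := Real.le_sqrt_of_sq_le (by nlinarith [sq_nonneg q])
  have key : |s - s'| ≤ |p - p'| := by
    rcases eq_or_lt_of_le (add_nonneg s0 s0') with h0 | h0
    · have z1 : s = 0 := by linarith
      have z2 : s' = 0 := by linarith
      rw [z1, z2, sub_self, abs_zero]
      exact abs_nonneg _
    · have e3 : |s - s'| * (s + s') = |p - p'| * (p + p') := by
        rw [← abs_of_nonneg h0.le, ← abs_mul, ← abs_of_nonneg (add_nonneg hp hp'), ← abs_mul]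
        congr 1
        nlinarith
      have e4 : |p - p'| * (p + p') ≤ |p - p'| * (s + s') :=
        mul_le_mul_of_nonneg_left (by linarith) (abs_nonneg _)
      exact le_of_mul_le_mul_right (e3.trans_le e4) h0
  have b1 : β * dH ≤ s' := Real.le_sqrt_of_sq_le h2
  have b2 : s' ≤ γ * dH := Real.sqrt_le_iff.mpr ⟨by positivity, h3⟩
  obtain ⟨k1, k2⟩ := abs_le.mp (key.trans h1)
  have hne : 0 < 1 - ε := by linarith
  rw [← e1]
  constructor
  · refine pow_le_pow_left₀ (mul_nonneg (by linarith) hd) ?_ 2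
    have : (β - ε) * d ≤ (β - ε) * dH := mul_le_mul_of_nonneg_left h5 (by linarith)
    nlinarith
  · refine pow_le_pow_left₀ s0 ?_ 2
    rw [div_mul_eq_mul_div, le_div_iff₀ hne]
    have c1 : s ≤ (γ + ε) * dH := by nlinarith
    have c2 : (γ + ε) * ((1 - ε) * dH) ≤ (γ + ε) * d :=
      mul_le_mul_of_nonneg_left h4 (by linarith)
    nlinarith

lemma exists_eps {α β γ : ℝ} (hβ : β < α) (hγ : 1 < γ) :
    ∃ ε : ℝ, 0 < ε ∧ ε ≤ 1 / 2 ∧ β + 5 * ε ≤ α ∧ (1 + ε + ε) / (1 - ε) < γ := by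
  refine ⟨min (1 / 2) (min ((α - β) / 5) ((γ - 1) / 7)), lt_min (by norm_num) (lt_min (by linarith) (by linarith)), min_le_left _ _,
    ?_, ?_⟩
  · have := (min_le_right (1 / 2 : ℝ) _).trans (min_le_left ((α - β) / 5) ((γ - 1) / 7))
    linarith
  · set ε := min (1 / 2) (min ((α - β) / 5) ((γ - 1) / 7)) with hε
    have h0 : 0 < ε := lt_min (by norm_num) (lt_min (by linarith) (by linarith))
    have h1 : ε ≤ 1 / 2 := min_le_left _ _
    have h2 : ε ≤ (γ - 1) / 7 := (min_le_right _ _).trans (min_le_right _ _)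
    rw [div_lt_iff₀ (by linarith)]
    nlinarith

variable {V : Type} [NormedAddCommGroup V] [InnerProductSpace ℝ V]

lemma d_smul_lin {H : AGrp V} (h0 : ∀ g ∈ H.car, g.2 = 0) {t : ℝ} (ht : 0 < t) (y z : V) :
    H.d (t • y) (t • z) = t * H.d y z := by
  have key : ∀ t : ℝ, 0 < t → ∀ y z : V, t * H.d y z ≤ H.d (t • y) (t • z) := fun t ht y z =>
    H.le_d fun g hg => by
      have e : t • y - act g (t • z) = t • (y - act g z) := by
        simp only [act, h0 g hg, add_zero, map_smul, smul_sub]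
      rw [e, norm_smul, Real.norm_eq_abs, abs_of_pos ht]
      exact mul_le_mul_of_nonneg_left (H.d_le hg y z) ht.le
  refine le_antisymm ?_ (key t ht y z)
  have := key t⁻¹ (inv_pos.mpr ht) (t • y) (t • z)
  rw [smul_smul, smul_smul, inv_mul_cancel₀ ht.ne', one_smul, one_smul] at this
  calc H.d (t • y) (t • z) = t * (t⁻¹ * H.d (t • y) (t • z)) := by field_simp
    _ ≤ _ := mul_le_mul_of_nonneg_left this ht.le

lemma hyp_of_ball {H : AGrp V} (h0 : ∀ g ∈ H.car, g.2 = 0) {W : Submodule ℝ V} {α r : ℝ}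
    (hr : 0 < r) {E : Type} [NormedAddCommGroup E] [InnerProductSpace ℝ E] (F : V → E)
    (h1 : ∀ y z, ‖F y - F z‖ ≤ H.d y z)
    (h2 : ∀ y ∈ W, ∀ z ∈ W, ‖y‖ < r → ‖z‖ < r → α * H.d y z ≤ ‖F y - F z‖) : Hyp H W α := by
  intro ρ
  set t : ℝ := r / (|ρ| + 1) with ht
  have t0 : 0 < t := by positivity
  have hn : ∀ y z, ‖t⁻¹ • F (t • y) - t⁻¹ • F (t • z)‖ = t⁻¹ * ‖F (t • y) - F (t • z)‖ :=
    fun y z => by rw [← smul_sub, norm_smul, Real.norm_eq_abs, abs_of_pos (inv_pos.mpr t0)]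
  have hs : ∀ y : V, ‖y‖ ≤ ρ → ‖t • y‖ < r := fun y hy => by
    rw [norm_smul, Real.norm_eq_abs, abs_of_pos t0, ht, div_mul_eq_mul_div,
      div_lt_iff₀ (by positivity)]
    exact mul_lt_mul_of_pos_left (by linarith [le_abs_self ρ]) hr
  refine ⟨E, inferInstance, inferInstance, fun y => t⁻¹ • F (t • y), fun y z => ?_,
    fun y hy z hz hy' hz' => ?_⟩
  · rw [hn, inv_mul_le_iff₀ t0, ← d_smul_lin h0 t0]
    exact h1 _ _
  · rw [hn, le_inv_mul_iff₀ t0, mul_left_comm, ← d_smul_lin h0 t0]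
    exact h2 _ (W.smul_mem t hy) _ (W.smul_mem t hz) (hs y hy') (hs z hz')

/-- The statement for groups of linear isometries. -/
def ClaimLin (V : Type) [NormedAddCommGroup V] [InnerProductSpace ℝ V] : Prop :=
  ∀ (H : AGrp V) (W : Submodule ℝ V) (R : ℝ), Setup H ⊥ W R → ∀ α : ℝ, 0 < α → α ≤ 1 →
    Hyp H (⊥ ⊔ W) α → Good H (⊥ ⊔ W) α

variable [FiniteDimensional ℝ V]

lemma local_near (hlin : ClaimLin V) {S : AGrp V} {M : Submodule ℝ V}
    (hM : ∀ g ∈ S.car, ∀ v ∈ M, act g v ∈ M) {α : ℝ} (hα1 : α ≤ 1) (hH : Hyp S M α)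
    {k₀ : ℕ} {L : V → Eu k₀} (hL : ContDiff ℝ 1 L) (hL1 : ∀ y z, ‖L y - L z‖ ≤ ‖y - z‖)
    (hLi : ∀ g ∈ S.car, ∀ v, L (act g v) = L v) {x : V} (hx : x ∈ M) {ε : ℝ} (hε : 0 < ε)
    (hε1 : ε ≤ 1 / 2) (hεα : 3 * ε ≤ α) :
    ∃ r : ℝ, 0 < r ∧ ∃ (k : ℕ) (n : V → Eu k), ∀ y ∈ M, ∀ z ∈ M, S.d y x < r → S.d z x < r →
      ((α - 3 * ε) * S.d y z) ^ 2 ≤ ‖L y - L z‖ ^ 2 + ‖n y - n z‖ ^ 2 ∧
        ‖L y - L z‖ ^ 2 + ‖n y - n z‖ ^ 2 ≤ ((1 + ε + ε) / (1 - ε) * S.d y z) ^ 2 := by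
  obtain ⟨N, r₁, hr₁, hN1, hN2, hN3⟩ := slice_near (S.shift x) hε
  obtain ⟨D, r₂, hr₂, hD1, hD2, hD3, -⟩ := c1_loc hL hL1 x hε
  set H := (S.shift x).fixer 0 1 with hHdef
  have h0 : ∀ g ∈ H.car, g.2 = 0 := fun g hg => by simpa using hg.2
  have hsh : ∀ g ∈ (S.shift x).car, ∀ v, L (x + act g v) = L (x + v) := fun g hg v => by
    rw [← AGrp.act_shift, hLi _ hg]
  have hshM : ∀ g ∈ (S.shift x).car, ∀ v ∈ M, act g v ∈ M := fun g hg v hv => by
    have := hM _ hg _ (M.add_mem hx hv)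
    rw [AGrp.act_shift] at this
    simpa using M.sub_mem this hx
  have hact : ∀ g ∈ H.car, ∀ v, act g v = g.1 v := fun g hg v => by
    simp only [act, h0 g hg, add_zero]
  have hS : Setup H ⊥ (N ⊓ M) 0 :=
    { orth := fun u hu w _ => by rw [(Submodule.mem_bot ℝ).mp hu, inner_zero_left]
      tr := fun g hg => (Submodule.mem_bot ℝ).mpr (h0 g hg)
      linU := fun g _ u hu => by
        rw [(Submodule.mem_bot ℝ).mp hu, map_zero]
        exact Submodule.zero_mem _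
      linW := fun g hg w hw => ⟨hN1 g hg w hw.1, hact g hg w ▸ hshM g hg.1 w hw.2⟩
      coc := fun u hu => ⟨_, H.one_mem, fun _ _ => rfl, by
        rw [act_one, (Submodule.mem_bot ℝ).mp hu, norm_zero]⟩ }
  have hα : 0 < α := by linarith
  have hle : ∀ s s', S.d (x + s) (x + s') ≤ H.d s s' := fun s s' => by
    rw [← S.shift_d]
    exact (S.shift x).d_le_fixer 0 1 s s'
  have hHyp : Hyp H (⊥ ⊔ mov H (N ⊓ M)) (α * (1 - ε)) := by
    obtain ⟨E, _, _, F, hF1, hF2⟩ := hH (‖x‖ + r₁)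
    refine hyp_of_ball h0 hr₁ (fun v => F (x + v)) (fun y z => (hF1 _ _).trans (hle y z))
      fun y hy z hz hy' hz' => ?_
    rw [bot_sup_eq] at hy hz
    have a1 := hN3 y hy.1.1 z hz.1.1 hy' hz'
    rw [S.shift_d] at a1
    have a2 := hF2 (x + y) (M.add_mem hx hy.1.2) (x + z) (M.add_mem hx hz.1.2)
      ((norm_add_le _ _).trans (by linarith)) ((norm_add_le _ _).trans (by linarith))
    calc α * (1 - ε) * H.d y z = α * ((1 - ε) * H.d y z) := by ring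
      _ ≤ α * S.d (x + y) (x + z) := mul_le_mul_of_nonneg_left a1 hα.le
      _ ≤ _ := a2
  obtain ⟨k, Φ, hΦ⟩ := hlin H _ 0 (setup_mov hS) (α * (1 - ε)) (mul_pos hα (by linarith))
    (by nlinarith) hHyp (α - 2 * ε) (by nlinarith) (1 + ε) (by linarith)
  have hDg : ∀ g ∈ H.car, ∀ v, D (g.1 v) = D v := fun g hg =>
    hD3 g.1 fun s => by rw [← hact g hg, hsh g hg.1]
  obtain ⟨k', n, hn⟩ := prodLemma hS (by linarith) (by linarith) (by linarith) Φ hΦ D hD1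
    (fun u hu => by rw [(Submodule.mem_bot ℝ).mp hu, map_zero]) hDg
  choose g hg hgN hgd using hN2
  refine ⟨min r₁ r₂, lt_min hr₁ hr₂, k', fun y => n (act (g (y - x)) (y - x)),
    fun y hy z hz hy' hz' => ?_⟩
  have rep : ∀ y ∈ M, S.d y x < min r₁ r₂ → act (g (y - x)) (y - x) ∈ N ⊓ M ∧
      ‖act (g (y - x)) (y - x)‖ < min r₁ r₂ ∧ L y = L (x + act (g (y - x)) (y - x)) :=
    fun y hy hy' => by
    refine ⟨⟨hgN _, hshM _ (hg _) _ (M.sub_mem hy hx)⟩, ?_, ?_⟩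
    · rw [hgd, S.shift_d, add_sub_cancel, add_zero]
      exact hy'
    · rw [hsh _ (hg _), add_sub_cancel]
  obtain ⟨m1, n1, l1⟩ := rep y hy hy'
  obtain ⟨m2, n2, l2⟩ := rep z hz hz'
  have hdd : S.d (x + act (g (y - x)) (y - x)) (x + act (g (z - x)) (z - x)) = S.d y z := by
    rw [← S.shift_d, (S.shift x).d_act_left (hg _), (S.shift x).d_act_right (hg _), S.shift_d,
      add_sub_cancel, add_sub_cancel]
  set s := act (g (y - x)) (y - x) with hs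
  set s' := act (g (z - x)) (z - x) with hs'
  obtain ⟨b1, b2⟩ := hn s (by rw [bot_sup_eq]; exact m1) s' (by rw [bot_sup_eq]; exact m2)
  obtain ⟨h, hh, eh⟩ := H.exists_d s s'
  have c1 : (1 - ε) * H.d s s' ≤ S.d y z := by
    have := hN3 s m1.1 s' m2.1 (n1.trans_le (min_le_left _ _)) (n2.trans_le (min_le_left _ _))
    rwa [S.shift_d, hdd] at this
  have c2 : S.d y z ≤ H.d s s' := hdd ▸ hle s s'
  have c3 : |‖L y - L z‖ - ‖D (s - s')‖| ≤ ε * H.d s s' := by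
    have e1 : D (s - s') = D (s - act h s') := by
      rw [map_sub, map_sub, hact h hh, hDg h hh]
    rw [l1, l2, e1, ← hsh h hh.1 s', eh]
    refine (abs_norm_sub_norm_le _ _).trans (hD2 _ _ (n1.trans_le (min_le_right _ _)) ?_)
    rw [hact h hh, H.iso h hh]
    exact n2.trans_le (min_le_right _ _)
  have := asm (norm_nonneg _) (norm_nonneg _) (S.d_nonneg y z) hε.le (by linarith)
    (by linarith : ε ≤ α - 2 * ε) (by linarith : (0 : ℝ) ≤ 1 + ε) c3 b1 b2 c1 c2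
  have e : α - 2 * ε - ε = α - 3 * ε := by ring
  rwa [e] at this

lemma exists_rep (S : AGrp V) (y : V) : ∃ g ∈ S.car, ‖act g y‖ = S.d y 0 := by
  obtain ⟨g, hg, e⟩ := S.exists_d 0 y
  exact ⟨g, hg, by rw [S.d_comm, e, zero_sub, norm_neg]⟩

theorem core (hlin : ClaimLin V) {S : AGrp V} {M : Submodule ℝ V}
    (hM : ∀ g ∈ S.car, ∀ v ∈ M, act g v ∈ M) {α : ℝ} (hα1 : α ≤ 1) (hH : Hyp S M α)
    {β γ : ℝ} (hβ0 : 0 ≤ β) (hβ : β < α) (hγ : 1 < γ) (ρ : ℝ) :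
    ∃ (k : ℕ) (G : V → Eu k), (∀ y ∈ M, ∀ z ∈ M, ‖G y - G z‖ ≤ γ * S.d y z) ∧
      ∀ y ∈ M, ∀ z ∈ M, S.d y 0 ≤ ρ → S.d z 0 ≤ ρ → β * S.d y z ≤ ‖G y - G z‖ := by
  obtain ⟨ε, hε, hε1, hεα, hεγ⟩ := exists_eps hβ hγ
  have hγ1 : 1 ≤ (1 + ε + ε) / (1 - ε) := by
    rw [le_div_iff₀ (by linarith)]
    linarith
  have hw := windows (I := Unit) (X := V) ⊤ (fun _ => S.d) (M : Set V)
    (fun _ y z => S.d y 0 ≤ ρ ∧ S.d z 0 ≤ ρ) (β := α - 4 * ε) (β' := β) (γ := γ) hβ0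
    (by linarith) (by linarith) (fun _ => S.d_nonneg) ?_
  · obtain ⟨k, hk⟩ := hw
    obtain ⟨G, h1, h2⟩ := eventually_top.mp hk ()
    exact ⟨k, G, h1, fun y hy z hz a b => h2 y hy z hz ⟨a, b⟩⟩
  intro T hT
  obtain ⟨E, _, _, F, hF1, hF2⟩ := hH ρ
  obtain ⟨k₀, hk₀⟩ := proj (isCompact_closedBall (0 : V) ρ) (η := ε * T) (by positivity)
  obtain ⟨P, hP1, hP2⟩ := hk₀ E F fun y z => (hF1 y z).trans (S.d_le_norm y z)
  obtain ⟨L, hL, hL1, hL2, hL3⟩ := moll (fun v => P (F v))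
    (fun y z => (hP1 _ _).trans ((hF1 y z).trans (S.d_le_norm y z))) (η := ε * T) (by positivity)
  have hLi : ∀ g ∈ S.car, ∀ v, L (act g v) = L v := fun g hg =>
    hL3 g (S.iso g hg) fun v => by
      have := hF1 (act g v) v
      rw [S.d_act_left hg, S.d_self] at this
      rw [sub_eq_zero.mp (norm_le_zero_iff.mp this)]
  have hLd : ∀ y z, ‖L y - L z‖ ≤ S.d y z := fun y z => S.le_d fun g hg => by
    rw [← hLi g hg z]
    exact hL1 _ _
  have hK : IsCompact (Metric.closedBall (0 : V) ρ ∩ (M : Set V)) :=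
    (isCompact_closedBall (0 : V) ρ).inter_right M.closed_of_finiteDimensional
  have hloc := fun x : (M : Set V) => local_near hlin hM hα1 hH hL hL1 hLi x.2 hε hε1
    (by linarith)
  choose r hr k n hn using hloc
  obtain ⟨t, ht⟩ := hK.elim_finite_subcover (fun x : (M : Set V) => Metric.ball x.1 (r x / 4))
    (fun _ => Metric.isOpen_ball) fun x hx =>
      Set.mem_iUnion.mpr ⟨⟨x, hx.2⟩, Metric.mem_ball_self (by have := hr ⟨x, hx.2⟩; positivity)⟩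
  obtain ⟨k', T', hT', hc⟩ := cstep (J := t) (fun j => r j.1) (fun j => hr j.1) (fun j => k j.1)
    (β := α - 3 * ε) (β' := α - 4 * ε) (by linarith) (by linarith) (by linarith) hεγ
  obtain ⟨C, hC1, hC2, hC3⟩ := hc V S.d (M : Set V) (fun j => j.1.1) k₀ L (fun j => n j.1)
    S.d_nonneg S.d_comm S.d_triangle (fun y hy z hz => S.exists_mid hM hy hz)
    (fun y _ z _ => (hLd y z).trans (le_mul_of_one_le_left (S.d_nonneg y z) hγ1))
    (fun j y hy z hz => hn j.1 y hy z hz)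
  refine ⟨T', hT', k₀ + k', eventually_top.mpr fun _ => ⟨C, hC2, ?_⟩⟩
  rintro y hy z hz ⟨hy', hz'⟩ hd
  obtain ⟨g, hg, eg⟩ := exists_rep S y
  rcases hd with hd | hd
  · obtain ⟨h, hh, eh⟩ := exists_rep S z
    have a1 := hF2 _ (hM g hg y hy) _ (hM h hh z hz) (eg ▸ hy') (eh ▸ hz')
    have a2 := hP2 (act g y) (mem_closedBall_zero_iff.mpr (eg ▸ hy')) (act h z)
      (mem_closedBall_zero_iff.mpr (eh ▸ hz'))
    rw [S.d_act_left hg, S.d_act_right hh] at a1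
    have a3 := hL2 (act g y)
    have a4 := hL2 (act h z)
    rw [hLi g hg] at a3
    rw [hLi h hh] at a4
    have a5 : ‖P (F (act g y)) - P (F (act h z))‖ ≤ ‖L y - L z‖ + ε * T + ε * T := by
      have e : P (F (act g y)) - P (F (act h z)) =
          (L y - L z) - (L y - P (F (act g y))) + (L z - P (F (act h z))) := by abel
      rw [e]
      refine (norm_add_le _ _).trans (add_le_add ((norm_sub_le _ _).trans ?_) a4)
      linarith
    have a6 := hC1 y z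
    have a7 : ε * T ≤ ε * S.d y z := mul_le_mul_of_nonneg_left hd hε.le
    have a8 : 0 ≤ ε * S.d y z := mul_nonneg hε.le (S.d_nonneg y z)
    nlinarith
  · refine hC3 y hy z hz ?_ hd
    have := ht ⟨mem_closedBall_zero_iff.mpr (eg ▸ hy'), hM g hg y hy⟩
    simp only [Set.mem_iUnion] at this
    obtain ⟨x, hx, hb⟩ := this
    refine ⟨⟨x, hx⟩, ?_⟩
    rw [← S.d_act_left hg]
    exact (S.d_le_norm _ _).trans_lt (mem_ball_iff_norm.mp hb)

end Pool.Agent.Work.MP_0ba68b_gt.Apx
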