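import Pool.Agent.Work.MP_0ba68b_gt.Apx.LB

/-!
Slices at the origin.

Plan. Let C come from `linBound S 0 1 1` (the displacement of g is just g.2). Put
N = {v | ∃ K, ∀ g ∈ S, ‖g.2‖ ≤ 1 → |⟪v, g.2⟫| ≤ K * ‖g.2‖^2}, a submodule.
(1) for h in the stabilizer with inverse k (k.2 = 0): ⟪h.1 v, g.2⟫ = ⟪v, k.1 g.2⟫ and k.1 g.2 is
the translation part of k * g.
(2) take g with S.d 0 y = ‖0 - act g y‖ (`exists_d`, `d_comm`); y' = act g y has minimal norm in its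
orbit: ‖e.1 y' + e.2‖ ≥ ‖y'‖ for all e in S. Applied to the inverse of e this gives
⟪y', e.2⟫ ≤ ‖e.2‖^2 / 2. Applied to e * k, where h is the stabilizer element close to e and k its
inverse (pair (e.1 * k.1, e.2), ‖e.1 * k.1 - 1‖ ≤ C ‖e.2‖), it gives
⟪y', e.2⟫ ≥ -‖e.2‖^2 / 2 - C ‖y'‖ ‖e.2‖^2.
(3) with an orthonormal basis of N get one K with |⟪v, g.2⟫| ≤ K ‖v‖ ‖g.2‖^2 for all v in N. Let
S.d s s' = ‖s - act g s'‖; it is ≤ ‖s - s'‖ < 2r, so a = g.2 has norm ≤ 4r ≤ 1. With h close to g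
(h.2 = 0): act g s' = h.1 s' + a + e, ‖e‖ ≤ C ‖a‖ r. Apply `slice_ineq` to v = s - h.1 s' in N.
-/

namespace Pool.Agent.Work.MP_0ba68b_gt.Apx

variable {V : Type} [NormedAddCommGroup V] [InnerProductSpace ℝ V]

/-- If `a` is almost orthogonal to `v` and `e` is small compared with `a`, then `v - a - e` is
almost as long as `v`. (Square: ‖v - a‖^2 ≥ (1 - κ)(‖v‖^2 + ‖a‖^2).) -/
theorem slice_ineq {v a e : V} {κ : ℝ} (hκ : 0 ≤ κ) (hκ1 : κ ≤ 1 / 2)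
    (h1 : |inner ℝ v a| ≤ κ * (‖v‖ * ‖a‖)) (h2 : ‖e‖ ≤ κ * ‖a‖) :
    (1 - 2 * κ) * ‖v‖ ≤ ‖v - a - e‖ := by
  have h3 : (1 - 2 * κ) * ‖v‖ + κ * ‖a‖ ≤ ‖v - a‖ := by
    refine le_of_sq_le_sq ?_ (norm_nonneg _)
    have h5 : 0 ≤ 1 - κ := by linarith
    have h6 := mul_nonneg (mul_nonneg hκ h5) (sq_nonneg (2 * ‖v‖ - ‖a‖))
    have h7 := mul_nonneg h5 (sq_nonneg ‖a‖)
    rw [norm_sub_sq_real]
    linarith [le_abs_self (inner ℝ v a)]
  linarith [norm_sub_norm_le (v - a) e]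

/-- vectors that are orthogonal to the small translation parts to second order -/
def SliceN_N (S : AGrp V) : Submodule ℝ V where
  carrier := {v | ∃ K : ℝ, ∀ g ∈ S.car, ‖g.2‖ ≤ 1 → |inner ℝ v g.2| ≤ K * ‖g.2‖ ^ 2}
  zero_mem' := ⟨0, fun g _ _ => by simp⟩
  add_mem' := by
    rintro v w ⟨K, hK⟩ ⟨L, hL⟩
    refine ⟨K + L, fun g hg h => ?_⟩
    rw [inner_add_left, add_mul]
    exact (abs_add_le _ _).trans (add_le_add (hK g hg h) (hL g hg h))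
  smul_mem' := by
    rintro c v ⟨K, hK⟩
    refine ⟨|c| * K, fun g hg h => ?_⟩
    rw [real_inner_smul_left, abs_mul, mul_assoc]
    exact mul_le_mul_of_nonneg_left (hK g hg h) (abs_nonneg c)

theorem SliceN_fix {S : AGrp V} {g : (V →L[ℝ] V) × V} (hg : g ∈ (S.fixer 0 1).car) : g.2 = 0 := by
  simpa using hg.2

theorem SliceN_inv (S : AGrp V) {g : (V →L[ℝ] V) × V} (hg : g ∈ (S.fixer 0 1).car) {v : V}
    (hv : v ∈ SliceN_N S) : g.1 v ∈ SliceN_N S := by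
  obtain ⟨K, hK⟩ := hv
  obtain ⟨k, hk, -, e, -⟩ := (S.fixer 0 1).exists_inv hg
  refine ⟨K, fun a ha h => ?_⟩
  have h1 := hK _ (S.mul_mem k hk.1 a ha)
  simp only [SliceN_fix hk, add_zero, S.iso k hk.1] at h1
  conv_lhs => rw [← e a.2, S.inner_iso hg.1]
  exact h1 h

theorem SliceN_min (S : AGrp V) {C : ℝ}
    (hC : ∀ g ∈ S.car, ‖g.2‖ ≤ 1 → ∃ h ∈ (S.fixer 0 1).car, ‖g.1 - h.1‖ ≤ C * ‖g.2‖) {y : V}
    (hy : ∀ e ∈ S.car, ‖y‖ ≤ ‖act e y‖) : y ∈ SliceN_N S := by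
  refine ⟨1 / 2 + C * ‖y‖, fun e he h => ?_⟩
  obtain ⟨e', he', -, -, a1, -⟩ := S.exists_inv he
  obtain ⟨h, hh, a2⟩ := hC e he h
  obtain ⟨k, hk, -, a3, -⟩ := (S.fixer 0 1).exists_inv hh
  have b1 := pow_le_pow_left₀ (norm_nonneg _) (hy e' he') 2
  rw [← sub_zero (act e' y), ← a1 0, S.norm_act_sub he', act, map_zero, zero_add,
    norm_sub_sq_real] at b1
  have b2 := pow_le_pow_left₀ (norm_nonneg _) (hy _ (S.mul_mem e he k hk.1)) 2
  rw [act_mul, act, act, SliceN_fix hk, add_zero, norm_add_sq_real, S.iso e he, S.iso k hk.1] at b2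
  have b3 : ‖e.1 (k.1 y) - y‖ ≤ C * ‖e.2‖ * ‖y‖ := by
    have := ((e.1 - h.1).le_opNorm (k.1 y)).trans (mul_le_mul_of_nonneg_right a2 (norm_nonneg _))
    rwa [sub_apply, a3, S.iso k hk.1] at this
  have b4 := (real_inner_le_norm (e.1 (k.1 y) - y) e.2).trans
    (mul_le_mul_of_nonneg_right b3 (norm_nonneg _))
  have b5 := mul_nonneg ((norm_nonneg _).trans b3) (norm_nonneg e.2)
  rw [inner_sub_left] at b4
  exact abs_le.2 ⟨by linarith, by linarith⟩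

theorem SliceN_unif [FiniteDimensional ℝ V] (S : AGrp V) : ∃ K : ℝ, 0 ≤ K ∧ ∀ v ∈ SliceN_N S,
    ∀ g ∈ S.car, ‖g.2‖ ≤ 1 → |inner ℝ v g.2| ≤ K * ‖g.2‖ * (‖v‖ * ‖g.2‖) := by
  let b := stdOrthonormalBasis ℝ (SliceN_N S)
  choose K hK using fun i => (b i).2
  refine ⟨∑ i, |K i|, Finset.sum_nonneg fun i _ => abs_nonneg _, fun v hv g hg h => ?_⟩
  have h1 : v = ∑ i, inner ℝ (b i : V) v • (b i : V) := by
    have := congrArg (SliceN_N S).subtype (b.sum_repr' ⟨v, hv⟩)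
    rw [map_sum] at this
    exact this.symm
  conv_lhs => rw [h1, sum_inner]
  rw [Finset.sum_mul, Finset.sum_mul]
  refine (Finset.abs_sum_le_sum_abs _ _).trans (Finset.sum_le_sum fun i _ => ?_)
  have h2 := abs_real_inner_le_norm (b i : V) v
  rw [show ‖(b i : V)‖ = 1 from b.orthonormal.1 i, one_mul] at h2
  have h3 := (hK i g hg h).trans (mul_le_mul_of_nonneg_right (le_abs_self _) (sq_nonneg _))
  rw [real_inner_smul_left, abs_mul]
  exact (mul_le_mul h2 h3 (abs_nonneg _) (norm_nonneg _)).trans_eq (by ring)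

theorem slice_near [FiniteDimensional ℝ V] (S : AGrp V) {ε : ℝ} (hε : 0 < ε) :
    ∃ (N : Submodule ℝ V) (r : ℝ), 0 < r ∧
      (∀ g ∈ (S.fixer 0 1).car, ∀ v ∈ N, g.1 v ∈ N) ∧
      (∀ y, ∃ g ∈ S.car, act g y ∈ N ∧ ‖act g y‖ = S.d y 0) ∧
      ∀ s ∈ N, ∀ s' ∈ N, ‖s‖ < r → ‖s'‖ < r →
        (1 - ε) * (S.fixer 0 1).d s s' ≤ S.d s s' := by
  obtain ⟨C, hC0, hC⟩ := linBound S 0 1 1
  replace hC : ∀ g ∈ S.car, ‖g.2‖ ≤ 1 → ∃ h ∈ (S.fixer 0 1).car, ‖g.1 - h.1‖ ≤ C * ‖g.2‖ :=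
    fun g hg h => (hC g hg h).imp fun h hh => ⟨hh.1, by simpa using hh.2.1⟩
  obtain ⟨K, hK0, hK⟩ := SliceN_unif S
  obtain ⟨κ, k0, k1, k2⟩ : ∃ κ : ℝ, 0 < κ ∧ κ ≤ 1 / 2 ∧ κ ≤ ε / 2 :=
    ⟨min (1 / 2) (ε / 2), by positivity, min_le_left _ _, min_le_right _ _⟩
  obtain ⟨r, r0, r1⟩ : ∃ r : ℝ, 0 < r ∧ r * (4 * (K + C + 1)) = κ :=
    ⟨κ / (4 * (K + C + 1)), by positivity, div_mul_cancel₀ _ (by positivity)⟩
  have rK := mul_nonneg r0.le hK0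
  have rC := mul_nonneg r0.le hC0
  refine ⟨SliceN_N S, r, r0, fun g hg v => SliceN_inv S hg, fun y => ?_,
    fun s hs s' hs' h1 h2 => ?_⟩
  · obtain ⟨g, hg, e⟩ := S.exists_d 0 y
    rw [zero_sub, norm_neg] at e
    refine ⟨g, hg, SliceN_min S hC fun a ha => ?_, e.symm.trans (S.d_comm _ _)⟩
    have := S.d_le (S.mul_mem a ha g hg) 0 y
    rwa [zero_sub, norm_neg, act_mul, e] at this
  obtain ⟨g, hg, e⟩ := S.exists_d s s'
  have a1 : ‖g.2‖ ≤ 4 * r := by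
    have b1 := (S.d_le_norm s s').trans (norm_sub_le _ _)
    have b2 : g.2 = s - g.1 s' - (s - act g s') := by simp [act]
    have b3 := norm_sub_le (s - g.1 s') (s - act g s')
    have b4 := norm_sub_le s (g.1 s')
    rw [S.iso g hg] at b4
    rw [← b2] at b3
    linarith
  obtain ⟨h, hh, a2⟩ := hC g hg (by linarith)
  have a3 := slice_ineq (v := s - h.1 s') (a := g.2) (e := (g.1 - h.1) s') k0.le k1
    ((hK _ (sub_mem hs (SliceN_inv S hh hs')) g hg (by linarith)).trans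
      (mul_le_mul_of_nonneg_right (by linarith [mul_le_mul_of_nonneg_left a1 hK0]) (by positivity)))
    (((g.1 - h.1).le_opNorm s').trans ((mul_le_mul a2 h2.le (norm_nonneg _) (by positivity)).trans
      (by linarith [mul_le_mul_of_nonneg_right (show C * r ≤ κ by linarith) (norm_nonneg g.2)])))
  have a4 : s - h.1 s' - g.2 - (g.1 - h.1) s' = s - act g s' := by
    rw [sub_apply, act]
    abel
  have a5 := (S.fixer 0 1).d_le hh s s'
  rw [act, SliceN_fix hh, add_zero] at a5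
  rw [e, ← a4]
  exact ((mul_le_mul_of_nonneg_right (by linarith) ((S.fixer 0 1).d_nonneg s s')).trans
    (mul_le_mul_of_nonneg_left a5 (by linarith))).trans a3

end Pool.Agent.Work.MP_0ba68b_gt.Apx
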